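import Pool.Agent.L5helper70.QF.Mot

/-!
# Conclusion for properties of schemes
-/

set_option autoImplicit false
set_option linter.unusedVariables false

open CategoryTheory AlgebraicGeometry MvPolynomial Pool.Agent.Y116.UV Pool.Agent.Z125.UN

namespace Pool.Agent.L5helper70.QF

section

variable {R : Type} [CommRing R] {σ : Type} {A : Type} [CommRing A] [Algebra R A] {x : σ → A}
  {Φ : Cond R σ}

lemma Repr.sqrt' (h : Repr A x Φ) (u : MvPolynomial σ R) (a : A) (ha : aeval x u = a) :
    Repr (Sq A a)
      (Sum.elim (fun s => AdjoinRoot.of _ (x s)) (fun _ => AdjoinRoot.root _) : σ ⊕ Unit → _)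
      (Rt Φ u) := by
  subst ha
  exact h.sqrt u

lemma Repr.opened' (h : Repr A x Φ) (e : MvPolynomial σ R) (a : A) (ha : aeval x e = a) :
    Repr (Localization.Away a) (fun s => algebraMap A (Localization.Away a) (x s))
      (fun C _ _ v => Φ C v ∧ IsUnit (aeval v e) : Cond R σ) := by
  subst ha
  exact h.opened e

lemma Repr.closed1' (h : Repr A x Φ) (e : MvPolynomial σ R) (a : A) (ha : aeval x e = a) :
    Repr (A ⧸ Ideal.span {a}) (fun s => Ideal.Quotient.mk (Ideal.span {a}) (x s))
      (fun C _ _ v => Φ C v ∧ aeval v e = 0 : Cond R σ) := by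
  subst ha
  exact h.closed1 e

lemma Repr.jou' (h : Repr A x Φ) {m : ℕ} (e : Fin m → MvPolynomial σ R) (a : Fin m → A)
    (ha : ∀ l, aeval x (e l) = a l) :
    Repr (Jou a) (Sum.elim
        (fun s => Ideal.Quotient.mk _ (MvPolynomial.C (x s))) (fun l => Ideal.Quotient.mk _ (X l)) :
          σ ⊕ Fin m → _)
      (fun C _ _ v => Φ C (fun s => v (Sum.inl s)) ∧
        ∑ l, aeval (fun s => v (Sum.inl s)) (e l) * v (Sum.inr l) = 1 : Cond R (σ ⊕ Fin m)) := by
  have h1 : a = fun l => aeval x (e l) := funext fun l => (ha l).symm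
  subst h1
  exact h.jou e

lemma ev_C_map {B : Type} [CommRing B] [Algebra R B] {β τ : Type} (x : β → B)
    (Q : MvPolynomial τ (MvPolynomial β R)) :
    ev (fun b => (MvPolynomial.C (x b) : MvPolynomial τ B)) X Q =
      map (aeval x : MvPolynomial β R →ₐ[R] B).toRingHom Q := by
  have h : ev (R := R) (fun b => (MvPolynomial.C (x b) : MvPolynomial τ B)) X =
      map (aeval x : MvPolynomial β R →ₐ[R] B).toRingHom := by
    apply MvPolynomial.ringHom_ext
    · intro b
      rw [ev_C, map_C]
      exact aeval_map (IsScalarTower.toAlgHom R B (MvPolynomial τ B)) x b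
    · intro t
      rw [ev_X, map_X]
  rw [h]

/-- a family over a base -/
lemma Repr.fam (h : Repr A x Φ) {N : ℕ} (Q : MvPolynomial (Fin N) (MvPolynomial σ R))
    (Q' : MvPolynomial (Fin N) A)
    (hQ : MvPolynomial.map (aeval x : MvPolynomial σ R →ₐ[R] A).toRingHom Q = Q') :
    Repr (MvPolynomial (Fin N) A ⧸ Ideal.span {Q'})
      (fun s => Ideal.Quotient.mk (Ideal.span {Q'})
        ((Sum.elim (fun s => MvPolynomial.C (x s)) X : σ ⊕ Fin N → MvPolynomial (Fin N) A) s))
      (fun C _ _ v => Φ C (fun s => v (Sum.inl s)) ∧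
        ev (fun b => v (Sum.inl b)) (fun j => v (Sum.inr j)) Q = 0 : Cond R (σ ⊕ Fin N)) := by
  refine ((h.poly (Fin N)).closed1' (gp Sum.inl Sum.inr Q) Q' ?_).congr ?_
  · rw [aeval_gp, ← hQ]
    exact ev_C_map x Q
  · intro C _ _ v
    rw [aeval_gp]

end

section

variable {R : Type} [CommRing R] {P : Sch R → Prop} {sep : Prop} (hP : Bnd sep P)

include hP

/-- the hypersurfaces `∑ y_j q_j(x) = 1` as schemes -/
lemma hy_iff (m : ℕ) : HY P m ↔ ∀ (N : ℕ) (q : Fin m → MvPolynomial (Fin N) R),
    (∀ j, (q j).totalDegree ≤ 2) → P (aff R (Jou q)) := by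
  refine forall_congr' fun N => forall_congr' fun q => forall_congr' fun hq => ?_
  have h1 := (repr_true (R := R) (σ := Fin N)).jou' q q fun l => aeval_X_left_apply _
  have h2 := h1.congr (Φ' := (fun C _ _ v => ∑ l, aeval (fun s => v (Sum.inl s)) (q l) *
    v (Sum.inr l) = 1 : Cond R (Fin N ⊕ Fin m))) fun C _ _ v => by rw [true_and]
  have := ft_jou (R := R) q
  exact pr_iff hP h2

/-- the intersections of quadrics as schemes -/
lemma hy_iff' (m : ℕ) : HY P m ↔ ∀ (N : ℕ) (q : Fin m → MvPolynomial (Fin N) R),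
    (∀ j, (q j).totalDegree ≤ 2) →
      P (aff R (MvPolynomial (Fin N) R ⧸ Ideal.span (Set.range q))) := by
  rw [hy_iff hP]
  refine forall_congr' fun N => forall_congr' fun q => forall_congr' fun hq => ?_
  exact ⟨of_jou hP.toUni q (hP.space N), jou_of hP q (hP.space N)⟩

/-- the families of quadrics as schemes -/
lemma qfam_iff (n : ℕ) : QFam P n ↔ ∀ (N : ℕ) (Q : MvPolynomial (Fin N) (MvPolynomial (Fin n) R)),
    Q.totalDegree ≤ 2 →
      P (aff R (MvPolynomial (Fin N) (MvPolynomial (Fin n) R) ⧸ Ideal.span {Q})) := by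
  refine forall_congr' fun N => forall_congr' fun Q => forall_congr' fun hQ => ?_
  have h1 := (repr_true (R := R) (σ := Fin n)).fam Q Q (by
    have h : (aeval X : MvPolynomial (Fin n) R →ₐ[R] MvPolynomial (Fin n) R).toRingHom =
        RingHom.id _ := by
      apply MvPolynomial.ringHom_ext
      · intro r
        exact aeval_X_left_apply _
      · intro s
        exact aeval_X_left_apply _
    rw [h, map_id])
  have h2 := h1.congr (Φ' := (fun C _ _ v =>
    ev (fun b => v (Sum.inl b)) (fun j => v (Sum.inr j)) Q = 0 : Cond R (Fin n ⊕ Fin N)))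
    fun C _ _ v => by rw [true_and]
  have : Algebra.FiniteType R (MvPolynomial (Fin N) (MvPolynomial (Fin n) R)) :=
    Algebra.FiniteType.trans (S := MvPolynomial (Fin n) R) inferInstance inferInstance
  exact pr_iff hP h2

/-- the complements of the cones over cubic hypersurfaces as schemes -/
lemma cu_iff (m : ℕ) : CU P m ↔ ∀ (N : ℕ) (q : Fin m → MvPolynomial (Fin N ⊕ Fin m) R),
    (∀ j, (q j).IsHomogeneous 2) →
      P (aff R (Localization.Away (∑ j, X (Sum.inr j) * q j : MvPolynomial (Fin N ⊕ Fin m) R))) := by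
  refine forall_congr' fun N => forall_congr' fun q => forall_congr' fun hq => ?_
  have h1 := (repr_true (R := R) (σ := Fin N ⊕ Fin m)).opened' (∑ j, X (Sum.inr j) * q j) _
    (aeval_X_left_apply _)
  have : Algebra.FiniteType R (Localization.Away (∑ j, X (Sum.inr j) * q j :
      MvPolynomial (Fin N ⊕ Fin m) R)) :=
    Algebra.FiniteType.trans (S := MvPolynomial (Fin N ⊕ Fin m) R) inferInstance inferInstance
  rw [← pr_iff hP h1]
  have hF : ∀ (C : Type) [CommRing C] [Algebra R C] (v : Fin N ⊕ Fin m → C),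
      aeval v (∑ j, X (Sum.inr j) * q j) = ∑ l, v (Sum.inr l) * aeval v (q l) := by
    intro C _ _ v
    simp only [map_sum, map_mul, aeval_X]
  constructor
  · intro h
    refine (pr_true hP).opn hP _ (h.congr fun C _ _ v => ?_)
    rw [hF, true_and]
  · intro h
    refine ((pr_true hP).clo hP _ h).congr fun C _ _ v => ?_
    rw [hF, true_and]

end

section

variable {k : Type} [Field k] {P : Sch k → Prop} {sep : Prop} (hP : Bnd sep P)

include hP

/-- the double covering over the branch locus -/
lemma pr_branch {n : ℕ} (f : MvPolynomial (Fin n) k)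
    (h : Pr P (fun C _ _ v => aeval v f = 0 : Cond k (Fin n))) :
    Pr P (fun C _ _ v => v (Sum.inr ()) ^ 2 = aeval (fun s => v (Sum.inl s)) f ∧
      aeval v (rename Sum.inl f) = 0 : Cond k (Fin n ⊕ Unit)) := by
  have hr : Rp (fun C _ _ v => v (Sum.inr ()) ^ 2 = aeval (fun s => v (Sum.inl s)) f :
      Cond k (Fin n ⊕ Unit)) := ((rp_true k (Fin n)).sqrt f).congr fun C _ _ v => by
    rw [true_and]
  refine Pr.split hP (X (Sum.inr ())) (hr.cl _) ?_ ?_
  · refine h.push (Sum.elim X fun _ => 0) ?_ ?_ ?_
    · intro C _ _ v hv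
      rw [aeval_rename]
      simp only [Sum.elim_inl, Sum.elim_inr, aeval_X, map_zero, Function.comp_def]
      have hv' : aeval (fun s => v s) f = 0 := hv
      rw [hv']
      exact ⟨⟨zero_pow two_ne_zero, rfl⟩, trivial⟩
    · intro C _ _ v w _ _ h
      funext s
      simpa only [Sum.elim_inl, aeval_X] using h (Sum.inl s)
    · intro C _ _ v hv
      have h1 := hv.1.2
      have h2 := hv.2
      rw [aeval_rename] at h1
      rw [aeval_X] at h2
      refine ⟨fun s => v (Sum.inl s), h1, ?_⟩
      rintro (s | ⟨⟩)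
      · simp only [Sum.elim_inl, aeval_X]
      · simp only [Sum.elim_inr, map_zero]
        exact h2.symm
  · refine Pr.empty hP ((hr.cl _).op _) ?_
    intro C _ _ v hv
    have h1 := hv.1.2
    have h2 := hv.2
    have h3 := hv.1.1
    rw [aeval_rename] at h1
    rw [aeval_X] at h2
    have h4 := h2.pow 2
    rw [h3] at h4
    change IsUnit (aeval (v ∘ Sum.inl) f) at h4
    rw [h1, isUnit_zero_iff] at h4
    exact subsingleton_of_zero_eq_one h4

lemma pr_dcs {n : ℕ} (f : MvPolynomial (Fin n) k) :
    Pr P (Rt (fun C _ _ v => True ∧ IsUnit (aeval v f) : Cond k (Fin n)) f) ↔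
      P (aff k (Sq (Localization.Away f) (algebraMap _ (Localization.Away f) f))) := by
  have h1 := ((repr_true (R := k) (σ := Fin n)).opened' f f (aeval_X_left_apply f)).sqrt' f
    (algebraMap _ (Localization.Away f) f) (by
      have h := aeval_map (IsScalarTower.toAlgHom k (MvPolynomial (Fin n) k)
        (Localization.Away f)) X f
      rw [aeval_X_left_apply] at h
      exact h)
  have i1 : Algebra.FiniteType k (Localization.Away f) :=
    Algebra.FiniteType.trans (S := MvPolynomial (Fin n) k) inferInstance inferInstance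
  have := ft_sq (R := k) (algebraMap _ (Localization.Away f) f)
  exact pr_iff hP h1

/-- the étale double coverings of the complements of hypersurfaces -/
theorem dc_iff (hQ : Dbl P) (h2 : IsUnit (2 : k)) (n : ℕ) : DC P n ↔
    ∀ f : MvPolynomial (Fin n) k,
      P (aff k (Sq (Localization.Away f) (algebraMap _ (Localization.Away f) f))) := by
  have hr : ∀ f : MvPolynomial (Fin n) k, Rp (fun C _ _ v => v (Sum.inr ()) ^ 2 =
      aeval (fun s => v (Sum.inl s)) f : Cond k (Fin n ⊕ Unit)) := fun f =>
    ((rp_true k (Fin n)).sqrt f).congr fun C _ _ v => by rw [true_and]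
  have hsw : ∀ (f : MvPolynomial (Fin n) k) (C : Type) [CommRing C] [Algebra k C]
      (v : Fin n ⊕ Unit → C), (v (Sum.inr ()) ^ 2 = aeval (fun s => v (Sum.inl s)) f ∧
        IsUnit (aeval v (rename Sum.inl f))) ↔
      Rt (fun C _ _ v => True ∧ IsUnit (aeval v f) : Cond k (Fin n)) f C v := by
    intro f C _ _ v
    rw [aeval_rename]
    constructor
    · rintro ⟨h3, h4⟩
      exact ⟨⟨trivial, h4⟩, h3⟩
    · rintro ⟨⟨-, h4⟩, h3⟩
      exact ⟨h3, h4⟩
  constructor
  · intro h f
    rw [← pr_dcs hP]
    exact ((h f).opn hP (rename Sum.inl f) (pr_branch hP f (pr_hyper hP h2 h f))).congr (hsw f)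
  · intro h f
    have h0 : Pr P (fun C _ _ v => aeval v f = 0 : Cond k (Fin n)) := by
      have h3 : Pr P (fun C _ _ v => True ∧ IsUnit (aeval v f) : Cond k (Fin n)) := by
        refine Pr.double hP hQ.toDbl1 ((rp_true k (Fin n)).op f) 1 (fun C _ _ v _ => by
          rw [map_one]
          exact isUnit_one) ?_
        refine ((pr_dcs hP (f ^ 2)).mpr (h (f ^ 2))).pull hP (((rp_true k (Fin n)).op f).sqrt 1)
          (Sum.elim (fun s => X (Sum.inl s)) fun _ => X (Sum.inr ()) * rename Sum.inl f) ?_ ?_ ?_
        · intro C _ _ v hv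
          have h3 := hv.1.2
          have h4 := hv.2
          rw [map_one] at h4
          refine ⟨⟨trivial, ?_⟩, ?_⟩
          · simp only [Sum.elim_inl, aeval_X, map_pow]
            exact h3.pow 2
          · simp only [Sum.elim_inl, Sum.elim_inr, aeval_X, map_pow, map_mul, aeval_rename,
              Function.comp_def]
            rw [mul_pow, h4, one_mul]
        · intro C _ _ v w hv hw h
          have e0 : (fun s => v (Sum.inl s)) = fun s => w (Sum.inl s) := by
            funext s
            simpa only [Sum.elim_inl, aeval_X] using h (Sum.inl s)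
          have h3 := hv.1.2
          funext s
          rcases s with s | ⟨⟩
          · exact congrFun e0 s
          · have h4 := h (Sum.inr ())
            simp only [Sum.elim_inr, map_mul, aeval_X, aeval_rename, Function.comp_def] at h4
            rw [← e0] at h4
            exact h3.mul_right_cancel h4
        · intro C _ _ v hv
          have h3 := hv.1.2
          have h4 := hv.2
          rw [map_pow] at h3 h4
          have h5 : IsUnit (aeval (fun s => v (Sum.inl s)) f) := (isUnit_pow_iff two_ne_zero).mp h3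
          obtain ⟨y, hy⟩ := h5.exists_right_inv
          refine ⟨Sum.elim (fun s => v (Sum.inl s)) fun _ => v (Sum.inr ()) * y,
            ⟨⟨trivial, h5⟩, ?_⟩, ?_⟩
          · simp only [Sum.elim_inr, map_one]
            linear_combination y ^ 2 * h4 + (aeval (fun s => v (Sum.inl s)) f * y + 1) * hy
          · rintro (s | ⟨⟩)
            · simp only [Sum.elim_inl, aeval_X]
            · simp only [Sum.elim_inl, Sum.elim_inr, map_mul, aeval_X, aeval_rename,
                Function.comp_def]
              linear_combination v (Sum.inr ()) * hy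
      exact ((pr_true hP).clo hP f h3).congr fun C _ _ v => by rw [true_and]
    refine Pr.split hP (rename Sum.inl f) (hr f) (pr_branch hP f h0) ?_
    exact ((pr_dcs hP f).mpr (h f)).congr fun C _ _ v => (hsw f C v).symm

/-- The equivalences. -/
theorem tfae_main [PerfectField k] (hQ : Dbl P) (h2 : IsUnit (2 : k)) (n : ℕ) :
    List.TFAE [DC P n, QFam P n, HY P (n + 1), CU P (n + 1)] := by
  have h12 : ∀ m, DC P m → QFam P m := by
    intro m h N Q hQ2
    refine (quad_all hP (kaff_class hP hQ h2 h) h2 (Ψ := fun _ _ _ _ => True)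
      ⟨Empty, Empty.elim, 1, fun C _ _ v => ?_⟩ Q hQ2).congr ?_
    · rw [map_one]
      exact ⟨fun _ => ⟨fun j => j.elim, isUnit_one⟩, fun _ => trivial⟩
    · intro C _ _ v
      rw [true_and]
  have h1a : DC P n → ∀ i < n + 1, QFam P i := fun h i hi => h12 i (dc_mono hP (by omega) h)
  tfae_have 1 → 2 := h12 n
  tfae_have 1 → 3 := fun h => hy_of hP (h1a h)
  tfae_have 3 → 1 := fun h => dc_of_hy hP h.hyh
  tfae_have 1 → 4 := fun h => cu_of hP (h1a h)
  tfae_have 4 → 1 := fun h => dc_of_hy hP (hyh_of_cu hP h)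
  tfae_have 2 → 1 := by
    intro h f
    have h1 := h 1 (X 0 ^ 2 - MvPolynomial.C f) (by
      refine deg_sub ?_ ?_
      · rw [totalDegree_X_pow]
      · rw [totalDegree_C]
        exact Nat.zero_le _)
    refine h1.push (Sum.elim (fun s => X (Sum.inl s)) fun _ => X (Sum.inr 0)) ?_ ?_ ?_
    · intro C _ _ v hv
      rw [map_sub, map_pow, ev_X, ev_C, sub_eq_zero] at hv
      simp only [Sum.elim_inl, Sum.elim_inr, aeval_X]
      exact hv
    · intro C _ _ v w _ _ h
      funext s
      rcases s with s | s
      · simpa only [Sum.elim_inl, aeval_X] using h (Sum.inl s)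
      · rw [Subsingleton.elim s 0]
        simpa only [Sum.elim_inr, aeval_X] using h (Sum.inr ())
    · intro C _ _ v hv
      refine ⟨Sum.elim (fun s => v (Sum.inl s)) fun _ => v (Sum.inr ()), ?_, ?_⟩
      · rw [map_sub, map_pow, ev_X, ev_C, sub_eq_zero]
        exact hv
      · rintro (s | ⟨⟩)
        · simp only [Sum.elim_inl, aeval_X]
        · simp only [Sum.elim_inr, aeval_X]
  tfae_finish

/-- all schemes of dimension at most `n` -/
theorem dc_of_dim {n : ℕ} (h : DimLe P n) : DC P n := by
  intro f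
  have h1 := (repr_true (R := k) (σ := Fin n)).sqrt' f f (aeval_X_left_apply f)
  have h3 := h1.congr (Φ' := (fun C _ _ v => v (Sum.inr ()) ^ 2 =
    aeval (fun s => v (Sum.inl s)) f : Cond k (Fin n ⊕ Unit))) fun C _ _ v => by
      simp only [Rt, true_and]
  have := ft_sq (R := k) f
  rw [pr_iff hP h3]
  refine h _ ((dim_sq f).trans ?_)
  rw [MvPolynomial.ringKrullDim_of_isNoetherianRing, ringKrullDim_eq_zero_of_field, zero_add,
    Nat.card_eq_fintype_card, Fintype.card_fin]

omit hP in
/-- an algebra of finite type represents a condition -/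
lemma exists_repr (B : Type) [CommRing B] [Algebra k B] [Algebra.FiniteType k B] :
    ∃ (m : ℕ) (x : Fin m → B) (Ψ : Cond k (Fin m)), Repr B x Ψ ∧
      Function.Surjective (aeval x : MvPolynomial (Fin m) k →ₐ[k] B) := by
  obtain ⟨m, φ, hφ⟩ := Algebra.FiniteType.iff_quotient_mvPolynomial''.mp
    (inferInstance : Algebra.FiniteType k B)
  let x : Fin m → B := fun i => φ (X i)
  have hx : ∀ p, aeval x p = φ p := by
    intro p
    have h0 := aeval_map φ X p
    rw [aeval_X_left_apply] at h0
    exact h0
  let Ψ : Cond k (Fin m) := fun C _ _ v => ∀ p : MvPolynomial (Fin m) k, φ p = 0 → aeval v p = 0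
  refine ⟨m, x, Ψ, ?_, fun b => ?_⟩
  · exact
    { map := fun C _ _ f p hp => by
        rw [aeval_map, hx, hp, map_zero]
      lift := fun C _ _ v hv => by
        let e := Ideal.quotientKerAlgEquivOfSurjective hφ
        refine ⟨(Ideal.Quotient.liftₐ (RingHom.ker φ) (aeval v) fun p hp => hv p hp).comp
          (e.symm : B →ₐ[k] _), fun s => ?_⟩
        have h1 : e.symm (x s) = Ideal.Quotient.mk _ (X s) := by
          rw [AlgEquiv.symm_apply_eq]
          rfl
        change Ideal.Quotient.liftₐ (RingHom.ker φ) (aeval v) (fun p hp => hv p hp)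
          (e.symm (x s)) = _
        rw [h1]
        exact aeval_X _ _
      uniq := fun C _ _ f g hfg => by
        have h1 : f.comp φ = g.comp φ := by
          apply MvPolynomial.algHom_ext
          intro s
          exact hfg s
        apply AlgHom.ext
        intro b
        obtain ⟨p, rfl⟩ := hφ b
        exact congrArg (fun f : MvPolynomial (Fin m) k →ₐ[k] C => f p) h1 }
  · obtain ⟨p, rfl⟩ := hφ b
    exact ⟨p, hx p⟩

omit hP in
/-- lift of polynomials along a surjection -/
lemma exists_lift {m : ℕ} {B : Type} [CommRing B] [Algebra k B] {x : Fin m → B}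
    (hx : Function.Surjective (aeval x : MvPolynomial (Fin m) k →ₐ[k] B)) {N : ℕ}
    (Q : MvPolynomial (Fin N) B) (hQ2 : Q.totalDegree ≤ 2) :
    ∃ Q' : MvPolynomial (Fin N) (MvPolynomial (Fin m) k),
      map (aeval x : MvPolynomial (Fin m) k →ₐ[k] B).toRingHom Q' = Q ∧ Q'.totalDegree ≤ 2 := by
  classical
  choose s hs using hx
  refine ⟨∑ d ∈ Q.support, monomial d (s (Q.coeff d)), ?_, ?_⟩
  · rw [map_sum]
    have h1 : ∀ d ∈ Q.support, map (aeval x : MvPolynomial (Fin m) k →ₐ[k] B).toRingHom
        (monomial d (s (Q.coeff d))) = monomial d (Q.coeff d) := by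
      intro d _
      rw [map_monomial]
      congr 1
      exact hs _
    rw [Finset.sum_congr rfl h1]
    exact support_sum_monomial_coeff Q
  · refine totalDegree_finsetSum_le fun d hd => ?_
    refine (totalDegree_monomial_le _ _).trans ?_
    exact (le_totalDegree hd).trans hQ2

/-- families of quadrics over bases of dimension at most `n` -/
theorem fam_of_dim (hQ : Dbl1 P) (h2 : IsUnit (2 : k)) {n : ℕ} (h : DimLe P n) (B : Type)
    [CommRing B] [Algebra k B] [Algebra.FiniteType k B] (hB : ringKrullDim B ≤ n) (N : ℕ)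
    (Q : MvPolynomial (Fin N) B) (hQ2 : Q.totalDegree ≤ 2) :
    P (aff k (MvPolynomial (Fin N) B ⧸ Ideal.span {Q})) := by
  obtain ⟨m, x, Ψ, hR, hx⟩ := exists_repr (k := k) B
  obtain ⟨Q', hQ', hdeg⟩ := exists_lift hx Q hQ2
  have h1 := quad_all hP (kdim_class hP hQ h2 (β := Fin m) h) h2 (Ψ := Ψ)
    ⟨B, inferInstance, inferInstance, inferInstance, x, hR, hB⟩ Q' hdeg
  have : Algebra.FiniteType k (MvPolynomial (Fin N) B) :=
    Algebra.FiniteType.trans (S := B) inferInstance inferInstance
  exact (pr_iff hP (hR.fam Q' Q hQ')).mp h1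

end

end Pool.Agent.L5helper70.QF
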