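import Pool.Agent.L5helper70.QF.Concl

/-!
# Intersections of quadrics over a base
-/

set_option autoImplicit false
set_option linter.unusedVariables false

open CategoryTheory AlgebraicGeometry MvPolynomial Pool.Agent.Y116.UV Pool.Agent.Z125.UN

namespace Pool.Agent.L5helper70.QF

section

variable {R : Type} [CommRing R] {β : Type}

/-- the families of quadrics over the product of a base and an affine space -/
def FO (P : Sch R → Prop) (Ψ : Cond R β) (i : ℕ) : Prop :=
  ∀ (N : ℕ) (Q : MvPolynomial (Fin N) (MvPolynomial (β ⊕ Fin i) R)), Q.totalDegree ≤ 2 →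
    Pr P (fun C _ _ v => Ψ C (fun b => v (Sum.inl (Sum.inl b))) ∧
      ev (fun b => v (Sum.inl b)) (fun j => v (Sum.inr j)) Q = 0 : Cond R ((β ⊕ Fin i) ⊕ Fin N))

/-- the hypersurfaces `∑ y_j q_j(x) = 1` over a base -/
def HO (Ψ : Cond R β) {m N : ℕ} (q : Fin m → MvPolynomial (Fin N) (MvPolynomial β R)) :
    Cond R ((β ⊕ Fin N) ⊕ Fin m) :=
  fun C _ _ v => Ψ C (fun b => v (Sum.inl (Sum.inl b))) ∧
    ∑ l, ev (fun b => v (Sum.inl (Sum.inl b))) (fun s => v (Sum.inl (Sum.inr s))) (q l) *
      v (Sum.inr l) = 1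

/-- a family over the product of the base and an affine space -/
noncomputable def ext {N m : ℕ} (p : MvPolynomial (Fin N) (MvPolynomial β R)) :
    MvPolynomial (Fin N) (MvPolynomial (β ⊕ Fin m) R) :=
  map (rename Sum.inl : MvPolynomial β R →ₐ[R] MvPolynomial (β ⊕ Fin m) R).toRingHom p

lemma ev_ext {N m : ℕ} (p : MvPolynomial (Fin N) (MvPolynomial β R)) {C : Type} [CommRing C]
    [Algebra R C] (z : β ⊕ Fin m → C) (x : Fin N → C) :
    ev z x (ext p) = ev (fun b => z (Sum.inl b)) x p := by
  have h : (ev (R := R) z x).comp (map (rename Sum.inl : MvPolynomial β R →ₐ[R]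
      MvPolynomial (β ⊕ Fin m) R).toRingHom) = ev (R := R) (fun b => z (Sum.inl b)) x := by
    apply MvPolynomial.ringHom_ext
    · intro r
      rw [RingHom.comp_apply, map_C, ev_C, ev_C]
      exact aeval_rename _ _ _
    · intro t
      rw [RingHom.comp_apply, map_X, ev_X, ev_X]
  exact congrArg (fun f : MvPolynomial (Fin N) (MvPolynomial β R) →+* C => f p) h

/-- the pencil over a base -/
noncomputable def penc {N m : ℕ} (q : Fin (m + 1) → MvPolynomial (Fin N) (MvPolynomial β R)) :
    MvPolynomial (Fin N) (MvPolynomial (β ⊕ Fin m) R) :=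
  ext (q 0) + ∑ j : Fin m, MvPolynomial.C (X (Sum.inr j)) * ext (q j.succ)

lemma ev_penc {N m : ℕ} (q : Fin (m + 1) → MvPolynomial (Fin N) (MvPolynomial β R)) {C : Type}
    [CommRing C] [Algebra R C] (z : β ⊕ Fin m → C) (x : Fin N → C) :
    ev z x (penc q) = ev (fun b => z (Sum.inl b)) x (q 0) +
      ∑ j : Fin m, z (Sum.inr j) * ev (fun b => z (Sum.inl b)) x (q j.succ) := by
  rw [penc, map_add, ev_ext, map_sum]
  congr 1
  apply Finset.sum_congr rfl
  intro j _
  rw [map_mul, ev_C, aeval_X, ev_ext]

lemma deg_ext {N m : ℕ} (p : MvPolynomial (Fin N) (MvPolynomial β R)) {d : ℕ}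
    (h : p.totalDegree ≤ d) : (ext (m := m) p).totalDegree ≤ d :=
  (Finset.sup_mono (support_map_subset _ _)).trans h

lemma deg_penc {N m : ℕ} (q : Fin (m + 1) → MvPolynomial (Fin N) (MvPolynomial β R))
    (hq : ∀ j, (q j).totalDegree ≤ 2) : (penc q).totalDegree ≤ 2 := by
  refine deg_add (deg_ext _ (hq 0)) ?_
  refine totalDegree_finsetSum_le ?_
  intro j _
  exact deg_C_mul _ (deg_ext _ (hq _))

lemma rp_ho {Ψ : Cond R β} (h : Rp Ψ) {m N : ℕ}
    (q : Fin m → MvPolynomial (Fin N) (MvPolynomial β R)) : Rp (HO Ψ q) := by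
  refine (((h.free (Fin N)).free (Fin m)).cl (∑ l, rename Sum.inl (gp Sum.inl Sum.inr (q l)) *
    X (Sum.inr l) - 1)).congr ?_
  intro C _ _ v
  simp only [HO, map_sub, map_sum, map_mul, map_one, aeval_X, aeval_rename, aeval_gp,
    Function.comp_apply, sub_eq_zero]

end

section

variable {R : Type} [CommRing R] {P : Sch R → Prop} {sep : Prop} (hP : Bnd sep P) {β : Type}
  {Ψ : Cond R β}

include hP

theorem ho_of (hΨ : Pr P Ψ) : ∀ {m : ℕ}, (∀ i < m, FO P Ψ i) →
    ∀ (N : ℕ) (q : Fin m → MvPolynomial (Fin N) (MvPolynomial β R)),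
      (∀ j, (q j).totalDegree ≤ 2) → Pr P (HO Ψ q)
  | 0, _, N, q, _ => by
    refine Pr.empty hP (rp_ho hΨ.rp q) ?_
    intro C _ _ v hv
    have hv := hv.2
    rw [Finset.univ_eq_empty, Finset.sum_empty] at hv
    exact subsingleton_of_zero_eq_one hv
  | m + 1, h, N, q, hq => by
    have ih := ho_of hΨ (m := m) fun i hi => h i (by omega)
    refine Pr.split hP (X (Sum.inr 0)) (rp_ho hΨ.rp q) ?_ ?_
    · refine (ih N (fun j => q j.succ) fun j => hq _).push (Sum.elim (fun s => X (Sum.inl s))
        (Fin.cons 0 fun j => X (Sum.inr j))) ?_ ?_ ?_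
      · intro C _ _ v hv
        rw [HO, Fin.sum_univ_succ]
        simp only [Sum.elim_inl, Sum.elim_inr, Fin.cons_zero, Fin.cons_succ, aeval_X, map_zero,
          mul_zero, zero_add]
        exact ⟨hv, trivial⟩
      · intro C _ _ v w _ _ h
        funext s
        rcases s with s | j
        · simpa only [Sum.elim_inl, aeval_X] using h (Sum.inl s)
        · simpa only [Sum.elim_inr, Fin.cons_succ, aeval_X] using h (Sum.inr j.succ)
      · intro C _ _ v hv
        have h0 := hv.2
        rw [aeval_X] at h0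
        have h1 := hv.1
        rw [HO, Fin.sum_univ_succ, h0, mul_zero, zero_add] at h1
        refine ⟨Sum.elim (fun s => v (Sum.inl s)) fun j => v (Sum.inr j.succ), h1, ?_⟩
        rintro (s | j)
        · simp only [Sum.elim_inl, aeval_X]
        · refine Fin.cases ?_ (fun j => ?_) j
          · simp only [Sum.elim_inr, Fin.cons_zero, map_zero]
            exact h0.symm
          · simp only [Sum.elim_inr, Fin.cons_succ, aeval_X]
    · -- the complement of the family of quadrics
      have h1 : Pr P (fun C _ _ v => Ψ C (fun b => v (Sum.inl (Sum.inl b))) ∧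
          IsUnit (aeval v (gp Sum.inl Sum.inr (penc q))) : Cond R ((β ⊕ Fin m) ⊕ Fin N)) := by
        refine ((hΨ.free hP (Fin m)).free hP (Fin N)).opn hP (gp Sum.inl Sum.inr (penc q)) ?_
        refine (h m (by omega) N (penc q) (deg_penc q hq)).congr ?_
        intro C _ _ v
        rw [aeval_gp]
      -- `y_0 Q(y', x) = 1`
      have h2 : Pr P (fun C _ _ v => Ψ C (fun b => v (Sum.inl (Sum.inl (Sum.inl b)))) ∧
          aeval v (X (Sum.inr ()) * rename Sum.inl (gp Sum.inl Sum.inr (penc q)) - 1 :
            MvPolynomial (((β ⊕ Fin m) ⊕ Fin N) ⊕ Unit) R) = 0 :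
              Cond R (((β ⊕ Fin m) ⊕ Fin N) ⊕ Unit)) := by
        refine h1.pull hP ((((hΨ.rp.free (Fin m)).free (Fin N)).free Unit).cl _)
          (fun s => X (Sum.inl s)) ?_ ?_ ?_
        · intro C _ _ v hv
          have h3 := hv.2
          rw [map_sub, map_mul, aeval_X, aeval_rename, map_one, sub_eq_zero] at h3
          refine ⟨?_, ?_⟩
          · simp only [aeval_X]
            exact hv.1
          · simp only [aeval_X]
            exact IsUnit.of_mul_eq_one_right _ h3
        · intro C _ _ v w hv hw h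
          have h3 := hv.2
          have h4 := hw.2
          rw [map_sub, map_mul, aeval_X, aeval_rename, map_one, sub_eq_zero] at h3 h4
          have e0 : v ∘ Sum.inl = w ∘ Sum.inl := by
            funext s
            have h5 := h s
            rw [aeval_X, aeval_X] at h5
            exact h5
          rw [← e0] at h4
          have h5 : IsUnit (aeval (v ∘ Sum.inl) (gp Sum.inl Sum.inr (penc q))) :=
            IsUnit.of_mul_eq_one_right _ h3
          funext s
          rcases s with s | ⟨⟩
          · exact congrFun e0 s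
          · exact h5.mul_right_cancel (h3.trans h4.symm)
        · intro C _ _ v hv
          obtain ⟨y, hy⟩ := hv.2.exists_left_inv
          refine ⟨Sum.elim v fun _ => y, ⟨hv.1, ?_⟩, ?_⟩
          · rw [map_sub, map_mul, aeval_X, aeval_rename, map_one, sub_eq_zero, Sum.elim_inr,
              Sum.elim_comp_inl]
            exact hy
          · intro s
            simp only [aeval_X, Sum.elim_inl]
      refine h2.push (Sum.elim (Sum.elim (fun b => X (Sum.inl (Sum.inl (Sum.inl b))))
        fun s => X (Sum.inl (Sum.inr s)))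
        (Fin.cons (X (Sum.inr ())) fun j => X (Sum.inr ()) * X (Sum.inl (Sum.inl (Sum.inr j)))))
          ?_ ?_ ?_
      · intro C _ _ v hv
        have h3 := hv.2
        rw [map_sub, map_mul, aeval_X, aeval_rename, map_one, sub_eq_zero, aeval_gp,
          ev_penc] at h3
        rw [HO, Fin.sum_univ_succ]
        simp only [Sum.elim_inl, Sum.elim_inr, Fin.cons_zero, Fin.cons_succ, aeval_X, map_mul]
        refine ⟨⟨hv.1, ?_⟩, IsUnit.of_mul_eq_one _ h3⟩
        rw [← h3, mul_add, Finset.mul_sum]
        congr 1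
        · exact mul_comm _ _
        · apply Finset.sum_congr rfl
          intro j _
          simp only [Function.comp_apply]
          ring
      · intro C _ _ v w hv hw h
        have h3 := hv.2
        rw [map_sub, map_mul, aeval_X, aeval_rename, map_one, sub_eq_zero] at h3
        have e0 : v (Sum.inr ()) = w (Sum.inr ()) := by
          simpa only [Sum.elim_inr, Fin.cons_zero, aeval_X] using h (Sum.inr 0)
        funext s
        rcases s with ((b | j) | s) | ⟨⟩
        · simpa only [Sum.elim_inl, aeval_X] using h (Sum.inl (Sum.inl b))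
        · have h4 := h (Sum.inr j.succ)
          simp only [Sum.elim_inr, Fin.cons_succ, map_mul, aeval_X] at h4
          rw [← e0] at h4
          exact (IsUnit.of_mul_eq_one _ h3).mul_left_cancel h4
        · simpa only [Sum.elim_inl, Sum.elim_inr, aeval_X] using h (Sum.inl (Sum.inr s))
        · exact e0
      · intro C _ _ v hv
        have hu := hv.2
        rw [aeval_X] at hu
        obtain ⟨y, hy⟩ := hu.exists_right_inv
        have h3 := hv.1.2
        rw [Fin.sum_univ_succ] at h3
        refine ⟨Sum.elim (Sum.elim (Sum.elim (fun b => v (Sum.inl (Sum.inl b)))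
          fun j => v (Sum.inr j.succ) * y) fun s => v (Sum.inl (Sum.inr s)))
          fun _ => v (Sum.inr 0), ⟨hv.1.1, ?_⟩, ?_⟩
        · rw [map_sub, map_mul, aeval_X, aeval_rename, map_one, sub_eq_zero, aeval_gp, ev_penc]
          simp only [Sum.elim_inr, Function.comp_apply, Sum.elim_inl]
          rw [← h3, mul_add, Finset.mul_sum]
          congr 1
          · exact mul_comm _ _
          · apply Finset.sum_congr rfl
            intro j _
            linear_combination v (Sum.inr j.succ) * ev (fun b => v (Sum.inl (Sum.inl b)))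
              (fun s => v (Sum.inl (Sum.inr s))) (q j.succ) * hy
        · rintro ((b | s) | j)
          · simp only [Sum.elim_inl, aeval_X]
          · simp only [Sum.elim_inl, Sum.elim_inr, aeval_X]
          · refine Fin.cases ?_ (fun j => ?_) j
            · simp only [Sum.elim_inr, Fin.cons_zero, aeval_X]
            · simp only [Sum.elim_inl, Sum.elim_inr, Fin.cons_succ, map_mul, aeval_X]
              linear_combination v (Sum.inr j.succ) * hy

end

section

variable {R : Type} [CommRing R] {σ : Type} {A : Type} [CommRing A] [Algebra R A] {x : σ → A}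
  {Φ : Cond R σ}

/-- several equations over a base -/
lemma Repr.hos (h : Repr A x Φ) {m N : ℕ} (q : Fin m → MvPolynomial (Fin N) (MvPolynomial σ R))
    (q' : Fin m → MvPolynomial (Fin N) A)
    (hQ : ∀ l, MvPolynomial.map (aeval x : MvPolynomial σ R →ₐ[R] A).toRingHom (q l) = q' l) :
    ∃ y, Repr (Jou q') y (HO Φ q) := by
  refine ⟨_, ((h.poly (Fin N)).jou' (fun l => gp Sum.inl Sum.inr (q l)) q' ?_).congr ?_⟩
  · intro l
    rw [aeval_gp, ← hQ]
    exact ev_C_map x (q l)
  · intro C _ _ v
    simp only [aeval_gp, HO]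

end

section

variable {k : Type} [Field k] {P : Sch k → Prop} {sep : Prop} (hP : Bnd sep P)

include hP

omit hP in
/-- the product of a base and an affine space -/
lemma kdim_free {β : Type} {d n i : ℕ} {Ψ : Cond k β} (h : KDim d Ψ) (hd : d + i ≤ n) :
    KDim n (fun C _ _ v => Ψ C fun b => v (Sum.inl b) : Cond k (β ⊕ Fin i)) := by
  obtain ⟨A, i1, i2, i3, x, h1, h2⟩ := h
  have h3 : IsNoetherianRing A := Algebra.FiniteType.isNoetherianRing k A
  have h4 : Algebra.FiniteType k (MvPolynomial (Fin i) A) :=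
    Algebra.FiniteType.trans (S := A) inferInstance inferInstance
  refine ⟨_, inferInstance, inferInstance, h4, _, h1.poly (Fin i), ?_⟩
  rw [MvPolynomial.ringKrullDim_of_isNoetherianRing, Nat.card_eq_fintype_card, Fintype.card_fin]
  refine (add_le_add_left h2 _).trans ?_
  exact_mod_cast hd

/-- intersections of quadrics over bases -/
theorem jou_of_dim (hQ : Dbl1 P) (h2 : IsUnit (2 : k)) {n : ℕ} (h : DimLe P n) (B : Type)
    [CommRing B] [Algebra k B] [Algebra.FiniteType k B] {d r : ℕ} (hB : ringKrullDim B ≤ d)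
    (hd : d + r ≤ n) (N : ℕ) (Q : Fin (r + 1) → MvPolynomial (Fin N) B)
    (hQ2 : ∀ j, (Q j).totalDegree ≤ 2) :
    P (aff k (Jou Q)) := by
  obtain ⟨m, x, Ψ, hR, hx⟩ := exists_repr (k := k) B
  choose Q' hQ' hdeg using fun j => exists_lift hx (Q j) (hQ2 j)
  have hK : KDim d Ψ := ⟨B, inferInstance, inferInstance, inferInstance, x, hR, hB⟩
  have hPr : Pr P Ψ := ⟨B, inferInstance, inferInstance, inferInstance, x, hR, h B
    (hB.trans (by exact_mod_cast (by omega : d ≤ n)))⟩
  have h1 := ho_of hP hPr (m := r + 1) (fun i hi N Q hQ3 =>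
    quad_all hP (kdim_class hP hQ h2 (β := Fin m ⊕ Fin i) h) h2
      (Ψ := fun C _ _ v => Ψ C fun b => v (Sum.inl b)) (kdim_free hK (by omega)) Q hQ3)
    N Q' hdeg
  obtain ⟨y, hy⟩ := hR.hos Q' Q hQ'
  have i1 : Algebra.FiniteType k (MvPolynomial (Fin N) B) :=
    Algebra.FiniteType.trans (S := B) inferInstance inferInstance
  have i2 := ft_jou (R := k) Q
  exact (pr_iff hP hy).mp h1

end

lemma dim_cases (a : WithBot ℕ∞) (r n : ℕ) (h : a + r ≤ n) :
    a = ⊥ ∨ ∃ d : ℕ, a = d ∧ d + r ≤ n := by
  induction a using WithBot.recBotCoe with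
  | bot => exact Or.inl rfl
  | coe a =>
    right
    induction a using ENat.recTopCoe with
    | top =>
      exfalso
      have h1 : ((⊤ : ℕ∞) : WithBot ℕ∞) + r = ((⊤ : ℕ∞) : WithBot ℕ∞) := rfl
      rw [h1] at h
      have h2 : (⊤ : ℕ∞) ≤ n := by exact_mod_cast h
      exact absurd h2 (by simp)
    | coe m =>
      exact ⟨m, rfl, by exact_mod_cast h⟩

end Pool.Agent.L5helper70.QF
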