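import Pool.Agent.L5helper70.QF.Tors

/-!
# From the hypersurfaces `∑ y_j q_j(x) = 1` to the double coverings
-/

set_option autoImplicit false
set_option linter.unusedVariables false

open CategoryTheory AlgebraicGeometry MvPolynomial Pool.Agent.Y116.UV Pool.Agent.Z125.UN

namespace Pool.Agent.L5helper70.QF

section mon

variable {n d : ℕ}

/-- monomials with exponents at most `d` -/
abbrev Mo (n d : ℕ) : Type := Fin n → Fin (d + 1)

/-- the value of a monomial -/
def mono {C : Type} [CommRing C] (z : Fin n → C) (m : Mo n d) : C := ∏ i, z i ^ (m i : ℕ)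

/-- pairs of a monomial and a variable, such that the product is among the monomials -/
abbrev Ed (n d : ℕ) : Type := {e : Mo n d × Fin n // (e.1 e.2 : ℕ) < d}

/-- the product of the monomial and the variable -/
def up (e : Ed n d) : Mo n d :=
  Function.update e.1.1 e.1.2 ⟨(e.1.1 e.1.2 : ℕ) + 1, Nat.succ_lt_succ e.2⟩

lemma mono_update {C : Type} [CommRing C] (z : Fin n → C) (m : Mo n d) (i : Fin n)
    (a : Fin (d + 1)) : mono z (Function.update m i a) * z i ^ (m i : ℕ) = mono z m * z i ^ (a : ℕ) := by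
  unfold mono
  rw [← Finset.mul_prod_erase _ _ (Finset.mem_univ i),
    ← Finset.mul_prod_erase Finset.univ (fun j => z j ^ (m j : ℕ)) (Finset.mem_univ i)]
  have h : ∏ j ∈ Finset.univ.erase i, z j ^ (Function.update m i a j : ℕ) =
      ∏ j ∈ Finset.univ.erase i, z j ^ (m j : ℕ) := by
    apply Finset.prod_congr rfl
    intro j hj
    rw [Function.update_of_ne (Finset.ne_of_mem_erase hj)]
  rw [h, Function.update_self]
  ring

lemma mono_up {C : Type} [CommRing C] (z : Fin n → C) (e : Ed n d) :
    mono z (up e) = z e.1.2 * mono z e.1.1 := by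
  unfold mono up
  rw [← Finset.mul_prod_erase _ _ (Finset.mem_univ e.1.2),
    ← Finset.mul_prod_erase Finset.univ (fun j => z j ^ (e.1.1 j : ℕ)) (Finset.mem_univ e.1.2)]
  have h : ∏ j ∈ Finset.univ.erase e.1.2, z j ^ (Function.update e.1.1 e.1.2
      ⟨(e.1.1 e.1.2 : ℕ) + 1, Nat.succ_lt_succ e.2⟩ j : ℕ) =
      ∏ j ∈ Finset.univ.erase e.1.2, z j ^ (e.1.1 j : ℕ) := by
    apply Finset.prod_congr rfl
    intro j hj
    rw [Function.update_of_ne (Finset.ne_of_mem_erase hj)]
  rw [h, Function.update_self]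
  simp only
  rw [pow_succ]
  ring

/-- solutions of the linear equations between the values of the monomials -/
lemma mono_sol {C : Type} [CommRing C] (z : Fin n → C) (z0 : C) (hz : IsUnit z0)
    (u : Mo n d → C) (h : ∀ e : Ed n d, z0 * u (up e) = z0 * z e.1.2 * u e.1.1) :
    ∀ m : Mo n d, u m = mono z m * u 0 := by
  have key : ∀ (s : ℕ) (m : Mo n d), ∑ i, (m i : ℕ) = s → u m = mono z m * u 0 := by
    intro s
    induction s with
    | zero =>
      intro m hm
      have h1 : m = 0 := by
        funext i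
        have h2 := Finset.sum_eq_zero_iff.mp hm i (Finset.mem_univ i)
        exact Fin.ext h2
      rw [h1, mono]
      simp
    | succ s ih =>
      intro m hm
      have h1 : ∃ i, (m i : ℕ) ≠ 0 := by
        by_contra hcon
        push Not at hcon
        rw [Finset.sum_eq_zero fun i _ => hcon i] at hm
        omega
      obtain ⟨i, hi⟩ := h1
      have hlt : (m i : ℕ) - 1 < d + 1 := by
        have := (m i).2
        omega
      let m' : Mo n d := Function.update m i ⟨(m i : ℕ) - 1, hlt⟩
      have hm'i : (m' i : ℕ) = (m i : ℕ) - 1 := by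
        change ((Function.update m i ⟨(m i : ℕ) - 1, hlt⟩ i : Fin (d + 1)) : ℕ) = _
        rw [Function.update_self]
      let e : Ed n d := ⟨(m', i), by
        change (m' i : ℕ) < d
        have := (m i).2
        omega⟩
      have hup : up e = m := by
        funext j
        by_cases hj : j = i
        · rw [hj]
          apply Fin.ext
          change ((Function.update m' i ⟨(m' i : ℕ) + 1, _⟩ i : Fin (d + 1)) : ℕ) = _
          rw [Function.update_self]
          change (m' i : ℕ) + 1 = _
          omega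
        · change Function.update m' i ⟨(m' i : ℕ) + 1, _⟩ j = _
          rw [Function.update_of_ne hj]
          change Function.update m i ⟨(m i : ℕ) - 1, hlt⟩ j = _
          rw [Function.update_of_ne hj]
      have hs : ∑ j, (m' j : ℕ) = s := by
        rw [← Finset.add_sum_erase _ _ (Finset.mem_univ i)] at hm ⊢
        have h2 : ∑ j ∈ Finset.univ.erase i, (m' j : ℕ) = ∑ j ∈ Finset.univ.erase i, (m j : ℕ) := by
          apply Finset.sum_congr rfl
          intro j hj
          change ((Function.update m i ⟨(m i : ℕ) - 1, hlt⟩ j : Fin (d + 1)) : ℕ) = _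
          rw [Function.update_of_ne (Finset.ne_of_mem_erase hj)]
        rw [h2, hm'i]
        omega
      have h2 := h e
      rw [hup] at h2
      have h3 := mono_up z e
      rw [hup] at h3
      refine hz.mul_left_cancel ?_
      rw [h2, h3]
      change z0 * z i * u m' = z0 * (z i * mono z m' * u 0)
      rw [ih m' hs]
      ring
  intro m
  exact key _ m rfl

variable {R : Type} [CommRing R]

/-- the coefficient of a monomial -/
noncomputable def cf (f : MvPolynomial (Fin n) R) (m : Mo n d) : R :=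
  f.coeff (Finsupp.equivFunOnFinite.symm fun i => (m i : ℕ))

lemma aeval_cf {C : Type} [CommRing C] [Algebra R C] (f : MvPolynomial (Fin n) R)
    (hf : f.totalDegree ≤ d) (z : Fin n → C) :
    aeval z f = ∑ m : Mo n d, algebraMap R C (cf f m) * mono z m := by
  classical
  let ι : Mo n d → (Fin n →₀ ℕ) := fun m => Finsupp.equivFunOnFinite.symm fun i => (m i : ℕ)
  have hι : Function.Injective ι := by
    intro m m' h
    funext i
    have h1 := congrArg (fun s : Fin n →₀ ℕ => s i) h
    exact Fin.ext h1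
  let F : (Fin n →₀ ℕ) → C := fun s => algebraMap R C (f.coeff s) * ∏ i, z i ^ s i
  have h1 : ∑ m : Mo n d, algebraMap R C (cf f m) * mono z m = ∑ s ∈ Finset.univ.image ι, F s := by
    rw [Finset.sum_image fun a _ b _ h => hι h]
    rfl
  rw [h1, aeval_def, eval₂_eq']
  refine Finset.sum_subset ?_ ?_
  · intro s hs
    rw [Finset.mem_image]
    have h2 : ∀ i, s i < d + 1 := by
      intro i
      have h3 : s i ≤ s.sum fun _ e => e := by
        by_cases h0 : s i = 0
        · rw [h0]
          exact Nat.zero_le _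
        · exact Finset.single_le_sum (f := fun i => s i) (fun _ _ => Nat.zero_le _)
            (Finsupp.mem_support_iff.mpr h0)
      have h4 := le_totalDegree hs
      omega
    refine ⟨fun i => ⟨s i, h2 i⟩, Finset.mem_univ _, ?_⟩
    ext i
    rfl
  · intro s _ hs
    change algebraMap R C (f.coeff s) * _ = 0
    rw [notMem_support_iff.mp hs, map_zero, zero_mul]

end mon

section

variable {R : Type} [CommRing R] {P : Sch R → Prop} {n d : ℕ}

/-- the hypersurfaces `∑ y_j q_j(x) = 1` with `m` quadratic forms have the property -/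
def HYh (P : Sch R → Prop) (m : ℕ) : Prop :=
  ∀ (N : ℕ) (q : Fin m → MvPolynomial (Fin N) R), (∀ j, (q j).IsHomogeneous 2) →
    Pr P (fun C _ _ v => ∑ l, aeval (fun s => v (Sum.inl s)) (q l) * v (Sum.inr l) = 1 :
      Cond R (Fin N ⊕ Fin m))

lemma HY.hyh {m : ℕ} (h : HY P m) : HYh P m := fun N q hq => h N q fun j => (hq j).totalDegree_le

lemma hy_fin {m : ℕ} (h : HYh P m) {τ : Type} [Finite τ] (q : Fin m → MvPolynomial τ R)
    (hq : ∀ j, (q j).IsHomogeneous 2) :
    Pr P (fun C _ _ v => ∑ l, aeval (fun s => v (Sum.inl s)) (q l) * v (Sum.inr l) = 1 :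
      Cond R (τ ⊕ Fin m)) := by
  have := Fintype.ofFinite τ
  let g := Fintype.equivFin τ
  have h1 := h (Fintype.card τ) (fun j => rename g (q j)) (fun j =>
    (hq j).rename_isHomogeneous)
  refine (h1.reindex (g.symm.sumCongr (Equiv.refl (Fin m)))).congr ?_
  intro C _ _ v
  simp only [aeval_rename, Function.comp_def, Equiv.sumCongr_apply, Sum.map_inl, Sum.map_inr,
    Equiv.symm_apply_apply, Equiv.refl_apply]

/-- the variables `x` and `u_m` -/
abbrev Va (n d : ℕ) : Type := Unit ⊕ Mo n d

/-- the equations between the monomials -/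
noncomputable def eqn (R : Type) [CommRing R] (e : Ed n d) :
    MvPolynomial (Va n d ⊕ Fin (n + 1)) R :=
  X (Sum.inr 0) * X (Sum.inl (Sum.inr (up e))) -
    X (Sum.inr e.1.2.succ) * X (Sum.inl (Sum.inr e.1.1))

lemma aeval_eqn {C : Type} [CommRing C] [Algebra R C] (e : Ed n d)
    (v : Va n d ⊕ Fin (n + 1) → C) : aeval v (eqn R e) = v (Sum.inr 0) * v (Sum.inl (Sum.inr (up e))) -
    v (Sum.inr e.1.2.succ) * v (Sum.inl (Sum.inr e.1.1)) := by
  simp only [eqn, map_sub, map_mul, aeval_X]

lemma hom_XX {τ : Type} (s t : τ) : (X s * X t : MvPolynomial τ R).IsHomogeneous 2 :=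
  (isHomogeneous_X R s).mul (isHomogeneous_X R t)

lemma hy_eqn (hY : HYh P (n + 1)) (h : MvPolynomial (Va n d) R) (hh : h.IsHomogeneous 2)
    {ι : Type} [Fintype ι] (ε : ι → Ed n d) :
    Pr P (fun C _ _ v => aeval (fun s => v (Sum.inl s)) (X (Sum.inr 0) * rename Sum.inl h :
        MvPolynomial (Va n d ⊕ Fin (n + 1)) R) +
      ∑ i, aeval (fun s => v (Sum.inl s)) (eqn R (ε i)) * v (Sum.inr i) = 1 :
        Cond R ((Va n d ⊕ Fin (n + 1)) ⊕ ι)) := by
  classical
  have h1 := hy_fin hY (τ := Va n d ⊕ ι) (Fin.cons (rename Sum.inl h +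
    ∑ i : ι, X (Sum.inr i) * X (Sum.inl (Sum.inr (up (ε i)))))
    (fun j => -∑ i : ι, if (ε i).1.2 = j then X (Sum.inr i) * X (Sum.inl (Sum.inr (ε i).1.1))
      else 0)) (by
    intro j
    refine Fin.cases ?_ (fun j => ?_) j
    · rw [Fin.cons_zero]
      refine hh.rename_isHomogeneous.add (IsHomogeneous.sum _ _ _ fun i _ => hom_XX _ _)
    · rw [Fin.cons_succ]
      refine (IsHomogeneous.sum _ _ _ fun i _ => ?_).neg
      split_ifs
      · exact hom_XX _ _
      · exact isHomogeneous_zero _ _ _)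
  let g : (Va n d ⊕ ι) ⊕ Fin (n + 1) ≃ (Va n d ⊕ Fin (n + 1)) ⊕ ι :=
    { toFun := Sum.elim (Sum.elim (fun s => Sum.inl (Sum.inl s)) fun i => Sum.inr i)
        fun j => Sum.inl (Sum.inr j)
      invFun := Sum.elim (Sum.elim (fun s => Sum.inl (Sum.inl s)) fun j => Sum.inr j)
        fun i => Sum.inl (Sum.inr i)
      left_inv := by rintro ((s | i) | j) <;> rfl
      right_inv := by rintro ((s | j) | i) <;> rfl }
  refine (h1.reindex g).congr ?_
  intro C _ _ v
  have g1 : ∀ s, g (Sum.inl (Sum.inl s)) = Sum.inl (Sum.inl s) := fun _ => rfl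
  have g2 : ∀ i, g (Sum.inl (Sum.inr i)) = Sum.inr i := fun _ => rfl
  have g3 : ∀ j, g (Sum.inr j) = Sum.inl (Sum.inr j) := fun _ => rfl
  rw [Fin.sum_univ_succ]
  simp only [Fin.cons_zero, Fin.cons_succ, map_add, map_sum, map_mul, map_neg, aeval_X,
    aeval_rename, Function.comp_def, g1, g2, g3, aeval_eqn]
  have h2 : ∀ (i : ι) (j : Fin n), aeval (fun s => v (g (Sum.inl s)))
      (if (ε i).1.2 = j then X (Sum.inr i) * X (Sum.inl (Sum.inr (ε i).1.1)) else 0 :
        MvPolynomial (Va n d ⊕ ι) R) = if (ε i).1.2 = j then v (Sum.inr i) *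
          v (Sum.inl (Sum.inl (Sum.inr (ε i).1.1))) else 0 := by
    intro i j
    split_ifs
    · rw [map_mul, aeval_X, aeval_X, g1, g2]
    · rw [map_zero]
  simp only [h2]
  have h3 : ∑ j : Fin n, -(∑ i : ι, if (ε i).1.2 = j then v (Sum.inr i) *
      v (Sum.inl (Sum.inl (Sum.inr (ε i).1.1))) else 0) * v (Sum.inl (Sum.inr j.succ)) =
      -∑ i : ι, v (Sum.inr i) * v (Sum.inl (Sum.inl (Sum.inr (ε i).1.1))) *
        v (Sum.inl (Sum.inr (ε i).1.2.succ)) := by
    simp only [neg_mul, Finset.sum_neg_distrib, Finset.sum_mul]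
    rw [Finset.sum_comm]
    congr 1
    apply Finset.sum_congr rfl
    intro i _
    simp only [ite_mul, zero_mul]
    rw [Finset.sum_ite_eq Finset.univ (ε i).1.2]
    rw [if_pos (Finset.mem_univ _)]
  rw [h3]
  have h4 : (aeval (fun x => v (Sum.inl (Sum.inl x))) h + ∑ i, v (Sum.inr i) *
      v (Sum.inl (Sum.inl (Sum.inr (up (ε i)))))) * v (Sum.inl (Sum.inr 0)) +
      -∑ i : ι, v (Sum.inr i) * v (Sum.inl (Sum.inl (Sum.inr (ε i).1.1))) *
        v (Sum.inl (Sum.inr (ε i).1.2.succ)) =
      v (Sum.inl (Sum.inr 0)) * aeval (fun x => v (Sum.inl (Sum.inl x))) h +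
      ∑ i, (v (Sum.inl (Sum.inr 0)) * v (Sum.inl (Sum.inl (Sum.inr (up (ε i))))) -
        v (Sum.inl (Sum.inr (ε i).1.2.succ)) * v (Sum.inl (Sum.inl (Sum.inr (ε i).1.1)))) *
          v (Sum.inr i) := by
    rw [add_mul, Finset.sum_mul, ← sub_eq_add_neg, add_sub_assoc, ← Finset.sum_sub_distrib]
    congr 1
    · ring
    · apply Finset.sum_congr rfl
      intro i _
      ring
  rw [h4]

end

end Pool.Agent.L5helper70.QF
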