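import Pool.Agent.L5helper70.QF.Linz

/-!
# From the hypersurfaces `∑ y_j q_j(x) = 1` to the double coverings: conclusion
-/

set_option autoImplicit false
set_option linter.unusedVariables false

open CategoryTheory AlgebraicGeometry MvPolynomial Pool.Agent.Y116.UV Pool.Agent.Z125.UN

namespace Pool.Agent.L5helper70.QF

variable {R : Type} [CommRing R] {P : Sch R → Prop} {sep : Prop} (hP : Bnd sep P)

include hP

section

variable {n : ℕ} (hY : HYh P (n + 1))

include hY

lemma pr_eqns {d : ℕ} (T : Finset (Ed n d)) :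
    Pr P (fun C _ _ v => ∀ e ∈ T, aeval v (eqn R e) = 0 : Cond R (Va n d ⊕ Fin (n + 1))) := by
  have h1 := hy_eqn hY (0 : MvPolynomial (Va n d) R) (isHomogeneous_zero _ _ _)
    (fun e : T => e.1)
  have h2 := (pr_true hP (σ := Va n d ⊕ Fin (n + 1))).unjou' hP (fun e : T => eqn R e.1)
    (h1.congr (by
      intro C _ _ v
      rw [map_zero, mul_zero, map_zero, zero_add, true_and]))
  refine h2.congr ?_
  intro C _ _ v
  rw [true_and]
  exact ⟨fun h e he => h ⟨e, he⟩, fun h e => h e.1 e.2⟩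

/-- the form `x ^ 2 - ∑ c_m u_m u_0` -/
noncomputable def qh {d : ℕ} (f : MvPolynomial (Fin n) R) : MvPolynomial (Va n d) R :=
  X (Sum.inl ()) * X (Sum.inl ()) - ∑ m : Mo n d, C (cf f m) * (X (Sum.inr m) * X (Sum.inr 0))

omit hP hY in
lemma hom_qh {d : ℕ} (f : MvPolynomial (Fin n) R) : (qh (d := d) f).IsHomogeneous 2 :=
  (hom_XX _ _).sub (IsHomogeneous.sum _ _ _ fun m _ => (hom_XX _ _).C_mul _)

omit hP hY in
lemma aeval_qh {d : ℕ} (f : MvPolynomial (Fin n) R) {C : Type} [CommRing C] [Algebra R C]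
    (v : Va n d → C) : aeval v (qh f) = v (Sum.inl ()) ^ 2 -
      ∑ m : Mo n d, algebraMap R C (cf f m) * (v (Sum.inr m) * v (Sum.inr 0)) := by
  simp only [qh, map_sub, map_sum, map_mul, aeval_X, algHom_C, pow_two]

/-- the linearized equations -/
lemma pr_sys {d : ℕ} (f : MvPolynomial (Fin n) R) :
    Pr P (fun C _ _ v => aeval v (X (Sum.inr 0) * rename Sum.inl (qh f) :
        MvPolynomial (Va n d ⊕ Fin (n + 1)) R) = 1 ∧ ∀ e, aeval v (eqn R e) = 0 :
      Cond R (Va n d ⊕ Fin (n + 1))) := by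
  classical
  exact tors hP _ (eqn R) (fun T => pr_eqns hP hY T) (hy_eqn hY (qh f) (hom_qh f) id)

/-- `z_0 (x ^ 2 - f(z) u ^ 2) = 1` -/
lemma pr_xi (f : MvPolynomial (Fin n) R) :
    Pr P (fun C _ _ v => v (Sum.inr ()) * (v (Sum.inl (Sum.inl (Sum.inr ()))) ^ 2 -
      aeval (fun i => v (Sum.inl (Sum.inl (Sum.inl i)))) f * v (Sum.inl (Sum.inr ())) ^ 2) = 1 :
        Cond R (((Fin n ⊕ Unit) ⊕ Unit) ⊕ Unit)) := by
  let d := f.totalDegree
  have h1 := pr_sys hP hY (d := d) f
  have hr : Rp (fun C _ _ v => v (Sum.inr ()) * (v (Sum.inl (Sum.inl (Sum.inr ()))) ^ 2 -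
      aeval (fun i => v (Sum.inl (Sum.inl (Sum.inl i)))) f * v (Sum.inl (Sum.inr ())) ^ 2) = 1 :
        Cond R (((Fin n ⊕ Unit) ⊕ Unit) ⊕ Unit)) := by
    refine ((rp_true R _).cl (X (Sum.inr ()) * (X (Sum.inl (Sum.inl (Sum.inr ()))) ^ 2 -
      rename (fun i => Sum.inl (Sum.inl (Sum.inl i))) f * X (Sum.inl (Sum.inr ())) ^ 2) - 1)).congr
        ?_
    intro C _ _ v
    simp only [map_sub, map_mul, map_pow, map_one, aeval_X, aeval_rename, Function.comp_def,
      sub_eq_zero, true_and]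
  have e0 : (0 : Mo n d) = (0 : Mo n d) := rfl
  refine h1.pull hP hr (Sum.elim (Sum.elim (fun _ => X (Sum.inl (Sum.inl (Sum.inr ()))))
    fun m => (∏ i, X (Sum.inl (Sum.inl (Sum.inl i))) ^ (m i : ℕ)) * X (Sum.inl (Sum.inr ())))
    (Fin.cons (X (Sum.inr ())) fun i => X (Sum.inr ()) * X (Sum.inl (Sum.inl (Sum.inl i)))))
      ?_ ?_ ?_
  · intro C _ _ v hv
    have hm : ∀ m : Mo n d, aeval v ((∏ i, X (Sum.inl (Sum.inl (Sum.inl i))) ^ (m i : ℕ)) *
        X (Sum.inl (Sum.inr ())) : MvPolynomial (((Fin n ⊕ Unit) ⊕ Unit) ⊕ Unit) R) =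
        mono (fun i => v (Sum.inl (Sum.inl (Sum.inl i)))) m * v (Sum.inl (Sum.inr ())) := by
      intro m
      rw [map_mul, map_prod, aeval_X]
      simp only [map_pow, aeval_X, mono]
    refine ⟨?_, fun e => ?_⟩
    · rw [map_mul, aeval_X, aeval_rename, aeval_qh]
      simp only [Function.comp_def, Sum.elim_inl, Sum.elim_inr, Fin.cons_zero, aeval_X, hm]
      have h0 : mono (fun i => v (Sum.inl (Sum.inl (Sum.inl i)))) (0 : Mo n d) = 1 := by
        simp [mono]
      rw [h0, one_mul]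
      have h2 := aeval_cf f le_rfl (fun i => v (Sum.inl (Sum.inl (Sum.inl i))))
      rw [h2, Finset.sum_mul] at hv
      rw [← hv]
      congr 2
      apply Finset.sum_congr rfl
      intro m _
      ring
    · rw [aeval_eqn]
      simp only [Sum.elim_inl, Sum.elim_inr, Fin.cons_zero, Fin.cons_succ, hm, mono_up, map_mul,
        aeval_X]
      ring
  · intro C _ _ v w hv hw h
    have hz0 : v (Sum.inr ()) = w (Sum.inr ()) := by
      simpa only [Sum.elim_inr, Fin.cons_zero, aeval_X] using h (Sum.inr 0)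
    have hu : IsUnit (v (Sum.inr ())) := IsUnit.of_mul_eq_one _ hv
    have hx : v (Sum.inl (Sum.inl (Sum.inr ()))) = w (Sum.inl (Sum.inl (Sum.inr ()))) := by
      simpa only [Sum.elim_inl, aeval_X] using h (Sum.inl (Sum.inl ()))
    have hu0 : v (Sum.inl (Sum.inr ())) = w (Sum.inl (Sum.inr ())) := by
      have h3 := h (Sum.inl (Sum.inr 0))
      simp only [Sum.elim_inl, Sum.elim_inr, aeval_X, Pi.zero_apply,
        Fin.val_zero, pow_zero, Finset.prod_const_one, one_mul] at h3
      exact h3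
    have hz : ∀ i, v (Sum.inl (Sum.inl (Sum.inl i))) = w (Sum.inl (Sum.inl (Sum.inl i))) := by
      intro i
      have h3 := h (Sum.inr i.succ)
      simp only [Sum.elim_inr, Fin.cons_succ, map_mul, aeval_X] at h3
      rw [← hz0] at h3
      exact hu.mul_left_cancel h3
    funext s
    rcases s with ((i | ⟨⟩) | ⟨⟩) | ⟨⟩
    · exact hz i
    · exact hx
    · exact hu0
    · exact hz0
  · intro C _ _ v hv
    have h2 := hv.1
    rw [map_mul, aeval_X, aeval_rename, aeval_qh] at h2
    have hu : IsUnit (v (Sum.inr 0)) := IsUnit.of_mul_eq_one _ h2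
    obtain ⟨y, hy⟩ := hu.exists_right_inv
    let z : Fin n → C := fun i => v (Sum.inr i.succ) * y
    have hz : ∀ i, v (Sum.inr 0) * z i = v (Sum.inr i.succ) := by
      intro i
      change v (Sum.inr 0) * (v (Sum.inr i.succ) * y) = _
      linear_combination v (Sum.inr i.succ) * hy
    have h3 := mono_sol z (v (Sum.inr 0)) hu (fun m => v (Sum.inl (Sum.inr m))) (by
      intro e
      have h4 := hv.2 e
      rw [aeval_eqn, sub_eq_zero] at h4
      rw [h4, hz])
    refine ⟨Sum.elim (Sum.elim (Sum.elim z fun _ => v (Sum.inl (Sum.inl ())))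
      fun _ => v (Sum.inl (Sum.inr 0))) fun _ => v (Sum.inr 0), ?_, ?_⟩
    · simp only [Sum.elim_inl, Sum.elim_inr]
      rw [← h2, aeval_cf f le_rfl z, Finset.sum_mul]
      congr 2
      apply Finset.sum_congr rfl
      intro m _
      simp only [Function.comp_apply]
      have h5 : v (Sum.inl (Sum.inr m)) = mono z m * v (Sum.inl (Sum.inr 0)) := h3 m
      rw [h5]
      ring
    · rintro ((⟨⟩ | m) | j)
      · simp only [Sum.elim_inl, Sum.elim_inr, aeval_X]
      · simp only [Sum.elim_inl, Sum.elim_inr, map_mul, map_prod, map_pow, aeval_X]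
        exact (h3 m).symm
      · refine Fin.cases ?_ (fun i => ?_) j
        · simp only [Sum.elim_inr, Fin.cons_zero, aeval_X]
        · simp only [Sum.elim_inl, Sum.elim_inr, Fin.cons_succ, map_mul, aeval_X]
          exact hz i

/-- The hypersurfaces `∑ y_j q_j(x) = 1` with `n + 1` quadratic forms decide the double coverings
`s ^ 2 = f(z_1, …, z_n)`. -/
theorem dc_of_hy : DC P n := by
  intro f
  have h1 := pr_xi hP hY f
  let g : MvPolynomial ((Fin n ⊕ Unit) ⊕ Unit) R := X (Sum.inl (Sum.inr ())) ^ 2 -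
    rename (fun i => Sum.inl (Sum.inl i)) f * X (Sum.inr ()) ^ 2
  have hg : ∀ (C : Type) [CommRing C] [Algebra R C] (v : (Fin n ⊕ Unit) ⊕ Unit → C),
      aeval v g = v (Sum.inl (Sum.inr ())) ^ 2 -
        aeval (fun i => v (Sum.inl (Sum.inl i))) f * v (Sum.inr ()) ^ 2 := by
    intro C _ _ v
    simp only [g, map_sub, map_mul, map_pow, aeval_X, aeval_rename, Function.comp_def]
  have h2 : Pr P (fun C _ _ v => True ∧ IsUnit (aeval v g) : Cond R ((Fin n ⊕ Unit) ⊕ Unit)) := by
    refine h1.push (fun s => X (Sum.inl s)) ?_ ?_ ?_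
    · intro C _ _ v hv
      simp only [aeval_X]
      refine ⟨trivial, ?_⟩
      rw [hg]
      exact IsUnit.of_mul_eq_one_right _ hv
    · intro C _ _ v w hv hw h
      have e0 : (fun s => v (Sum.inl s)) = fun s => w (Sum.inl s) := by
        funext s
        simpa only [aeval_X] using h s
      have e1 : ∀ s, w (Sum.inl s) = v (Sum.inl s) := fun s => (congrFun e0 s).symm
      simp only [e1] at hw
      funext s
      rcases s with s | ⟨⟩
      · exact congrFun e0 s
      · exact (IsUnit.of_mul_eq_one_right _ hv).mul_right_cancel (hv.trans hw.symm)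
    · intro C _ _ v hv
      obtain ⟨y, hy⟩ := hv.2.exists_left_inv
      rw [hg] at hy
      refine ⟨Sum.elim v fun _ => y, hy, fun s => ?_⟩
      rw [aeval_X, Sum.elim_inl]
  have h3 := (pr_true hP (σ := (Fin n ⊕ Unit) ⊕ Unit)).clo hP g h2
  have hr3 := h3.rp
  have h4 : Pr P (fun C _ _ v => (True ∧ aeval v g = 0) ∧ IsUnit (aeval v (X (Sum.inr ()) :
      MvPolynomial ((Fin n ⊕ Unit) ⊕ Unit) R)) : Cond R ((Fin n ⊕ Unit) ⊕ Unit)) := by
    refine h3.opn hP (X (Sum.inr ())) ?_
    refine Pr.split hP (X (Sum.inl (Sum.inr ()))) (hr3.cl _) ?_ ?_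
    · refine (pr_true hP (σ := Fin n)).push (Sum.elim (Sum.elim X fun _ => 0) fun _ => 0) ?_ ?_ ?_
      · intro C _ _ v _
        rw [hg]
        simp only [Sum.elim_inl, Sum.elim_inr, aeval_X, map_zero, ne_eq, OfNat.ofNat_ne_zero,
          not_false_eq_true, zero_pow, mul_zero, sub_zero]
        exact ⟨⟨⟨trivial, trivial⟩, trivial⟩, trivial⟩
      · intro C _ _ v w _ _ h
        funext s
        simpa only [Sum.elim_inl, aeval_X] using h (Sum.inl (Sum.inl s))
      · intro C _ _ v hv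
        have h5 := hv.2
        have h6 := hv.1.2
        rw [aeval_X] at h5 h6
        refine ⟨fun i => v (Sum.inl (Sum.inl i)), trivial, ?_⟩
        rintro ((i | ⟨⟩) | ⟨⟩)
        · simp only [Sum.elim_inl, aeval_X]
        · simp only [Sum.elim_inl, Sum.elim_inr, map_zero]
          exact h5.symm
        · simp only [Sum.elim_inr, map_zero]
          exact h6.symm
    · refine Pr.empty hP ((hr3.cl _).op _) ?_
      intro C _ _ v hv
      have h5 := hv.2
      have h6 := hv.1.2
      have h7 := hv.1.1.2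
      rw [hg] at h7
      rw [aeval_X] at h5 h6
      rw [h6, zero_pow two_ne_zero, mul_zero, sub_zero] at h7
      have h8 := h5.pow 2
      rw [h7, isUnit_zero_iff] at h8
      exact subsingleton_of_zero_eq_one h8
  have hrd : Rp (fun C _ _ v => v (Sum.inr ()) ^ 2 = aeval (fun s => v (Sum.inl s)) f :
      Cond R (Fin n ⊕ Unit)) := ((rp_true R (Fin n)).sqrt f).congr fun C _ _ v => by
    rw [true_and]
  refine Pr.torus hP hrd ?_
  have hrt : Rp (fun C _ _ v => v (Sum.inl (Sum.inr ())) ^ 2 =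
      aeval (fun s => v (Sum.inl (Sum.inl s))) f ∧ IsUnit (v (Sum.inr ())) :
        Cond R ((Fin n ⊕ Unit) ⊕ Unit)) := by
    refine ((hrd.free Unit).op (X (Sum.inr ()))).congr ?_
    intro C _ _ v
    rw [aeval_X]
  refine h4.pull hP hrt (Sum.elim (Sum.elim (fun i => X (Sum.inl (Sum.inl i)))
    fun _ => X (Sum.inl (Sum.inr ())) * X (Sum.inr ())) fun _ => X (Sum.inr ())) ?_ ?_ ?_
  · intro C _ _ v hv
    rw [hg, aeval_X]
    simp only [Sum.elim_inl, Sum.elim_inr, aeval_X, map_mul]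
    refine ⟨⟨trivial, ?_⟩, hv.2⟩
    rw [← hv.1]
    ring
  · intro C _ _ v w hv hw h
    have e2 : v (Sum.inr ()) = w (Sum.inr ()) := by
      simpa only [Sum.elim_inr, aeval_X] using h (Sum.inr ())
    funext s
    rcases s with (i | ⟨⟩) | ⟨⟩
    · simpa only [Sum.elim_inl, aeval_X] using h (Sum.inl (Sum.inl i))
    · have h5 := h (Sum.inl (Sum.inr ()))
      simp only [Sum.elim_inl, Sum.elim_inr, map_mul, aeval_X] at h5
      rw [← e2] at h5
      exact hv.2.mul_right_cancel h5
    · exact e2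
  · intro C _ _ v hv
    have hu := hv.2
    rw [aeval_X] at hu
    obtain ⟨y, hy⟩ := hu.exists_right_inv
    have h5 := hv.1.2
    rw [hg] at h5
    refine ⟨Sum.elim (Sum.elim (fun i => v (Sum.inl (Sum.inl i)))
      fun _ => v (Sum.inl (Sum.inr ())) * y) fun _ => v (Sum.inr ()), ⟨?_, ?_⟩, ?_⟩
    · simp only [Sum.elim_inl, Sum.elim_inr]
      linear_combination y ^ 2 * h5 + aeval (fun i => v (Sum.inl (Sum.inl i))) f *
        (v (Sum.inr ()) * y + 1) * hy
    · simp only [Sum.elim_inr]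
      exact hu
    · rintro ((i | ⟨⟩) | ⟨⟩)
      · simp only [Sum.elim_inl, aeval_X]
      · simp only [Sum.elim_inl, Sum.elim_inr, map_mul, aeval_X]
        linear_combination v (Sum.inl (Sum.inr ())) * hy
      · simp only [Sum.elim_inr, aeval_X]

end

end Pool.Agent.L5helper70.QF
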