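import Pool.Agent.L5helper70.QF.Fam

/-!
# Classes of bases over a perfect field
-/

set_option autoImplicit false
set_option linter.unusedVariables false

open CategoryTheory AlgebraicGeometry MvPolynomial Pool.Agent.Y116.UV Pool.Agent.Z125.UN

namespace Pool.Agent.L5helper70.QF

section dim

variable {k : Type} [Field k]

lemma dim_sq {A : Type} [CommRing A] [IsNoetherianRing A] (u : A) :
    ringKrullDim (Sq A u) ≤ ringKrullDim A := by
  have h0 : (Polynomial.X ^ 2 - Polynomial.C u : Polynomial A).Monic :=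
    Polynomial.monic_X_pow_sub_C u two_ne_zero
  have h1 := ringKrullDim_quotient_succ_le_of_nonZeroDivisor h0.mem_nonZeroDivisors
  rw [Polynomial.ringKrullDim_of_isNoetherianRing] at h1
  exact ENat.WithBot.add_le_add_one_right_iff.mp h1

end dim

section

variable {k : Type} [Field k] {P : Sch k → Prop} {sep : Prop} (hP : Bnd sep P)

/-- the schemes of dimension at most `n` have the property -/
def DimLe (P : Sch k → Prop) (n : ℕ) : Prop :=
  ∀ (A : Type) [CommRing A] [Algebra k A] [Algebra.FiniteType k A], ringKrullDim A ≤ n →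
    P (aff k A)

/-- the schemes of dimension less than `n` have the property -/
def DimLt (P : Sch k → Prop) (n : ℕ) : Prop :=
  ∀ (A : Type) [CommRing A] [Algebra k A] [Algebra.FiniteType k A], ringKrullDim A < n →
    P (aff k A)

/-- the bases of dimension at most `n` -/
def KDim {β : Type} (n : ℕ) (Ψ : Cond k β) : Prop :=
  ∃ (A : Type) (_ : CommRing A) (_ : Algebra k A) (_ : Algebra.FiniteType k A) (x : β → A),
    Repr A x Ψ ∧ ringKrullDim A ≤ n

lemma kdim_class (hP : Bnd sep P) (hQ : Dbl1 P) (hu : IsUnit (2 : k)) {β : Type} {n : ℕ}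
    (h : DimLe P n) : BaseClass P (KDim (k := k) (β := β) n) := by
  have hsq : SqClass P (fun {γ : Type} (Θ : Cond k γ) (U : Set (MvPolynomial γ k)) =>
      KDim n Θ ∧ (∀ p ∈ U, UnitOn Θ p) ∧ ∀ p ∈ U, ∀ q ∈ U, -(p * q) ∈ U) :=
    { unit := fun h p hp => h.2.1 p hp
      mul := fun h => h.2.2
      base := by
        rintro γ Θ U ⟨⟨A, i1, i2, i3, x, h1, h2⟩, -⟩
        exact ⟨A, i1, i2, i3, x, h1, h A h2⟩
      root := by
        rintro γ Θ U ⟨⟨A, i1, i2, i3, x, h1, h2⟩, h3, h4⟩ u hu
        have h5 : IsNoetherianRing A := Algebra.FiniteType.isNoetherianRing k A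
        have h6 := ft_sq (R := k) (aeval x u)
        refine ⟨⟨_, inferInstance, inferInstance, h6, _, h1.sqrt u, (dim_sq _).trans h2⟩, ?_, ?_⟩
        · rintro _ ⟨p, hp, rfl⟩ C _ _ v hv
          rw [aeval_rename]
          exact h3 p hp C _ hv.1
        · rintro _ ⟨p, hp, rfl⟩ _ ⟨q, hq, rfl⟩
          exact ⟨-(p * q), h4 p hp q hq, by rw [map_neg, map_mul]⟩ }
  have hcl : ∀ {Ψ : Cond k β}, KDim n Ψ → ∀ {κ : Type} (e : κ → MvPolynomial β k),
      KDim n (fun C _ _ v => Ψ C v ∧ ∀ k, aeval v (e k) = 0 : Cond k β) := by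
    rintro Ψ ⟨A, i1, i2, i3, x, h1, h2⟩ κ e
    exact ⟨_, inferInstance, inferInstance, inferInstance, _, h1.closed e,
      (ringKrullDim_quotient_le _).trans h2⟩
  have hop : ∀ {Ψ : Cond k β}, KDim n Ψ → ∀ (e : MvPolynomial β k),
      KDim n (fun C _ _ v => Ψ C v ∧ IsUnit (aeval v e) : Cond k β) := by
    rintro Ψ ⟨A, i1, i2, i3, x, h1, h2⟩ e
    have : Algebra.FiniteType k (Localization.Away (aeval x e)) :=
      Algebra.FiniteType.trans (S := A) inferInstance inferInstance
    exact ⟨_, inferInstance, inferInstance, inferInstance, _, h1.opened e, (dim_away _).trans h2⟩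
  have hcg : ∀ {Ψ Ψ' : Cond k β}, KDim n Ψ → (∀ (C : Type) [CommRing C] [Algebra k C] (v : β → C),
      Ψ C v ↔ Ψ' C v) → KDim n Ψ' := by
    rintro Ψ Ψ' ⟨A, i1, i2, i3, x, h1, h2⟩ hi
    exact ⟨A, i1, i2, i3, x, h1.congr hi, h2⟩
  have hrp : ∀ {Ψ : Cond k β}, KDim n Ψ → Rp Ψ := by
    rintro Ψ ⟨A, i1, i2, i3, x, h1, -⟩
    exact ⟨A, i1, i2, i3, x, h1⟩
  refine ⟨hrp, hcg, hcl, hop, ?_⟩
  intro Ψ hΨ r a ha c
  have hU : ∀ (Θ : Cond k β), (∀ p ∈ {p | UnitOn Θ p}, UnitOn Θ p) ∧
      ∀ p ∈ {p | UnitOn Θ p}, ∀ q ∈ {p | UnitOn Θ p}, -(p * q) ∈ {p | UnitOn Θ p} := by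
    intro Θ
    refine ⟨fun p hp => hp, fun p hp q hq C _ _ v hv => ?_⟩
    rw [map_neg, map_mul]
    exact ((hp C v hv).mul (hq C v hv)).neg
  have h0 : KDim n (fun C _ _ v => Ψ C v ∧ aeval v c = 0 : Cond k β) :=
    hcg (hcl hΨ fun _ : Unit => c) fun C _ _ v =>
      and_congr_right fun _ => ⟨fun h => h (), fun h _ => h⟩
  refine dg_split hP (hrp hΨ) a c ?_ ?_
  · exact dg_all hP hQ hu hsq ⟨h0, hU _⟩ a (fun i C _ _ v hv => ha i C v hv.1) c
      (Or.inl fun C _ _ v hv => hv.2)
  · exact dg_all hP hQ hu hsq ⟨hop hΨ c, hU _⟩ a (fun i C _ _ v hv => ha i C v hv.1) c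
      (Or.inr fun C _ _ v hv => hv.2)

/-- the locally closed subschemes of the affine space -/
def KAff {β : Type} (Ψ : Cond k β) : Prop :=
  ∃ (κ : Type) (G : κ → MvPolynomial β k) (w : MvPolynomial β k),
    ∀ (C : Type) [CommRing C] [Algebra k C] (v : β → C),
      Ψ C v ↔ (∀ k, aeval v (G k) = 0) ∧ IsUnit (aeval v w)

lemma rp_sol {β : Type} [Finite β] {κ : Type} (G : κ → MvPolynomial β k) (w : MvPolynomial β k) :
    Rp (fun C _ _ v => (∀ k, aeval v (G k) = 0) ∧ IsUnit (aeval v w) : Cond k β) := by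
  refine (((rp_true k β).cls G).op w).congr ?_
  intro C _ _ v
  rw [true_and]

include hP

lemma dimLt_of_closed [PerfectField k] {n : ℕ}
    (h : ∀ I : Ideal (MvPolynomial (Fin n) k), P (aff k (MvPolynomial (Fin n) k ⧸ I))) :
    DimLt P n := by
  intro A _ _ _ hA
  cases n with
  | zero =>
    have h1 : Subsingleton A := by
      by_contra hcon
      rw [not_subsingleton_iff_nontrivial] at hcon
      have h2 := ringKrullDim_nonneg_of_nontrivial (R := A)
      exact absurd (lt_of_le_of_lt h2 hA) (lt_irrefl _)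
    exact p_empty hP A h1
  | succ m =>
    have h1 : ringKrullDim A ≤ m := by
      have h3 : ((m + 1 : ℕ) : WithBot ℕ∞) = (m : WithBot ℕ∞) + 1 := by push_cast; rfl
      rw [h3] at hA
      exact ENat.WithBot.lt_add_one_iff.mp hA
    exact closed_to_dim hP h A h1

/-- from hypersurfaces to intersections of hypersurfaces -/
lemma pr_inter {β : Type} {Φ : Cond k β}
    (h : ∀ f : MvPolynomial β k, Pr P (fun C _ _ v => Φ C v ∧ aeval v f = 0 : Cond k β))
    (g f : MvPolynomial β k) :
    Pr P (fun C _ _ v => (Φ C v ∧ aeval v g = 0) ∧ aeval v f = 0 : Cond k β) := by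
  refine (h g).clo hP f ?_
  have h1 := (h (g * f)).opn hP f ((h f).congr (by
    intro C _ _ v
    constructor
    · rintro ⟨h2, h3⟩
      refine ⟨⟨h2, ?_⟩, h3⟩
      rw [map_mul, h3, mul_zero]
    · rintro ⟨⟨h2, -⟩, h3⟩
      exact ⟨h2, h3⟩))
  refine h1.congr ?_
  intro C _ _ v
  constructor
  · rintro ⟨⟨h2, h3⟩, h4⟩
    rw [map_mul] at h3
    exact ⟨⟨h2, h4.mul_left_eq_zero.mp h3⟩, h4⟩
  · rintro ⟨⟨h2, h3⟩, h4⟩
    refine ⟨⟨h2, ?_⟩, h4⟩
    rw [map_mul, h3, zero_mul]

lemma pr_inters {β : Type} {κ : Type} (G : κ → MvPolynomial β k)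
    (h : ∀ f : MvPolynomial β k, Pr P (fun C _ _ v => aeval v f = 0 : Cond k β)) (T : Finset κ) :
    ∀ f : MvPolynomial β k, Pr P (fun C _ _ v => (∀ j ∈ T, aeval v (G j) = 0) ∧ aeval v f = 0 :
      Cond k β) := by
  classical
  induction T using Finset.induction_on with
  | empty =>
    intro f
    refine (h f).congr ?_
    intro C _ _ v
    exact ⟨fun h => ⟨fun j hj => absurd hj (Finset.notMem_empty j), h⟩, fun h => h.2⟩
  | insert j0 T hj0 ih =>
    intro f
    refine (pr_inter hP ih (G j0) f).congr ?_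
    intro C _ _ v
    refine and_congr_left fun _ => ?_
    rw [Finset.forall_mem_insert]
    exact and_comm

/-- hypersurfaces -/
lemma pr_hyper (h2 : IsUnit (2 : k)) {n : ℕ} (h : DC P n) (f : MvPolynomial (Fin n) k) :
    Pr P (fun C _ _ v => aeval v f = 0 : Cond k (Fin n)) := by
    have h3 : Pr P (fun C _ _ v => True ∧ IsUnit (aeval v f) : Cond k (Fin n)) := by
      have h4 := (h (f ^ 2)).opn hP (X (Sum.inr ()) - rename Sum.inl f) (by
        refine (pr_true hP (σ := Fin n)).push (Sum.elim X fun _ => f) ?_ ?_ ?_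
        · intro C _ _ v _
          rw [map_sub, aeval_X, aeval_rename, sub_eq_zero]
          simp only [Sum.elim_inl, Sum.elim_inr, aeval_X, map_pow, Function.comp_def]
          exact ⟨trivial, trivial⟩
        · intro C _ _ v w _ _ h
          funext s
          simpa only [Sum.elim_inl, aeval_X] using h (Sum.inl s)
        · intro C _ _ v hv
          refine ⟨fun s => v (Sum.inl s), trivial, ?_⟩
          have h5 := hv.2
          rw [map_sub, aeval_X, aeval_rename, sub_eq_zero] at h5
          rintro (s | ⟨⟩)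
          · simp only [Sum.elim_inl, aeval_X]
          · rw [h5]
            rfl)
      refine h4.pull hP ((rp_true k (Fin n)).op f) (Sum.elim X fun _ => -f) ?_ ?_ ?_
      · intro C _ _ v hv
        rw [map_sub, aeval_X, aeval_rename]
        simp only [Sum.elim_inl, Sum.elim_inr, aeval_X, map_neg, map_pow, Function.comp_def]
        refine ⟨neg_sq _, ?_⟩
        have h5 := h2.map (algebraMap k C)
        rw [map_ofNat] at h5
        have h6 : -aeval (fun x => v x) f - aeval (fun x => v x) f = -(2 * aeval v f) := by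
          ring
        rw [h6]
        exact (h5.mul hv.2).neg
      · intro C _ _ v w _ _ h
        funext s
        simpa only [Sum.elim_inl, aeval_X] using h (Sum.inl s)
      · intro C _ _ v hv
        have h5 := hv.1
        have h6 := hv.2
        rw [map_sub, aeval_X, aeval_rename] at h6
        rw [map_pow] at h5
        have h7 : v (Sum.inr ()) = -aeval (fun s => v (Sum.inl s)) f := by
          have h8 : (v (Sum.inr ()) - aeval (v ∘ Sum.inl) f) *
              (v (Sum.inr ()) + aeval (v ∘ Sum.inl) f) = 0 := by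
            have h9 : v (Sum.inr ()) ^ 2 = aeval (v ∘ Sum.inl) f ^ 2 := h5
            linear_combination h9
          have h9 := h6.mul_right_eq_zero.mp h8
          exact eq_neg_of_add_eq_zero_left h9
        refine ⟨fun s => v (Sum.inl s), ⟨trivial, ?_⟩, ?_⟩
        · have h8 : v (Sum.inr ()) - aeval (v ∘ Sum.inl) f =
              -2 * aeval (fun s => v (Sum.inl s)) f := by
            rw [h7]
            change -aeval (fun s => v (Sum.inl s)) f - aeval (fun s => v (Sum.inl s)) f = _
            ring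
          rw [h8] at h6
          exact isUnit_of_mul_isUnit_right h6
        · rintro (s | ⟨⟩)
          · simp only [Sum.elim_inl, aeval_X]
          · rw [h7, Sum.elim_inr, map_neg]
    exact ((pr_true hP).clo hP f h3).congr fun C _ _ v => by rw [true_and]

/-- The double coverings of the affine space of dimension `n` decide all schemes of dimension less
than `n`. -/
theorem dimLt_of_dc [PerfectField k] (h2 : IsUnit (2 : k)) {n : ℕ} (h : DC P n) : DimLt P n := by
  have h1 := pr_hyper hP h2 h
  refine dimLt_of_closed hP fun I => ?_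
  obtain ⟨T, hT⟩ := (isNoetherianRing_iff_ideal_fg _).mp
    (inferInstance : IsNoetherianRing (MvPolynomial (Fin n) k)) I
  have h3 := pr_inters hP (fun j : MvPolynomial (Fin n) k => j) h1 T 0
  have h4 : Repr (MvPolynomial (Fin n) k ⧸ Ideal.span (Set.range fun j : T =>
        aeval (X : Fin n → MvPolynomial (Fin n) k) (j.1)))
      (fun s => Ideal.Quotient.mk _ (X s)) (fun C _ _ v => (∀ j ∈ T, aeval v j = 0) ∧
        aeval v (0 : MvPolynomial (Fin n) k) = 0 : Cond k (Fin n)) :=
    (repr_true.closed (fun j : T => j.1)).congr (by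
      intro C _ _ v
      rw [map_zero]
      constructor
      · rintro ⟨-, h⟩
        exact ⟨fun j hj => h ⟨j, hj⟩, rfl⟩
      · rintro ⟨h, -⟩
        exact ⟨trivial, fun j => h j.1 j.2⟩)
  rw [pr_iff hP h4] at h3
  have h5 : Ideal.span (Set.range fun j : T => aeval (X : Fin n → MvPolynomial (Fin n) k) j.1) =
      I := by
    rw [← hT]
    congr 1
    ext p
    constructor
    · rintro ⟨j, rfl⟩
      change aeval X j.1 ∈ _
      rw [aeval_X_left_apply]
      exact j.2
    · intro hp
      exact ⟨⟨p, hp⟩, aeval_X_left_apply p⟩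
  rw [h5] at h3
  exact h3

omit hP in
/-- the square roots over proper closed subschemes of the affine space -/
lemma rt_proper {n : ℕ} (hl : DimLt P n) {κ : Type} (G : κ → MvPolynomial (Fin n) k)
    (w : MvPolynomial (Fin n) k) (hG : ∃ j, G j ≠ 0) (u : MvPolynomial (Fin n) k) :
    Pr P (Rt (fun C _ _ v => (∀ k, aeval v (G k) = 0) ∧ IsUnit (aeval v w) : Cond k (Fin n)) u) := by
  have h1 := repr_true (R := k) (σ := Fin n)
  have h3 := ((h1.closed G).opened w).sqrt u
  have h4 : ringKrullDim (MvPolynomial (Fin n) k ⧸ Ideal.span (Set.range fun j =>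
      aeval (X : Fin n → MvPolynomial (Fin n) k) (G j))) < n := by
    have h5 : Ideal.span (Set.range fun j => aeval (X : Fin n → MvPolynomial (Fin n) k) (G j)) ≠
        ⊥ := by
      obtain ⟨j, hj⟩ := hG
      intro h
      apply hj
      have h6 : aeval X (G j) ∈ Ideal.span (Set.range fun j =>
          aeval (X : Fin n → MvPolynomial (Fin n) k) (G j)) := Ideal.subset_span ⟨j, rfl⟩
      rw [h, aeval_X_left_apply] at h6
      exact h6
    cases n with
    | zero =>
      have h7 : Ideal.span (Set.range fun j => aeval (X : Fin 0 → MvPolynomial (Fin 0) k) (G j)) =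
          ⊤ := by
        obtain ⟨f, hf, hf0⟩ := Submodule.exists_mem_ne_zero_of_ne_bot h5
        refine Ideal.eq_top_of_isUnit_mem _ hf ?_
        rw [eq_C_of_isEmpty f]
        refine IsUnit.map _ (isUnit_iff_ne_zero.mpr fun h => hf0 ?_)
        rw [eq_C_of_isEmpty f, h, map_zero]
      rw [h7]
      have h8 : Subsingleton (MvPolynomial (Fin 0) k ⧸ (⊤ : Ideal (MvPolynomial (Fin 0) k))) :=
        Ideal.Quotient.subsingleton_iff.mpr rfl
      rw [ringKrullDim_eq_bot_of_subsingleton]
      exact WithBot.bot_lt_coe _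
    | succ m =>
      have h7 := dim_quot _ h5
      have h8 : ((m + 1 : ℕ) : WithBot ℕ∞) = (m : WithBot ℕ∞) + 1 := by push_cast; rfl
      rw [h8]
      exact ENat.WithBot.lt_add_one_iff.mpr h7
  have i1 : Algebra.FiniteType k (Localization.Away (aeval (fun s => Ideal.Quotient.mk
      (Ideal.span (Set.range fun j => aeval (X : Fin n → MvPolynomial (Fin n) k) (G j)))
        (X s)) w)) :=
    Algebra.FiniteType.trans (S := MvPolynomial (Fin n) k ⧸ Ideal.span (Set.range fun j =>
      aeval (X : Fin n → MvPolynomial (Fin n) k) (G j))) inferInstance inferInstance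
  have i2 := Algebra.FiniteType.isNoetherianRing k (Localization.Away (aeval (fun s =>
    Ideal.Quotient.mk (Ideal.span (Set.range fun j => aeval (X : Fin n → MvPolynomial (Fin n) k)
      (G j))) (X s)) w))
  have i3 := ft_sq (R := k) (aeval (fun s => algebraMap _ (Localization.Away (aeval (fun s =>
    Ideal.Quotient.mk (Ideal.span (Set.range fun j => aeval (X : Fin n → MvPolynomial (Fin n) k)
      (G j))) (X s)) w)) (Ideal.Quotient.mk (Ideal.span (Set.range fun j =>
        aeval (X : Fin n → MvPolynomial (Fin n) k) (G j))) (X s))) u)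
  refine ⟨_, inferInstance, inferInstance, i3, _, h3.congr ?_, hl _ ?_⟩
  · intro C _ _ v
    simp only [Rt, true_and]
  · exact lt_of_le_of_lt ((dim_sq _).trans (dim_away _)) h4

/-- The class of the locally closed subschemes of the affine space of dimension `n`. -/
theorem kaff_class [PerfectField k] (hQ : Dbl P) (h2 : IsUnit (2 : k)) {n : ℕ} (h : DC P n) :
    BaseClass P (KAff (k := k) (β := Fin n)) := by
  refine baseClass_of_root hP hQ h2 ?_ ?_ ?_ ?_ ?_
  · rintro Ψ ⟨κ, G, w, hw⟩
    exact (rp_sol G w).congr fun C _ _ v => (hw C v).symm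
  · rintro Ψ Ψ' ⟨κ, G, w, hw⟩ hi
    exact ⟨κ, G, w, fun C _ _ v => (hi C v).symm.trans (hw C v)⟩
  · rintro Ψ ⟨κ, G, w, hw⟩ κ' e
    refine ⟨κ ⊕ κ', Sum.elim G e, w, fun C _ _ v => ?_⟩
    dsimp only
    rw [hw, Sum.forall]
    simp only [Sum.elim_inl, Sum.elim_inr]
    constructor
    · rintro ⟨⟨h3, h4⟩, h5⟩
      exact ⟨⟨h3, h5⟩, h4⟩
    · rintro ⟨⟨h3, h5⟩, h4⟩
      exact ⟨⟨h3, h4⟩, h5⟩
  · rintro Ψ ⟨κ, G, w, hw⟩ e
    refine ⟨κ, G, w * e, fun C _ _ v => ?_⟩
    dsimp only
    rw [hw, map_mul, IsUnit.mul_iff, and_assoc]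
  · rintro Ψ ⟨κ, G, w, hw⟩ u _
    have hl := dimLt_of_dc hP h2 h
    have h3 : Pr P (Rt (fun C _ _ v => (∀ k, aeval v (G k) = 0) ∧ IsUnit (aeval v w) :
        Cond k (Fin n)) u) := by
      by_cases hG : ∃ j, G j ≠ 0
      · exact rt_proper hl G w hG u
      · push Not at hG
        have h4 : Pr P (fun C _ _ v => v (Sum.inr ()) ^ 2 = aeval (fun s => v (Sum.inl s)) u ∧
            aeval v (rename Sum.inl w) = 0 : Cond k (Fin n ⊕ Unit)) := by
          by_cases hw0 : w = 0
          · refine (h u).congr ?_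
            intro C _ _ v
            rw [hw0, map_zero, map_zero]
            exact ⟨fun h => ⟨h, rfl⟩, fun h => h.1⟩
          · refine (rt_proper hl (fun _ : Unit => w) 1 ⟨(), hw0⟩ u).congr ?_
            intro C _ _ v
            rw [aeval_rename]
            simp only [Rt, map_one, isUnit_one, and_true, forall_const]
            exact and_comm
        refine ((h u).opn hP (rename Sum.inl w) h4).congr ?_
        intro C _ _ v
        rw [aeval_rename]
        simp only [Rt, hG, map_zero, implies_true, true_and]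
        exact and_comm
    refine h3.congr ?_
    intro C _ _ v
    exact and_congr_left fun _ => (hw C _).symm

end

end Pool.Agent.L5helper70.QF
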