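import Pool.Agent.L5helper70.QF.Back

/-!
# Cubic hypersurfaces that contain a linear subspace of codimension `n + 1`
-/

set_option autoImplicit false
set_option linter.unusedVariables false

open CategoryTheory AlgebraicGeometry MvPolynomial Pool.Agent.Y116.UV Pool.Agent.Z125.UN

namespace Pool.Agent.L5helper70.QF

variable {R : Type} [CommRing R] {P : Sch R → Prop} {sep : Prop}

/-- values of homogeneous polynomials -/
lemma hom_smul {σ : Type} {q : MvPolynomial σ R} {n : ℕ} (hq : q.IsHomogeneous n) {C : Type}
    [CommRing C] [Algebra R C] (t : C) (v : σ → C) :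
    aeval (fun s => t * v s) q = t ^ n * aeval v q := by
  rw [aeval_def, aeval_def, eval₂_eq, eval₂_eq, Finset.mul_sum]
  apply Finset.sum_congr rfl
  intro d hd
  have h1 : ∑ i ∈ d.support, d i = n := by
    have h2 := hq (mem_support_iff.mp hd)
    rw [Finsupp.weight_apply, Finsupp.sum] at h2
    simpa using h2
  have h3 : ∏ i ∈ d.support, (t * v i) ^ d i = t ^ n * ∏ i ∈ d.support, v i ^ d i := by
    rw [← h1, ← Finset.prod_pow_eq_pow_sum, ← Finset.prod_mul_distrib]
    apply Finset.prod_congr rfl
    intro i _
    rw [mul_pow]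
  rw [h3]
  ring

/-- the cones over the cubic hypersurfaces `∑ y_j q_j(x, y) = 0` in projective space, which contain the
linear subspace `y = 0` of codimension `m`, have the property -/
def CU (P : Sch R → Prop) (m : ℕ) : Prop :=
  ∀ (N : ℕ) (q : Fin m → MvPolynomial (Fin N ⊕ Fin m) R), (∀ j, (q j).IsHomogeneous 2) →
    Pr P (fun C _ _ v => ∑ l, v (Sum.inr l) * aeval v (q l) = 0 : Cond R (Fin N ⊕ Fin m))

/-- the polynomial `q(x, (1, y))` -/
noncomputable def deh {N m : ℕ} (q : MvPolynomial (Fin N ⊕ Fin (m + 1)) R) :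
    MvPolynomial (Fin N) (MvPolynomial (Fin m) R) :=
  aeval (Sum.elim X (Fin.cons 1 fun j => MvPolynomial.C (X j))) q

lemma ev_deh {N m : ℕ} (q : MvPolynomial (Fin N ⊕ Fin (m + 1)) R) {C : Type} [CommRing C]
    [Algebra R C] (z : Fin m → C) (x : Fin N → C) :
    ev z x (deh q) = aeval (Sum.elim x (Fin.cons 1 z) : Fin N ⊕ Fin (m + 1) → C) q := by
  have h : (ev (R := R) z x).comp (aeval (Sum.elim X (Fin.cons 1 fun j => MvPolynomial.C (X j)) :
      Fin N ⊕ Fin (m + 1) → MvPolynomial (Fin N) (MvPolynomial (Fin m) R)) :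
        MvPolynomial (Fin N ⊕ Fin (m + 1)) R →ₐ[R] _).toRingHom =
      (aeval (Sum.elim x (Fin.cons 1 z) : Fin N ⊕ Fin (m + 1) → C) :
        MvPolynomial (Fin N ⊕ Fin (m + 1)) R →ₐ[R] C).toRingHom := by
    apply MvPolynomial.ringHom_ext
    · intro r
      change ev z x (aeval _ (MvPolynomial.C r)) = aeval _ (MvPolynomial.C r)
      rw [algHom_C, algHom_C, IsScalarTower.algebraMap_apply R (MvPolynomial (Fin m) R)]
      change ev z x (MvPolynomial.C _) = _
      rw [ev_C, AlgHom.commutes]
    · rintro (i | j)
      · change ev z x (aeval _ (X (Sum.inl i))) = aeval _ (X (Sum.inl i))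
        rw [aeval_X, aeval_X, Sum.elim_inl, Sum.elim_inl, ev_X]
      · change ev z x (aeval _ (X (Sum.inr j))) = aeval _ (X (Sum.inr j))
        rw [aeval_X, aeval_X, Sum.elim_inr, Sum.elim_inr]
        refine Fin.cases ?_ (fun j => ?_) j
        · rw [Fin.cons_zero, Fin.cons_zero, map_one]
        · rw [Fin.cons_succ, Fin.cons_succ, ev_C, aeval_X]
  exact congrArg (fun f : MvPolynomial (Fin N ⊕ Fin (m + 1)) R →+* C => f q) h

lemma deg_aeval {σ τ B : Type} [CommRing B] [Algebra R B] (g : σ → MvPolynomial τ B)
    (hg : ∀ s, (g s).totalDegree ≤ 1) (q : MvPolynomial σ R) {d : ℕ} (hq : q.totalDegree ≤ d) :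
    (aeval g q).totalDegree ≤ d := by
  rw [aeval_def, eval₂_eq]
  refine totalDegree_finsetSum_le fun m hm => ?_
  have h1 : (∏ i ∈ m.support, g i ^ m i).totalDegree ≤ d := by
    refine (totalDegree_finsetProd _ _).trans ?_
    refine (Finset.sum_le_sum fun i _ => (totalDegree_pow _ _).trans
      (Nat.mul_le_mul_left _ (hg i))).trans ?_
    simp only [mul_one]
    exact (le_totalDegree hm).trans hq
  exact deg_C_mul (algebraMap R B (q.coeff m)) h1

lemma deg_deh {N m : ℕ} (q : MvPolynomial (Fin N ⊕ Fin (m + 1)) R) {d : ℕ}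
    (hq : q.totalDegree ≤ d) : (deh q).totalDegree ≤ d := by
  refine deg_aeval _ ?_ q hq
  rintro (i | j)
  · rw [Sum.elim_inl]
    refine (totalDegree_monomial_le _ _).trans ?_
    rw [Finsupp.sum_single_index rfl]
    rfl
  · rw [Sum.elim_inr]
    refine Fin.cases ?_ (fun j => ?_) j
    · rw [Fin.cons_zero, totalDegree_one]
      exact Nat.zero_le _
    · rw [Fin.cons_succ, totalDegree_C]
      exact Nat.zero_le _

/-- the quadratic polynomial `∑ y_j q_j(x, y)` for `y = (1, y')` -/
noncomputable def cubQ {N m : ℕ} (q : Fin (m + 1) → MvPolynomial (Fin N ⊕ Fin (m + 1)) R) :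
    MvPolynomial (Fin N) (MvPolynomial (Fin m) R) :=
  ∑ j, MvPolynomial.C ((Fin.cons 1 fun j => X j : Fin (m + 1) → MvPolynomial (Fin m) R) j) *
    deh (q j)

lemma ev_cubQ {N m : ℕ} (q : Fin (m + 1) → MvPolynomial (Fin N ⊕ Fin (m + 1)) R) {C : Type}
    [CommRing C] [Algebra R C] (z : Fin m → C) (x : Fin N → C) :
    ev z x (cubQ q) = ∑ j, (Fin.cons 1 z : Fin (m + 1) → C) j *
      aeval (Sum.elim x (Fin.cons 1 z) : Fin N ⊕ Fin (m + 1) → C) (q j) := by
  rw [cubQ, map_sum]
  apply Finset.sum_congr rfl
  intro j _
  rw [map_mul, ev_C, ev_deh]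
  congr 1
  refine Fin.cases ?_ (fun j => ?_) j
  · rw [Fin.cons_zero, Fin.cons_zero, map_one]
  · rw [Fin.cons_succ, Fin.cons_succ, aeval_X]

section

variable (hP : Bnd sep P)

include hP

theorem cu_of : ∀ {m : ℕ}, (∀ i < m, QFam P i) → CU P m
  | 0, _, N, q, _ => by
    refine (pr_true hP (σ := Fin N ⊕ Fin 0)).congr ?_
    intro C _ _ v
    rw [Finset.univ_eq_empty, Finset.sum_empty]
    exact ⟨fun _ => rfl, fun _ => trivial⟩
  | m + 1, h, N, q, hq => by
    have ih := cu_of (m := m) fun i hi => h i (by omega)
    have hr : Rp (fun C _ _ v => ∑ l, v (Sum.inr l) * aeval v (q l) = 0 :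
        Cond R (Fin N ⊕ Fin (m + 1))) := by
      refine ((rp_true R (Fin N ⊕ Fin (m + 1))).cl (∑ l, X (Sum.inr l) * q l)).congr ?_
      intro C _ _ v
      simp only [map_sum, map_mul, aeval_X, true_and]
    refine Pr.split hP (X (Sum.inr 0)) hr ?_ ?_
    · let φ : Fin N ⊕ Fin (m + 1) → MvPolynomial (Fin N ⊕ Fin m) R :=
        Sum.elim (fun s => X (Sum.inl s)) (Fin.cons 0 fun j => X (Sum.inr j))
      have hφ : ∀ s, (φ s).IsHomogeneous 1 := by
        rintro (i | j)
        · exact isHomogeneous_X _ _
        · change (Fin.cons 0 (fun j => X (Sum.inr j)) : Fin (m + 1) →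
            MvPolynomial (Fin N ⊕ Fin m) R) j |>.IsHomogeneous 1
          refine Fin.cases ?_ (fun j => ?_) j
          · exact isHomogeneous_zero _ _ _
          · exact isHomogeneous_X _ _
      have hφv : ∀ (C : Type) [CommRing C] [Algebra R C] (v : Fin N ⊕ Fin m → C)
          (p : MvPolynomial (Fin N ⊕ Fin (m + 1)) R),
          aeval v (aeval φ p) = aeval (fun s => aeval v (φ s)) p := by
        intro C _ _ v p
        rw [aeval_map]
      refine (ih N (fun j => aeval φ (q j.succ)) fun j => by
        have := (hq j.succ).aeval φ hφ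
        exact this).push φ ?_ ?_ ?_
      · intro C _ _ v hv
        refine ⟨?_, ?_⟩
        · rw [Fin.sum_univ_succ]
          have h0 : aeval v (φ (Sum.inr 0)) = 0 := map_zero _
          dsimp only
          rw [h0, zero_mul, zero_add, ← hv]
          apply Finset.sum_congr rfl
          intro j _
          rw [hφv]
          congr 1
          exact aeval_X _ _
        · rw [aeval_X]
          exact map_zero _
      · intro C _ _ v w _ _ h
        funext s
        rcases s with s | j
        · simpa only [φ, Sum.elim_inl, aeval_X] using h (Sum.inl s)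
        · simpa only [φ, Sum.elim_inr, Fin.cons_succ, aeval_X] using h (Sum.inr j.succ)
      · intro C _ _ v hv
        have h0 := hv.2
        rw [aeval_X] at h0
        let w : Fin N ⊕ Fin m → C := Sum.elim (fun s => v (Sum.inl s)) fun j => v (Sum.inr j.succ)
        have hw : ∀ s, aeval w (φ s) = v s := by
          rintro (s | j)
          · simp only [φ, w, Sum.elim_inl, aeval_X]
          · refine Fin.cases ?_ (fun j => ?_) j
            · simp only [φ, Sum.elim_inr, Fin.cons_zero, map_zero]
              exact h0.symm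
            · simp only [φ, w, Sum.elim_inr, Fin.cons_succ, aeval_X]
        refine ⟨w, ?_, hw⟩
        have h1 := hv.1
        rw [Fin.sum_univ_succ, h0, zero_mul, zero_add] at h1
        rw [← h1]
        apply Finset.sum_congr rfl
        intro j _
        rw [hφv]
        have : (fun s => aeval w (φ s)) = v := funext hw
        rw [this]
        rfl
    · -- `y_0` invertible
      have h1 := (h m (by omega) N (cubQ q) (by
        refine totalDegree_finsetSum_le fun j _ => deg_C_mul _ (deg_deh _ ?_)
        exact (hq j).totalDegree_le)).unit hP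
      refine h1.push (Sum.elim (fun s => X (Sum.inr ()) * X (Sum.inl (Sum.inr s)))
        (Fin.cons (X (Sum.inr ())) fun j => X (Sum.inr ()) * X (Sum.inl (Sum.inl j)))) ?_ ?_ ?_
      · intro C _ _ v hv
        have h2 := hv.1
        rw [ev_cubQ] at h2
        let t := v (Sum.inr ())
        let y : Fin N ⊕ Fin (m + 1) → C := Sum.elim (fun j => v (Sum.inl (Sum.inr j)))
          (Fin.cons 1 fun b => v (Sum.inl (Sum.inl b)))
        have hy : (fun s => aeval v ((Sum.elim (fun s => X (Sum.inr ()) * X (Sum.inl (Sum.inr s)))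
            (Fin.cons (X (Sum.inr ())) fun j => X (Sum.inr ()) * X (Sum.inl (Sum.inl j))) :
            Fin N ⊕ Fin (m + 1) → MvPolynomial ((Fin m ⊕ Fin N) ⊕ Unit) R) s)) =
            fun s => t * y s := by
          funext s
          rcases s with s | j
          · simp only [y, t, Sum.elim_inl, map_mul, aeval_X]
          · refine Fin.cases ?_ (fun j => ?_) j
            · simp only [y, t, Sum.elim_inr, Fin.cons_zero, aeval_X, mul_one]
            · simp only [y, t, Sum.elim_inr, Fin.cons_succ, aeval_X, map_mul]
        rw [hy, aeval_X]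
        refine ⟨?_, ?_⟩
        · have h3 : ∑ l, t * y (Sum.inr l) * aeval (fun s => t * y s) (q l) =
              t ^ 3 * ∑ l, y (Sum.inr l) * aeval y (q l) := by
            rw [Finset.mul_sum]
            apply Finset.sum_congr rfl
            intro l _
            rw [hom_smul (hq l)]
            ring
          rw [h3]
          have h4 : ∑ l, y (Sum.inr l) * aeval y (q l) = 0 := h2
          rw [h4, mul_zero]
        · change IsUnit (t * 1)
          rw [mul_one]
          exact hv.2
      · intro C _ _ v w hv hw h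
        have e0 : v (Sum.inr ()) = w (Sum.inr ()) := by
          simpa only [Sum.elim_inr, Fin.cons_zero, aeval_X] using h (Sum.inr 0)
        have hu := hv.2
        funext s
        rcases s with (j | s) | ⟨⟩
        · have h4 := h (Sum.inr j.succ)
          simp only [Sum.elim_inr, Fin.cons_succ, map_mul, aeval_X] at h4
          rw [← e0] at h4
          exact hu.mul_left_cancel h4
        · have h4 := h (Sum.inl s)
          simp only [Sum.elim_inl, map_mul, aeval_X] at h4
          rw [← e0] at h4
          exact hu.mul_left_cancel h4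
        · exact e0
      · intro C _ _ v hv
        have hu := hv.2
        rw [aeval_X] at hu
        obtain ⟨y, hy⟩ := hu.exists_right_inv
        let z : Fin m → C := fun j => v (Sum.inr j.succ) * y
        let x : Fin N → C := fun s => v (Sum.inl s) * y
        let Y : Fin N ⊕ Fin (m + 1) → C := Sum.elim x (Fin.cons 1 z)
        have hY : v = fun s => v (Sum.inr 0) * Y s := by
          funext s
          rcases s with s | j
          · change v (Sum.inl s) = v (Sum.inr 0) * (v (Sum.inl s) * y)
            linear_combination -v (Sum.inl s) * hy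
          · refine Fin.cases ?_ (fun j => ?_) j
            · exact (mul_one _).symm
            · change v (Sum.inr j.succ) = v (Sum.inr 0) * (v (Sum.inr j.succ) * y)
              linear_combination -v (Sum.inr j.succ) * hy
        refine ⟨Sum.elim (Sum.elim z x) fun _ => v (Sum.inr 0), ⟨?_, hu⟩, ?_⟩
        · simp only [Sum.elim_inl, Sum.elim_inr]
          rw [ev_cubQ]
          have h3 := hv.1
          have h4 : ∑ l, v (Sum.inr l) * aeval v (q l) =
              v (Sum.inr 0) ^ 3 * ∑ l, Y (Sum.inr l) * aeval Y (q l) := by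
            rw [Finset.mul_sum]
            apply Finset.sum_congr rfl
            intro l _
            have h5 : aeval v (q l) = v (Sum.inr 0) ^ 2 * aeval Y (q l) := by
              rw [← hom_smul (hq l), ← hY]
            have h6 : v (Sum.inr l) = v (Sum.inr 0) * Y (Sum.inr l) := congrFun hY (Sum.inr l)
            rw [h5]
            linear_combination (v (Sum.inr 0) ^ 2 * aeval Y (q l)) * h6
          rw [h4] at h3
          exact (hu.pow 3).mul_right_eq_zero.mp h3
        · rintro (s | j)
          · simp only [Sum.elim_inl, Sum.elim_inr, map_mul, aeval_X]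
            exact (congrFun hY (Sum.inl s)).symm
          · refine Fin.cases ?_ (fun j => ?_) j
            · simp only [Sum.elim_inr, Fin.cons_zero, aeval_X]
            · simp only [Sum.elim_inl, Sum.elim_inr, Fin.cons_succ, map_mul, aeval_X]
              exact (congrFun hY (Sum.inr j.succ)).symm

/-- from the cones over the cubic hypersurfaces to the hypersurfaces `∑ y_j q_j(x) = 1` -/
theorem hyh_of_cu {m : ℕ} (h : CU P m) : HYh P m := by
  intro N q hq
  have h1 := h N (fun j => rename Sum.inl (q j)) fun j => (hq j).rename_isHomogeneous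
  let F : MvPolynomial (Fin N ⊕ Fin m) R := ∑ l, rename Sum.inl (q l) * X (Sum.inr l)
  have hF : ∀ (C : Type) [CommRing C] [Algebra R C] (v : Fin N ⊕ Fin m → C),
      aeval v F = ∑ l, aeval (fun s => v (Sum.inl s)) (q l) * v (Sum.inr l) := by
    intro C _ _ v
    simp only [F, map_sum, map_mul, aeval_X, aeval_rename, Function.comp_def]
  have h2 : Pr P (fun C _ _ v => True ∧ IsUnit (aeval v F) : Cond R (Fin N ⊕ Fin m)) := by
    refine (pr_true hP).opn hP F (h1.congr ?_)
    intro C _ _ v
    rw [hF, true_and]
    have h3 : ∑ l, v (Sum.inr l) * aeval v (rename Sum.inl (q l)) =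
        ∑ l, aeval (fun s => v (Sum.inl s)) (q l) * v (Sum.inr l) := by
      apply Finset.sum_congr rfl
      intro l _
      rw [aeval_rename]
      exact mul_comm _ _
    rw [h3]
  refine Pr.torus hP (rp_sumOne R q) ?_
  have hr : Rp (fun C _ _ v => ∑ l, aeval (fun s => v (Sum.inl (Sum.inl s))) (q l) *
      v (Sum.inl (Sum.inr l)) = 1 ∧ IsUnit (v (Sum.inr ())) :
        Cond R ((Fin N ⊕ Fin m) ⊕ Unit)) := by
    refine (((rp_sumOne R q).free Unit).op (X (Sum.inr ()))).congr ?_
    intro C _ _ v
    rw [aeval_X]
  refine h2.pull hP hr (Sum.elim (fun s => X (Sum.inl (Sum.inl s)))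
    fun j => X (Sum.inr ()) * X (Sum.inl (Sum.inr j))) ?_ ?_ ?_
  · intro C _ _ v hv
    refine ⟨trivial, ?_⟩
    rw [hF]
    simp only [Sum.elim_inl, Sum.elim_inr, map_mul, aeval_X]
    have h3 : ∑ l, aeval (fun s => v (Sum.inl (Sum.inl s))) (q l) * (v (Sum.inr ()) *
        v (Sum.inl (Sum.inr l))) = v (Sum.inr ()) *
        ∑ l, aeval (fun s => v (Sum.inl (Sum.inl s))) (q l) * v (Sum.inl (Sum.inr l)) := by
      rw [Finset.mul_sum]
      apply Finset.sum_congr rfl
      intro l _
      ring
    rw [h3, hv.1, mul_one]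
    exact hv.2
  · intro C _ _ v w hv hw h
    have e0 : (fun s => v (Sum.inl (Sum.inl s))) = fun s => w (Sum.inl (Sum.inl s)) := by
      funext s
      simpa only [Sum.elim_inl, aeval_X] using h (Sum.inl s)
    have e1 : ∀ j, v (Sum.inr ()) * v (Sum.inl (Sum.inr j)) =
        w (Sum.inr ()) * w (Sum.inl (Sum.inr j)) := by
      intro j
      simpa only [Sum.elim_inr, map_mul, aeval_X] using h (Sum.inr j)
    have e2 : v (Sum.inr ()) = w (Sum.inr ()) := by
      have h3 := hv.1
      have h4 := hw.1
      rw [← e0] at h4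
      calc v (Sum.inr ()) = v (Sum.inr ()) * ∑ l, aeval (fun s => v (Sum.inl (Sum.inl s))) (q l) *
            v (Sum.inl (Sum.inr l)) := by rw [h3, mul_one]
        _ = ∑ l, aeval (fun s => v (Sum.inl (Sum.inl s))) (q l) *
            (v (Sum.inr ()) * v (Sum.inl (Sum.inr l))) := by
          rw [Finset.mul_sum]
          apply Finset.sum_congr rfl
          intro l _
          ring
        _ = ∑ l, aeval (fun s => v (Sum.inl (Sum.inl s))) (q l) *
            (w (Sum.inr ()) * w (Sum.inl (Sum.inr l))) := by
          simp only [e1]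
        _ = w (Sum.inr ()) * ∑ l, aeval (fun s => v (Sum.inl (Sum.inl s))) (q l) *
            w (Sum.inl (Sum.inr l)) := by
          rw [Finset.mul_sum]
          apply Finset.sum_congr rfl
          intro l _
          ring
        _ = w (Sum.inr ()) := by rw [h4, mul_one]
    funext s
    rcases s with (s | j) | ⟨⟩
    · exact congrFun e0 s
    · have h3 := e1 j
      rw [← e2] at h3
      exact hv.2.mul_left_cancel h3
    · exact e2
  · intro C _ _ v hv
    have hu := hv.2
    rw [hF] at hu
    obtain ⟨y, hy⟩ := hu.exists_right_inv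
    refine ⟨Sum.elim (Sum.elim (fun s => v (Sum.inl s)) fun j => y * v (Sum.inr j))
      fun _ => ∑ l, aeval (fun s => v (Sum.inl s)) (q l) * v (Sum.inr l), ⟨?_, hu⟩, ?_⟩
    · simp only [Sum.elim_inl, Sum.elim_inr]
      rw [← hy, Finset.sum_mul]
      apply Finset.sum_congr rfl
      intro l _
      ring
    · rintro (s | j)
      · simp only [Sum.elim_inl, aeval_X]
      · simp only [Sum.elim_inl, Sum.elim_inr, map_mul, aeval_X]
        rw [← mul_assoc, hy, one_mul]

end

end Pool.Agent.L5helper70.QF
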