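import Pool.Agent.L5helper70.QF.Rules

/-!
# Diagonal quadratic equations
-/

set_option autoImplicit false
set_option linter.unusedVariables false

open CategoryTheory AlgebraicGeometry MvPolynomial Pool.Agent.Y116.UV Pool.Agent.Z125.UN

namespace Pool.Agent.L5helper70.QF

variable {R : Type} [CommRing R]

section

variable {γ : Type}

/-- adjoining a square root -/
def Rt (Θ : Cond R γ) (u : MvPolynomial γ R) : Cond R (γ ⊕ Unit) := fun C _ _ v =>
  Θ C (fun s => v (Sum.inl s)) ∧ v (Sum.inr ()) ^ 2 = aeval (fun s => v (Sum.inl s)) u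

/-- a diagonal equation -/
def Dg (Θ : Cond R γ) {r : ℕ} (a : Fin r → MvPolynomial γ R) (c : MvPolynomial γ R) :
    Cond R (γ ⊕ Fin r) := fun C _ _ v => Θ C (fun s => v (Sum.inl s)) ∧
      ∑ i, aeval (fun s => v (Sum.inl s)) (a i) * v (Sum.inr i) ^ 2 +
        aeval (fun s => v (Sum.inl s)) c = 0

lemma rp_dg {Θ : Cond R γ} (h : Rp Θ) {r : ℕ} (a : Fin r → MvPolynomial γ R)
    (c : MvPolynomial γ R) : Rp (Dg Θ a c) := by
  refine ((h.free (Fin r)).cl (∑ i, rename Sum.inl (a i) * X (Sum.inr i) ^ 2 +
    rename Sum.inl c)).congr ?_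
  intro C _ _ v
  simp only [Dg, map_add, map_sum, map_mul, map_pow, aeval_X, aeval_rename, Function.comp_def]

end

section

variable {γ : Type} {Θ : Cond R γ} {sep : Prop} {P : Sch R → Prop} (hP : Bnd sep P)

include hP

/-- the product with the multiplicative group -/
lemma Pr.unit (h : Pr P Θ) : Pr P (fun C _ _ v => Θ C (fun s => v (Sum.inl s)) ∧
    IsUnit (v (Sum.inr ())) : Cond R (γ ⊕ Unit)) := by
  have h1 : Pr P (fun C _ _ v => Θ C (fun s => v (Sum.inl s)) ∧
      aeval v (X (Sum.inr ()) : MvPolynomial (γ ⊕ Unit) R) = 0 : Cond R (γ ⊕ Unit)) := by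
    refine h.push (Sum.elim X fun _ => 0) ?_ ?_ ?_
    · intro C _ _ v hv
      simp only [Sum.elim_inl, Sum.elim_inr, aeval_X, map_zero]
      exact ⟨hv, trivial⟩
    · intro C _ _ v w _ _ h
      funext s
      simpa only [Sum.elim_inl, aeval_X] using h (Sum.inl s)
    · intro C _ _ v hv
      refine ⟨fun s => v (Sum.inl s), hv.1, ?_⟩
      rintro (s | ⟨⟩)
      · rw [Sum.elim_inl, aeval_X]
      · rw [Sum.elim_inr, map_zero]
        have := hv.2
        rw [aeval_X] at this
        exact this.symm
  have h2 := (h.free hP Unit).opn hP (X (Sum.inr ())) h1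
  refine h2.congr ?_
  intro C _ _ v
  rw [aeval_X]

lemma dg_zero (h : Pr P Θ) (a : Fin 0 → MvPolynomial γ R) (c : MvPolynomial γ R)
    (hc : (∀ (C : Type) [CommRing C] [Algebra R C] (v : γ → C), Θ C v → aeval v c = 0) ∨
      (∀ (C : Type) [CommRing C] [Algebra R C] (v : γ → C), Θ C v → IsUnit (aeval v c))) :
    Pr P (Dg Θ a c) := by
  rcases hc with hc | hc
  · refine (h.free hP (Fin 0)).congr ?_
    intro C _ _ v
    simp only [Dg, Finset.univ_eq_empty, Finset.sum_empty, zero_add]
    exact ⟨fun h => ⟨h, hc C _ h⟩, fun h => h.1⟩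
  · refine Pr.empty hP (rp_dg h.rp a c) ?_
    intro C _ _ v hv
    have h1 := hc C _ hv.1
    have h2 := hv.2
    simp only [Finset.univ_eq_empty, Finset.sum_empty, zero_add] at h2
    rw [h2, isUnit_zero_iff] at h1
    exact subsingleton_of_zero_eq_one h1

lemma dg_one (a : Fin 1 → MvPolynomial γ R) (c : MvPolynomial γ R)
    (ha : ∀ (C : Type) [CommRing C] [Algebra R C] (v : γ → C), Θ C v → IsUnit (aeval v (a 0)))
    (h : Pr P Θ)
    (hc : (∀ (C : Type) [CommRing C] [Algebra R C] (v : γ → C), Θ C v → aeval v c = 0) ∨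
      Pr P (Rt Θ (-(a 0 * c)))) : Pr P (Dg Θ a c) := by
  rcases hc with hc | hc
  · refine Pr.split hP (X (Sum.inr 0)) (rp_dg h.rp a c) ?_ ?_
    · refine h.push (Sum.elim X fun _ => 0) ?_ ?_ ?_
      · intro C _ _ v hv
        simp only [Dg, Sum.elim_inl, Sum.elim_inr, aeval_X, map_zero, Finset.univ_unique,
          Finset.sum_singleton]
        refine ⟨⟨hv, ?_⟩, trivial⟩
        rw [hc C _ hv]
        ring
      · intro C _ _ v w _ _ h
        funext s
        simpa only [Sum.elim_inl, aeval_X] using h (Sum.inl s)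
      · intro C _ _ v hv
        refine ⟨fun s => v (Sum.inl s), hv.1.1, ?_⟩
        rintro (s | s)
        · rw [Sum.elim_inl, aeval_X]
        · rw [Sum.elim_inr, map_zero]
          have := hv.2
          rw [aeval_X] at this
          rw [Subsingleton.elim s 0]
          exact this.symm
    · refine Pr.empty hP ((rp_dg h.rp a c).op _) ?_
      intro C _ _ v hv
      have h1 := hv.1.2
      simp only [Finset.univ_unique, Finset.sum_singleton] at h1
      rw [hc C _ hv.1.1, add_zero] at h1
      have h2 := hv.2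
      rw [aeval_X] at h2
      have h3 : IsUnit (0 : C) := by
        rw [← h1]
        exact (ha C _ hv.1.1).mul (h2.pow 2)
      rw [isUnit_zero_iff] at h3
      exact subsingleton_of_zero_eq_one h3
  · refine hc.pull hP (rp_dg h.rp a c) (Sum.elim (fun s => X (Sum.inl s))
      fun _ => rename Sum.inl (a 0) * X (Sum.inr 0)) ?_ ?_ ?_
    · intro C _ _ v hv
      have h1 := hv.2
      simp only [Finset.univ_unique, Finset.sum_singleton] at h1
      simp only [Rt, Sum.elim_inl, Sum.elim_inr, aeval_X, map_mul, map_neg, aeval_rename,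
        Function.comp_def]
      refine ⟨hv.1, ?_⟩
      change _ + _ = 0 at h1
      linear_combination (aeval (fun s => v (Sum.inl s)) (a 0)) * h1
    · intro C _ _ v w hv hw h
      have h0 : (fun s => v (Sum.inl s)) = fun s => w (Sum.inl s) := by
        funext s
        simpa only [Sum.elim_inl, aeval_X] using h (Sum.inl s)
      funext s
      rcases s with s | s
      · exact congrFun h0 s
      · have h1 := h (Sum.inr ())
        simp only [Sum.elim_inr, map_mul, aeval_rename, aeval_X, Function.comp_def] at h1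
        rw [← h0] at h1
        rw [Subsingleton.elim s 0]
        exact (ha C _ hv.1).mul_left_cancel h1
    · intro C _ _ v hv
      obtain ⟨y, hy⟩ := (ha C _ hv.1).exists_right_inv
      refine ⟨Sum.elim (fun s => v (Sum.inl s)) fun _ => v (Sum.inr ()) * y, ⟨hv.1, ?_⟩, ?_⟩
      · simp only [Sum.elim_inl, Sum.elim_inr, Finset.univ_unique, Finset.sum_singleton]
        have h1 := hv.2
        rw [map_neg, map_mul] at h1
        have h3 : (Fin.instInhabited : Inhabited (Fin 1)).default = 0 := rfl
        linear_combination (aeval (fun s => v (Sum.inl s)) (a 0)) * y ^ 2 * h1 -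
          (aeval (fun s => v (Sum.inl s)) c) *
            ((aeval (fun s => v (Sum.inl s)) (a 0)) * y + 1) * hy
      · rintro (s | ⟨⟩)
        · simp only [Sum.elim_inl, aeval_X]
        · simp only [Sum.elim_inr, map_mul, aeval_rename, aeval_X, Function.comp_def, Sum.elim_inl]
          linear_combination v (Sum.inr ()) * hy

end

end Pool.Agent.L5helper70.QF
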