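import Pool.Agent.L5helper70.QF.Step

/-!
# Diagonal quadratic equations over bases for which the double coverings are known
-/

set_option autoImplicit false
set_option linter.unusedVariables false

open CategoryTheory AlgebraicGeometry MvPolynomial Pool.Agent.Y116.UV Pool.Agent.Z125.UN

namespace Pool.Agent.L5helper70.QF

variable {R : Type} [CommRing R]

/-- The base `Θ` and its double coverings by square roots of the elements of `U` (units) have the
property. -/
structure Bs {γ : Type} (P : Sch R → Prop) (Θ : Cond R γ) (U : Set (MvPolynomial γ R)) : Prop where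
  unit : ∀ p ∈ U, ∀ (C : Type) [CommRing C] [Algebra R C] (v : γ → C), Θ C v → IsUnit (aeval v p)
  mul : ∀ p ∈ U, ∀ q ∈ U, p * q ∈ U
  neg : ∀ p ∈ U, -p ∈ U
  base : Pr P Θ
  root : ∀ p ∈ U, Pr P (Rt Θ p)

/-- A class of bases `Θ` with sets `U` of invertible functions, closed under adjoining square roots of
the elements of `U`. -/
structure SqClass (P : Sch R → Prop)
    (T : ∀ {γ : Type}, Cond R γ → Set (MvPolynomial γ R) → Prop) : Prop where
  unit : ∀ {γ : Type} {Θ : Cond R γ} {U : Set (MvPolynomial γ R)}, T Θ U → ∀ p ∈ U,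
    ∀ (C : Type) [CommRing C] [Algebra R C] (v : γ → C), Θ C v → IsUnit (aeval v p)
  mul : ∀ {γ : Type} {Θ : Cond R γ} {U : Set (MvPolynomial γ R)}, T Θ U → ∀ p ∈ U, ∀ q ∈ U,
    -(p * q) ∈ U
  base : ∀ {γ : Type} {Θ : Cond R γ} {U : Set (MvPolynomial γ R)}, T Θ U → Pr P Θ
  root : ∀ {γ : Type} {Θ : Cond R γ} {U : Set (MvPolynomial γ R)}, T Θ U → ∀ u ∈ U,
    T (Rt Θ u) ((rename Sum.inl : MvPolynomial γ R →ₐ[R] MvPolynomial (γ ⊕ Unit) R) '' U)

section

variable {sep : Prop} {P : Sch R → Prop} (hP : Bnd sep P)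

include hP

/-- diagonal equations -/
theorem dg_all (hQ : Dbl1 P) (h2 : IsUnit (2 : R))
    {T : ∀ {γ : Type}, Cond R γ → Set (MvPolynomial γ R) → Prop} (hT : SqClass P T) {r : ℕ} :
    ∀ {γ : Type} {Θ : Cond R γ}
    {U : Set (MvPolynomial γ R)} (h : T Θ U) (a : Fin r → MvPolynomial γ R) (ha : ∀ i, a i ∈ U)
    (c : MvPolynomial γ R)
    (hc : (∀ (C : Type) [CommRing C] [Algebra R C] (v : γ → C), Θ C v → aeval v c = 0) ∨ c ∈ U),
    Pr P (Dg Θ a c) := by
  induction r using Nat.strong_induction_on with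
  | _ r ih =>
  intro γ Θ U h a ha c hc
  match r, ih, a, ha with
  | 0, _, a, ha =>
    refine dg_zero hP (hT.base h) a c ?_
    rcases hc with hc | hc
    · exact Or.inl hc
    · exact Or.inr (hT.unit h c hc)
  | 1, _, a, ha =>
    refine dg_one hP a c (hT.unit h _ (ha 0)) (hT.base h) ?_
    rcases hc with hc | hc
    · exact Or.inl hc
    · exact Or.inr (hT.base (hT.root h _ (hT.mul h _ (ha 0) _ hc)))
  | r + 2, ih, a, ha =>
    have hu := hT.mul h _ (ha 0) _ (ha 1)
    refine dg_step hP hQ h2 a c (hT.base h).rp (hT.unit h _ (ha 0)) (hT.unit h _ (ha 1))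
      (hT.base (hT.root h _ hu)) ?_
    refine ih r (by omega) (hT.root h _ hu) _ (fun i => ⟨_, ha i.succ.succ, rfl⟩) _ ?_
    rcases hc with hc | hc
    · left
      intro C _ _ v hv
      rw [aeval_rename]
      exact hc C _ hv.1
    · right
      exact ⟨c, hc, rfl⟩

/-- The bases for which the double coverings are known. -/
theorem bs_class (hQ : Dbl P) : SqClass P (fun {γ : Type} => Bs (γ := γ) P) where
  unit h p hp := h.unit p hp
  mul h p hp q hq := h.neg _ (h.mul p hp q hq)
  base h := h.base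
  root {γ} {Θ} {U} h u hu :=
    { unit := by
        rintro _ ⟨p, hp, rfl⟩ C _ _ v hv
        rw [aeval_rename]
        exact h.unit p hp C _ hv.1
      mul := by
        rintro _ ⟨p, hp, rfl⟩ _ ⟨q, hq, rfl⟩
        exact ⟨p * q, h.mul p hp q hq, map_mul _ _ _⟩
      neg := by
        rintro _ ⟨p, hp, rfl⟩
        exact ⟨-p, h.neg p hp, map_neg _ _⟩
      base := h.root u hu
      root := by
        rintro _ ⟨p, hp, rfl⟩
        refine (Pr.biquadratic hP hQ h.base.rp u p (h.unit u hu) (h.unit p hp) (h.root u hu)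
          (h.root p hp) (h.root _ (h.mul u hu p hp))).congr ?_
        intro C _ _ v
        refine and_congr_right fun _ => ?_
        rw [aeval_rename]
        rfl }

end

end Pool.Agent.L5helper70.QF
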