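import Pool.Agent.L5helper70.QF.Quad

/-!
# Quadratic equations with coefficients in a base: elimination of a variable
-/

set_option autoImplicit false
set_option linter.unusedVariables false

open CategoryTheory AlgebraicGeometry MvPolynomial Pool.Agent.Y116.UV Pool.Agent.Z125.UN

namespace Pool.Agent.L5helper70.QF

variable {R : Type} [CommRing R] {β : Type}

/-- The statement for quadratic equations in `N` variables. -/
def SN (P : Sch R → Prop) (K : Cond R β → Prop) (N : ℕ) : Prop :=
  ∀ {Ψ : Cond R β}, K Ψ → ∀ {r : ℕ} (a : Fin r → MvPolynomial β R), (∀ i, UnitOn Ψ (a i)) →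
    ∀ (Q : MvPolynomial (Fin N) (MvPolynomial β R)), Q.totalDegree ≤ 2 → ∀ {ι : Type} [Finite ι]
    (L : ι → MvPolynomial (Fin N) (MvPolynomial β R)), (∀ j, (L j).totalDegree ≤ 1) →
    Pr P (Qs Ψ a Q L)

lemma UnitOn.mul {Ψ : Cond R β} {p q : MvPolynomial β R} (hp : UnitOn Ψ p) (hq : UnitOn Ψ q) :
    UnitOn Ψ (p * q) := fun C _ _ v hv => by
  rw [map_mul]
  exact (hp C v hv).mul (hq C v hv)

lemma unitOn_two (h2 : IsUnit (2 : R)) (Ψ : Cond R β) : UnitOn Ψ 2 := fun C _ _ v _ => by
  rw [map_ofNat]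
  have h5 := h2.map (algebraMap R C)
  rwa [map_ofNat] at h5

section

variable {P : Sch R → Prop} {K : Cond R β → Prop} {sep : Prop} (hP : Bnd sep P)

lemma sn_zero (hK : BaseClass P K) : SN P K 0 := by
  intro Ψ h r a ha Q _ ι _ L _
  have hQ' := eq_C_of_isEmpty Q
  have hL' := fun j => eq_C_of_isEmpty (L j)
  have h1 := hK.dg (hK.cls h fun j => (L j).coeff 0) a
    (fun i C _ _ v hv => ha i C v hv.1) (Q.coeff 0)
  refine h1.push (Sum.elim X Fin.elim0) ?_ ?_ ?_
  · intro C _ _ v hv
    simp only [Qs, Sum.elim_inl, aeval_X]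
    refine ⟨hv.1.1, ?_, fun j => ?_⟩
    · rw [hQ', ev_C]
      exact hv.2
    · rw [hL' j, ev_C]
      exact hv.1.2 j
  · intro C _ _ v w _ _ h
    funext s
    simpa only [Sum.elim_inl, aeval_X] using h (Sum.inl s)
  · intro C _ _ v hv
    refine ⟨fun s => v (Sum.inl s), ⟨⟨hv.1, fun j => ?_⟩, ?_⟩, ?_⟩
    · have h3 := hv.2.2 j
      rw [hL' j, ev_C] at h3
      exact h3
    · have h3 := hv.2.1
      rw [hQ', ev_C] at h3
      exact h3
    · rintro (s | s)
      · rw [Sum.elim_inl, aeval_X]
      · exact s.elim0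

variable {N : ℕ} (ih : SN P K N) {Ψ : Cond R β} (h : K Ψ) {r : ℕ} (a : Fin r → MvPolynomial β R)
  (ha : ∀ i, UnitOn Ψ (a i)) {ι : Type} [Finite ι]

include hP ih h ha

/-- completing the square -/
lemma sn_square (hr : Rp Ψ) (h2 : IsUnit (2 : R)) (A : MvPolynomial β R) (hA : UnitOn Ψ A)
    (M Q' : MvPolynomial (Fin N) (MvPolynomial β R)) (hM : M.totalDegree ≤ 1)
    (hQ' : Q'.totalDegree ≤ 2) (L : ι → MvPolynomial (Fin N) (MvPolynomial β R))
    (hL : ∀ j, (L j).totalDegree ≤ 1) :
    Pr P (Qs Ψ a (MvPolynomial.C A * X 0 ^ 2 + X 0 * rename Fin.succ M + rename Fin.succ Q')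
      fun j => rename Fin.succ (L j)) := by
  have h0 := ih h (Fin.cons 1 fun i => 2 * 2 * A * a i : Fin (r + 1) → MvPolynomial β R) (by
      intro i
      refine Fin.cases ?_ (fun i => ?_) i
      · rw [Fin.cons_zero]
        intro C _ _ v hv
        rw [map_one]
        exact isUnit_one
      · rw [Fin.cons_succ]
        exact (((unitOn_two h2 Ψ).mul (unitOn_two h2 Ψ)).mul hA).mul (ha i))
    (MvPolynomial.C (2 * 2 * A) * Q' - M ^ 2) (deg_sub (deg_C_mul _ hQ') (by
      rw [pow_two]
      exact deg_mul hM hM)) L hL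
  refine h0.pull hP (rp_qs hr a _ _) (Sum.elim (Sum.elim (fun b => X (Sum.inl (Sum.inl b)))
    (Fin.cons (2 * rename (fun b => Sum.inl (Sum.inl b)) A * X (Sum.inr 0) +
      gp (fun b => Sum.inl (Sum.inl b)) (fun j => Sum.inr (Fin.succ j)) M)
      fun i => X (Sum.inl (Sum.inr i)))) fun j => X (Sum.inr (Fin.succ j))) ?_ ?_ ?_
  · intro C _ _ v hv
    have h3 := hv.2.1
    have h4 := hv.2.2
    simp only [map_add, map_mul, map_pow, ev_C, ev_X, ev_rename] at h3 h4
    refine ⟨?_, ?_, fun j => ?_⟩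
    · simp only [Sum.elim_inl, aeval_X]
      exact hv.1
    · rw [Fin.sum_univ_succ]
      simp only [Sum.elim_inl, Sum.elim_inr, aeval_X, Fin.cons_zero, Fin.cons_succ, map_one,
        map_add, map_mul, map_ofNat, aeval_rename, Function.comp_def, aeval_gp, map_sub, map_pow,
        ev_C]
      have h5 : ∑ i, 2 * 2 * aeval (fun b => v (Sum.inl (Sum.inl b))) A *
          aeval (fun b => v (Sum.inl (Sum.inl b))) (a i) * v (Sum.inl (Sum.inr i)) ^ 2 =
          2 * 2 * aeval (fun b => v (Sum.inl (Sum.inl b))) A *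
            ∑ i, aeval (fun b => v (Sum.inl (Sum.inl b))) (a i) * v (Sum.inl (Sum.inr i)) ^ 2 := by
        rw [Finset.mul_sum]
        apply Finset.sum_congr rfl
        intro i _
        ring
      rw [h5]
      linear_combination 4 * aeval (fun b => v (Sum.inl (Sum.inl b))) A * h3
    · simp only [Sum.elim_inl, Sum.elim_inr, aeval_X]
      exact h4 j
  · intro C _ _ v w hv hw h
    have h0 : (fun b => v (Sum.inl (Sum.inl b))) = fun b => w (Sum.inl (Sum.inl b)) := by
      funext s
      simpa only [Sum.elim_inl, aeval_X] using h (Sum.inl (Sum.inl s))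
    have h1 : (fun i => v (Sum.inl (Sum.inr i))) = fun i => w (Sum.inl (Sum.inr i)) := by
      funext i
      simpa only [Sum.elim_inl, Sum.elim_inr, Fin.cons_succ, aeval_X] using
        h (Sum.inl (Sum.inr (Fin.succ i)))
    have h3 : (fun j => v (Sum.inr (Fin.succ j))) = fun j => w (Sum.inr (Fin.succ j)) := by
      funext j
      simpa only [Sum.elim_inr, aeval_X] using h (Sum.inr j)
    have h4 : v (Sum.inr 0) = w (Sum.inr 0) := by
      have h5 := h (Sum.inl (Sum.inr 0))
      simp only [Sum.elim_inl, Sum.elim_inr, Fin.cons_zero, map_add, map_mul, map_ofNat,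
        aeval_rename, aeval_X, Function.comp_def, aeval_gp] at h5
      rw [← h0, ← h3] at h5
      have h6 := (unitOn_two h2 Ψ).mul hA C _ hv.1
      rw [map_mul, map_ofNat] at h6
      exact h6.mul_left_cancel (add_right_cancel h5)
    funext s
    rcases s with (s | i) | j
    · exact congrFun h0 s
    · exact congrFun h1 i
    · exact Fin.cases h4 (fun j => congrFun h3 j) j
  · intro C _ _ v hv
    have h6 := (unitOn_two h2 Ψ).mul hA C _ hv.1
    rw [map_mul, map_ofNat] at h6
    obtain ⟨y, hy⟩ := h6.exists_right_inv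
    have hq := hv.2.1
    have hl := hv.2.2
    rw [Fin.sum_univ_succ] at hq
    simp only [Fin.cons_zero, Fin.cons_succ, map_one, map_mul, map_ofNat, map_sub, map_pow, ev_C]
      at hq
    set z := fun b => v (Sum.inl (Sum.inl b)) with hz
    set T := v (Sum.inl (Sum.inr 0)) with hT
    set m := ev z (fun j => v (Sum.inr j)) M with hm
    have h5 : ∑ i : Fin r, 2 * 2 * aeval z A * aeval z (a i) *
          v (Sum.inl (Sum.inr (Fin.succ i))) ^ 2 =
          2 * 2 * aeval z A * ∑ i : Fin r, aeval z (a i) * v (Sum.inl (Sum.inr (Fin.succ i))) ^ 2 := by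
        rw [Finset.mul_sum]
        apply Finset.sum_congr rfl
        intro i _
        ring
    rw [h5] at hq
    refine ⟨Sum.elim (Sum.elim z fun i => v (Sum.inl (Sum.inr (Fin.succ i))))
      (Fin.cons ((T - m) * y) fun j => v (Sum.inr j)), ⟨hv.1, ?_, fun j => ?_⟩, ?_⟩
    · simp only [Sum.elim_inl, Sum.elim_inr, map_add, map_mul, map_pow, ev_C, ev_X, ev_rename,
        Fin.cons_zero, Fin.cons_succ]
      rw [← hm]
      have h7 := ((unitOn_two h2 Ψ).mul ((unitOn_two h2 Ψ).mul hA)) C _ hv.1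
      rw [map_mul, map_mul, map_ofNat] at h7
      refine h7.mul_left_cancel ?_
      rw [mul_zero]
      linear_combination hq + ((T - m) ^ 2 * (2 * aeval z A * y + 1) + 2 * m * (T - m)) * hy
    · simp only [Sum.elim_inl, Sum.elim_inr, ev_rename, Fin.cons_succ]
      exact hl j
    · rintro ((b | i) | j)
      · simp only [Sum.elim_inl, aeval_X, hz]
      · simp only [Sum.elim_inl, Sum.elim_inr]
        refine Fin.cases ?_ (fun i => ?_) i
        · simp only [Fin.cons_zero, map_add, map_mul, map_ofNat, aeval_rename, aeval_X,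
            Function.comp_def, aeval_gp, Sum.elim_inl, Sum.elim_inr, Fin.cons_succ]
          linear_combination (T - m) * hy
        · rw [Fin.cons_succ, aeval_X]
          simp only [Sum.elim_inl, Sum.elim_inr]
      · simp only [Sum.elim_inr, aeval_X, Fin.cons_succ]

end

end Pool.Agent.L5helper70.QF
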