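import Pool.Agent.L5helper70.QF.Elim

/-!
# Quadratic equations with coefficients in a base: the remaining cases
-/

set_option autoImplicit false
set_option linter.unusedVariables false

open CategoryTheory AlgebraicGeometry MvPolynomial Pool.Agent.Y116.UV Pool.Agent.Z125.UN

namespace Pool.Agent.L5helper70.QF

variable {R : Type} [CommRing R] {β : Type}

section

variable {P : Sch R → Prop} {K : Cond R β → Prop} {sep : Prop} (hP : Bnd sep P)

variable {N : ℕ} (ih : SN P K N) {Ψ : Cond R β} (h : K Ψ) {r : ℕ} (a : Fin r → MvPolynomial β R)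
  (ha : ∀ i, UnitOn Ψ (a i)) {ι : Type} [Finite ι]

include hP ih h ha

/-- no square of the first variable -/
lemma sn_lin (hr : Rp Ψ)
    (M Q' : MvPolynomial (Fin N) (MvPolynomial β R)) (hM : M.totalDegree ≤ 1)
    (hQ' : Q'.totalDegree ≤ 2) (L : ι → MvPolynomial (Fin N) (MvPolynomial β R))
    (hL : ∀ j, (L j).totalDegree ≤ 1) :
    Pr P (Qs Ψ a (X 0 * rename Fin.succ M + rename Fin.succ Q')
      fun j => rename Fin.succ (L j)) := by
  have hLM : ∀ j : Option ι, (j.elim M L).totalDegree ≤ 1 := by
    rintro (_ | j)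
    · exact hM
    · exact hL j
  refine Pr.split hP (gp (fun b => Sum.inl (Sum.inl b)) (fun j => Sum.inr (Fin.succ j)) M)
    (rp_qs hr a _ _) ?_ ?_
  · have h0 := (ih h a ha Q' hQ' (fun j : Option ι => j.elim M L) hLM).free hP Unit
    refine h0.push (Sum.elim (fun s => X (Sum.inl (Sum.inl s)))
      (Fin.cons (X (Sum.inr ())) fun j => X (Sum.inl (Sum.inr j)))) ?_ ?_ ?_
    · intro C _ _ v hv
      have hM0 := hv.2.2 none
      have hL0 := fun j => hv.2.2 (some j)
      have hq := hv.2.1
      simp only [Option.elim_none, Option.elim_some] at hM0 hL0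
      refine ⟨⟨?_, ?_, fun j => ?_⟩, ?_⟩
      · simp only [Sum.elim_inl, aeval_X]
        exact hv.1
      · simp only [Sum.elim_inl, Sum.elim_inr, aeval_X, map_add, map_mul, ev_X, ev_rename,
          Fin.cons_zero, Fin.cons_succ]
        rw [hM0, mul_zero, zero_add]
        exact hq
      · simp only [Sum.elim_inl, Sum.elim_inr, aeval_X, ev_rename, Fin.cons_succ]
        exact hL0 j
      · simp only [aeval_gp, Sum.elim_inl, Sum.elim_inr, aeval_X, Fin.cons_succ]
        exact hM0
    · intro C _ _ v w _ _ h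
      funext s
      rcases s with (s | j) | ⟨⟩
      · simpa only [Sum.elim_inl, aeval_X] using h (Sum.inl s)
      · simpa only [Sum.elim_inr, Fin.cons_succ, aeval_X] using h (Sum.inr (Fin.succ j))
      · simpa only [Sum.elim_inr, Fin.cons_zero, aeval_X] using h (Sum.inr 0)
    · intro C _ _ v hv
      have hM0 := hv.2
      rw [aeval_gp] at hM0
      have hq := hv.1.2.1
      have hL0 := hv.1.2.2
      simp only [map_add, map_mul, ev_X, ev_rename] at hq hL0
      rw [hM0, mul_zero, zero_add] at hq
      refine ⟨Sum.elim (Sum.elim (fun s => v (Sum.inl s)) fun j => v (Sum.inr (Fin.succ j)))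
        fun _ => v (Sum.inr 0), ⟨hv.1.1, hq, ?_⟩, ?_⟩
      · rintro (_ | j)
        · exact hM0
        · exact hL0 j
      · rintro (s | j)
        · simp only [Sum.elim_inl, aeval_X]
        · refine Fin.cases ?_ (fun j => ?_) j
          · simp only [Sum.elim_inr, Fin.cons_zero, aeval_X]
          · simp only [Sum.elim_inl, Sum.elim_inr, Fin.cons_succ, aeval_X]
  · have h0 := ih h (Fin.elim0 : Fin 0 → MvPolynomial β R) (fun i => i.elim0) 0 (by
      rw [totalDegree_zero]
      exact Nat.zero_le _) L hL
    have h1 := ih h (Fin.elim0 : Fin 0 → MvPolynomial β R) (fun i => i.elim0) 0 (by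
      rw [totalDegree_zero]
      exact Nat.zero_le _) (fun j : Option ι => j.elim M L) hLM
    have h2 := (h0.opn hP (gp (fun b => Sum.inl (Sum.inl b)) (fun j => Sum.inr j) M)
      (h1.congr (by
        intro C _ _ v
        rw [aeval_gp]
        constructor
        · intro hv
          exact ⟨⟨hv.1, hv.2.1, fun j => hv.2.2 (some j)⟩, hv.2.2 none⟩
        · rintro ⟨⟨h3, h4, h5⟩, h6⟩
          refine ⟨h3, h4, ?_⟩
          rintro (_ | j)
          · exact h6
          · exact h5 j))).free hP (Fin r)
    refine h2.pull hP ((rp_qs hr a _ _).op _) (Sum.elim (Sum.elim (Sum.elim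
      (fun b => X (Sum.inl (Sum.inl b))) Fin.elim0) fun j => X (Sum.inr (Fin.succ j)))
      fun i => X (Sum.inl (Sum.inr i))) ?_ ?_ ?_
    · intro C _ _ v hv
      have hu := hv.2
      rw [aeval_gp] at hu
      have hl := hv.1.2.2
      simp only [ev_rename] at hl
      refine ⟨⟨?_, ?_, fun j => ?_⟩, ?_⟩
      · simp only [Sum.elim_inl, aeval_X]
        exact hv.1.1
      · simp only [Finset.univ_eq_empty, Finset.sum_empty, map_zero, add_zero]
      · simp only [Sum.elim_inl, Sum.elim_inr, aeval_X]
        exact hl j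
      · simp only [aeval_gp, Sum.elim_inl, Sum.elim_inr, aeval_X]
        exact hu
    · intro C _ _ v w hv hw h
      have e0 : (fun b => v (Sum.inl (Sum.inl b))) = fun b => w (Sum.inl (Sum.inl b)) := by
        funext s
        simpa only [Sum.elim_inl, aeval_X] using h (Sum.inl (Sum.inl (Sum.inl s)))
      have e1 : (fun i => v (Sum.inl (Sum.inr i))) = fun i => w (Sum.inl (Sum.inr i)) := by
        funext i
        simpa only [Sum.elim_inr, aeval_X] using h (Sum.inr i)
      have e3 : (fun j => v (Sum.inr (Fin.succ j))) = fun j => w (Sum.inr (Fin.succ j)) := by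
        funext j
        simpa only [Sum.elim_inl, Sum.elim_inr, aeval_X] using h (Sum.inl (Sum.inr j))
      have e4 : v (Sum.inr 0) = w (Sum.inr 0) := by
        have hu := hv.2
        rw [aeval_gp] at hu
        have hq1 := hv.1.2.1
        have hq2 := hw.1.2.1
        simp only [map_add, map_mul, ev_X, ev_rename] at hq1 hq2
        rw [← e0, ← e3] at hq2
        have e5 : ∀ i, w (Sum.inl (Sum.inr i)) = v (Sum.inl (Sum.inr i)) := fun i =>
          (congrFun e1 i).symm
        simp only [e5] at hq2
        refine hu.mul_right_cancel ?_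
        linear_combination hq1 - hq2
      funext s
      rcases s with (s | i) | j
      · exact congrFun e0 s
      · exact congrFun e1 i
      · exact Fin.cases e4 (fun j => congrFun e3 j) j
    · intro C _ _ v hv
      have hu := hv.2
      rw [aeval_gp] at hu
      obtain ⟨y, hy⟩ := hu.exists_right_inv
      set z := fun b => v (Sum.inl (Sum.inl (Sum.inl b))) with hz
      set x := fun j => v (Sum.inl (Sum.inr j)) with hx
      have hx' : (fun j => v (Sum.inl (Sum.inr j))) = x := rfl
      refine ⟨Sum.elim (Sum.elim z fun i => v (Sum.inr i))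
        (Fin.cons (-(∑ i, aeval z (a i) * v (Sum.inr i) ^ 2 + ev z x Q') * y) x),
        ⟨⟨hv.1.1, ?_, fun j => ?_⟩, ?_⟩, ?_⟩
      · simp only [Sum.elim_inl, Sum.elim_inr, map_add, map_mul, ev_X, ev_rename,
          Fin.cons_zero, Fin.cons_succ]
        linear_combination (-(∑ i, aeval z (a i) * v (Sum.inr i) ^ 2 + ev z x Q')) * hy
      · simp only [Sum.elim_inl, Sum.elim_inr, ev_rename, Fin.cons_succ]
        exact hv.1.2.2 j
      · simp only [aeval_gp, Sum.elim_inl, Sum.elim_inr, Fin.cons_succ]
        exact hu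
      · rintro (((b | i) | j) | i)
        · simp only [Sum.elim_inl, aeval_X, hz]
        · exact i.elim0
        · simp only [Sum.elim_inl, Sum.elim_inr, aeval_X, Fin.cons_succ, hx]
        · simp only [Sum.elim_inl, Sum.elim_inr, aeval_X]

/-- elimination by a linear equation -/
lemma sn_elim (hr : Rp Ψ) (A : MvPolynomial β R)
    (M Q' : MvPolynomial (Fin N) (MvPolynomial β R)) (hM : M.totalDegree ≤ 1)
    (hQ' : Q'.totalDegree ≤ 2) (l : ι → MvPolynomial β R)
    (L : ι → MvPolynomial (Fin N) (MvPolynomial β R))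
    (hL : ∀ j, (L j).totalDegree ≤ 1) (j0 : ι) (hu : UnitOn Ψ (l j0)) :
    Pr P (Qs Ψ a (MvPolynomial.C A * X 0 ^ 2 + X 0 * rename Fin.succ M + rename Fin.succ Q')
      fun j => MvPolynomial.C (l j) * X 0 + rename Fin.succ (L j)) := by
  have h0 := ih h (fun i => l j0 * l j0 * a i) (fun i => (hu.mul hu).mul (ha i))
    (MvPolynomial.C A * (L j0 * L j0) - MvPolynomial.C (l j0) * (L j0 * M) +
      MvPolynomial.C (l j0 * l j0) * Q')
    (deg_add (deg_sub (deg_C_mul _ (deg_mul (hL j0) (hL j0)))
      (deg_C_mul _ (deg_mul (hL j0) hM))) (deg_C_mul _ hQ'))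
    (fun j => MvPolynomial.C (l j0) * L j - MvPolynomial.C (l j) * L j0)
    (fun j => deg_sub (deg_C_mul _ (hL j)) (deg_C_mul _ (hL j0)))
  refine h0.pull hP (rp_qs hr a _ _) (Sum.elim (fun s => X (Sum.inl s))
    fun j => X (Sum.inr (Fin.succ j))) ?_ ?_ ?_
  · intro C _ _ v hv
    have hq := hv.2.1
    have hl := hv.2.2
    have hl0 := hl j0
    simp only [map_add, map_mul, map_pow, ev_C, ev_X, ev_rename] at hq hl hl0
    refine ⟨?_, ?_, fun j => ?_⟩
    · simp only [Sum.elim_inl, aeval_X]
      exact hv.1
    · simp only [Sum.elim_inl, Sum.elim_inr, aeval_X, map_add, map_mul, map_sub, ev_C]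
      have h5 : ∑ i, aeval (fun b => v (Sum.inl (Sum.inl b))) (l j0) *
          aeval (fun b => v (Sum.inl (Sum.inl b))) (l j0) *
          aeval (fun b => v (Sum.inl (Sum.inl b))) (a i) * v (Sum.inl (Sum.inr i)) ^ 2 =
          aeval (fun b => v (Sum.inl (Sum.inl b))) (l j0) *
          aeval (fun b => v (Sum.inl (Sum.inl b))) (l j0) *
            ∑ i, aeval (fun b => v (Sum.inl (Sum.inl b))) (a i) * v (Sum.inl (Sum.inr i)) ^ 2 := by
        rw [Finset.mul_sum]
        apply Finset.sum_congr rfl
        intro i _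
        ring
      rw [h5]
      set z := fun b => v (Sum.inl (Sum.inl b)) with hz
      set x := fun j => v (Sum.inr (Fin.succ j)) with hx
      have e1 : ev z x (L j0) = -(aeval z (l j0) * v (Sum.inr 0)) := by
        linear_combination hl0
      rw [e1]
      linear_combination aeval z (l j0) ^ 2 * hq
    · simp only [Sum.elim_inl, Sum.elim_inr, aeval_X, map_mul, map_sub, ev_C]
      set z := fun b => v (Sum.inl (Sum.inl b)) with hz
      set x := fun j => v (Sum.inr (Fin.succ j)) with hx
      linear_combination aeval z (l j0) * hl j - aeval z (l j) * hl0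
  · intro C _ _ v w hv hw h
    have e0 : (fun s => v (Sum.inl s)) = fun s => w (Sum.inl s) := by
      funext s
      simpa only [Sum.elim_inl, aeval_X] using h (Sum.inl s)
    have e3 : (fun j => v (Sum.inr (Fin.succ j))) = fun j => w (Sum.inr (Fin.succ j)) := by
      funext j
      simpa only [Sum.elim_inr, aeval_X] using h (Sum.inr j)
    have e4 : v (Sum.inr 0) = w (Sum.inr 0) := by
      have h5 := hv.2.2 j0
      have h6 := hw.2.2 j0
      simp only [map_add, map_mul, ev_C, ev_X, ev_rename] at h5 h6
      have e5 : (fun b => v (Sum.inl (Sum.inl b))) = fun b => w (Sum.inl (Sum.inl b)) := by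
        funext b
        exact congrFun e0 (Sum.inl b)
      rw [← e5, ← e3] at h6
      refine (hu C _ hv.1).mul_left_cancel ?_
      linear_combination h5 - h6
    funext s
    rcases s with s | j
    · exact congrFun e0 s
    · exact Fin.cases e4 (fun j => congrFun e3 j) j
  · intro C _ _ v hv
    obtain ⟨y, hy⟩ := (hu C _ hv.1).exists_right_inv
    have hq := hv.2.1
    have hl := hv.2.2
    simp only [map_add, map_mul, map_sub, ev_C] at hq hl
    set z := fun b => v (Sum.inl (Sum.inl b)) with hz
    set x := fun j => v (Sum.inr j) with hx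
    have h5 : ∑ i, aeval z (l j0) * aeval z (l j0) * aeval z (a i) * v (Sum.inl (Sum.inr i)) ^ 2 =
          aeval z (l j0) * aeval z (l j0) *
            ∑ i, aeval z (a i) * v (Sum.inl (Sum.inr i)) ^ 2 := by
      rw [Finset.mul_sum]
      apply Finset.sum_congr rfl
      intro i _
      ring
    rw [h5] at hq
    refine ⟨Sum.elim (fun s => v (Sum.inl s)) (Fin.cons (-(ev z x (L j0)) * y) x),
      ⟨hv.1, ?_, fun j => ?_⟩, ?_⟩
    · simp only [Sum.elim_inl, Sum.elim_inr, map_add, map_mul, map_pow, ev_C, ev_X, ev_rename,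
        Fin.cons_zero, Fin.cons_succ]
      refine ((hu.mul hu) C _ hv.1).mul_left_cancel ?_
      rw [map_mul, mul_zero]
      linear_combination hq + (ev z x (L j0) ^ 2 * aeval z A * (aeval z (l j0) * y + 1) -
        ev z x (L j0) * ev z x M * aeval z (l j0)) * hy
    · simp only [Sum.elim_inl, Sum.elim_inr, map_add, map_mul, ev_C, ev_X, ev_rename,
        Fin.cons_zero, Fin.cons_succ]
      refine (hu C _ hv.1).mul_left_cancel ?_
      rw [mul_zero]
      linear_combination hl j - aeval z (l j) * ev z x (L j0) * hy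
    · rintro (s | j)
      · simp only [Sum.elim_inl, aeval_X]
      · simp only [Sum.elim_inr, Fin.cons_succ, aeval_X, hx]

end

section

variable {P : Sch R → Prop} {K : Cond R β → Prop} {sep : Prop} (hP : Bnd sep P)

include hP

lemma sn_succ (hK : BaseClass P K) (h2 : IsUnit (2 : R)) {N : ℕ} (ih : SN P K N) :
    SN P K (N + 1) := by
  intro Ψ h r a ha Q hQ ι _ L hL
  classical
  obtain ⟨A, M, Q', hM, hQ', rfl⟩ := dec2 Q hQ
  choose l L' hL' hLe using fun j => dec1 (L j) (hL j)
  have hLf : L = fun j => MvPolynomial.C (l j) * X 0 + rename Fin.succ (L' j) := funext hLe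
  subst hLf
  have key : ∀ T : Finset ι, ∀ {Ψ : Cond R β}, K Ψ → (∀ i, UnitOn Ψ (a i)) →
      (∀ j, j ∉ T → ∀ (C : Type) [CommRing C] [Algebra R C] (v : β → C), Ψ C v →
        aeval v (l j) = 0) →
      Pr P (Qs Ψ a (MvPolynomial.C A * X 0 ^ 2 + X 0 * rename Fin.succ M + rename Fin.succ Q')
        fun j => MvPolynomial.C (l j) * X 0 + rename Fin.succ (L' j)) := by
    intro T
    induction T using Finset.induction_on with
    | empty =>
      intro Ψ h ha hz
      have hr := hK.rp h
      -- split by `A`
      refine Pr.split hP (rename (fun b => Sum.inl (Sum.inl b)) A) (rp_qs hr a _ _) ?_ ?_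
      · refine (sn_lin hP ih (hK.cl h A) a (fun i C _ _ v hv => ha i C v hv.1) (hr.cl A) M Q' hM
          hQ' L' hL').congr ?_
        intro C _ _ v
        rw [aeval_rename]
        constructor
        · rintro ⟨⟨h3, h4⟩, h5, h6⟩
          refine ⟨⟨h3, ?_, fun j => ?_⟩, h4⟩
          · rw [← h5]
            simp only [map_add, map_mul, map_pow, ev_C]
            rw [h4]
            ring
          · rw [← h6 j]
            simp only [map_add, map_mul, ev_C]
            rw [hz j (Finset.notMem_empty j) C _ h3, zero_mul, zero_add]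
        · rintro ⟨⟨h3, h5, h6⟩, h4⟩
          refine ⟨⟨h3, h4⟩, ?_, fun j => ?_⟩
          · rw [← h5]
            simp only [map_add, map_mul, map_pow, ev_C]
            have h4' : aeval (fun b => v (Sum.inl (Sum.inl b))) A = 0 := h4
            rw [h4']
            ring
          · rw [← h6 j]
            simp only [map_add, map_mul, ev_C]
            rw [hz j (Finset.notMem_empty j) C _ h3, zero_mul, zero_add]
      · refine (sn_square hP ih (hK.op h A) a (fun i C _ _ v hv => ha i C v hv.1) (hr.op A) h2 A
          (fun C _ _ v hv => hv.2) M Q' hM hQ' L' hL').congr ?_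
        intro C _ _ v
        rw [aeval_rename]
        constructor
        · rintro ⟨⟨h3, h4⟩, h5, h6⟩
          refine ⟨⟨h3, h5, fun j => ?_⟩, h4⟩
          rw [← h6 j]
          simp only [map_add, map_mul, ev_C]
          rw [hz j (Finset.notMem_empty j) C _ h3, zero_mul, zero_add]
        · rintro ⟨⟨h3, h5, h6⟩, h4⟩
          refine ⟨⟨h3, h4⟩, h5, fun j => ?_⟩
          rw [← h6 j]
          simp only [map_add, map_mul, ev_C]
          rw [hz j (Finset.notMem_empty j) C _ h3, zero_mul, zero_add]
    | insert j0 T hj0 iT =>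
      intro Ψ h ha hz
      have hr := hK.rp h
      refine Pr.split hP (rename (fun b => Sum.inl (Sum.inl b)) (l j0)) (rp_qs hr a _ _) ?_ ?_
      · refine (iT (hK.cl h (l j0)) (fun i C _ _ v hv => ha i C v hv.1) ?_).congr ?_
        · intro j hj C _ _ v hv
          by_cases hjj : j = j0
          · rw [hjj]
            exact hv.2
          · exact hz j (by
              rw [Finset.mem_insert]
              push Not
              exact ⟨hjj, hj⟩) C v hv.1
        · intro C _ _ v
          rw [aeval_rename]
          constructor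
          · rintro ⟨⟨h3, h4⟩, h5⟩
            exact ⟨⟨h3, h5⟩, h4⟩
          · rintro ⟨⟨h3, h5⟩, h4⟩
            exact ⟨⟨h3, h4⟩, h5⟩
      · refine (sn_elim hP ih (hK.op h (l j0)) a (fun i C _ _ v hv => ha i C v hv.1)
          (hr.op (l j0)) A M Q' hM hQ' l L' hL' j0 (fun C _ _ v hv => hv.2)).congr ?_
        intro C _ _ v
        rw [aeval_rename]
        constructor
        · rintro ⟨⟨h3, h4⟩, h5⟩
          exact ⟨⟨h3, h5⟩, h4⟩
        · rintro ⟨⟨h3, h5⟩, h4⟩
          exact ⟨⟨h3, h4⟩, h5⟩
  have := Fintype.ofFinite ι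
  exact key Finset.univ h ha fun j hj => absurd (Finset.mem_univ j) hj

/-- Quadratic equations over the bases of a base class. -/
theorem sn_all (hK : BaseClass P K) (h2 : IsUnit (2 : R)) : ∀ N, SN P K N
  | 0 => sn_zero hK
  | N + 1 => sn_succ hP hK h2 (sn_all hK h2 N)

/-- The zero set of a quadratic polynomial over a base. -/
theorem quad_all (hK : BaseClass P K) (h2 : IsUnit (2 : R)) {Ψ : Cond R β}
    (h : K Ψ) {N : ℕ} (Q : MvPolynomial (Fin N) (MvPolynomial β R)) (hQ2 : Q.totalDegree ≤ 2) :
    Pr P (fun C _ _ v => Ψ C (fun b => v (Sum.inl b)) ∧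
      ev (fun b => v (Sum.inl b)) (fun j => v (Sum.inr j)) Q = 0 : Cond R (β ⊕ Fin N)) := by
  have h0 := sn_all hP hK h2 N h (Fin.elim0 : Fin 0 → MvPolynomial β R) (fun i => i.elim0) Q hQ2
    (Empty.elim : Empty → _) (fun j => j.elim)
  refine h0.push (Sum.elim (fun b => X (Sum.inl (Sum.inl b))) fun j => X (Sum.inr j)) ?_ ?_ ?_
  · intro C _ _ v hv
    have h1 := hv.2.1
    simp only [Finset.univ_eq_empty, Finset.sum_empty, zero_add] at h1
    simp only [Sum.elim_inl, Sum.elim_inr, aeval_X]
    exact ⟨hv.1, h1⟩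
  · intro C _ _ v w _ _ h
    funext s
    rcases s with (s | i) | j
    · simpa only [Sum.elim_inl, aeval_X] using h (Sum.inl s)
    · exact i.elim0
    · simpa only [Sum.elim_inr, aeval_X] using h (Sum.inr j)
  · intro C _ _ v hv
    refine ⟨Sum.elim (Sum.elim (fun b => v (Sum.inl b)) Fin.elim0) fun j => v (Sum.inr j),
      ⟨hv.1, ?_, fun j => j.elim⟩, ?_⟩
    · simp only [Finset.univ_eq_empty, Finset.sum_empty, zero_add, Sum.elim_inl, Sum.elim_inr]
      exact hv.2
    · rintro (s | j)
      · simp only [Sum.elim_inl, aeval_X]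
      · simp only [Sum.elim_inr, aeval_X]

end

end Pool.Agent.L5helper70.QF
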