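import Pool.Agent.L5helper70.QF.DiagAll

/-!
# Polynomials with coefficients in a polynomial ring
-/

set_option autoImplicit false
set_option linter.unusedVariables false

open MvPolynomial Pool.Agent.Y116.UV Pool.Agent.Z125.UN

namespace Pool.Agent.L5helper70.QF

section ev

variable {R : Type} [CommRing R] {C : Type} [CommRing C] [Algebra R C] {β τ τ' : Type}

/-- the value of a polynomial with coefficients in a polynomial ring -/
noncomputable def ev (z : β → C) (x : τ → C) : MvPolynomial τ (MvPolynomial β R) →+* C :=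
  eval₂Hom ((aeval z : MvPolynomial β R →ₐ[R] C) : MvPolynomial β R →+* C) x

lemma ev_C (z : β → C) (x : τ → C) (b : MvPolynomial β R) : ev z x (MvPolynomial.C b) = aeval z b :=
  eval₂Hom_C _ _ _

lemma ev_X (z : β → C) (x : τ → C) (t : τ) :
    ev z x (X t : MvPolynomial τ (MvPolynomial β R)) = x t :=
  eval₂Hom_X' _ _ _

lemma ev_rename (z : β → C) (x : τ → C) (f : τ' → τ) (p : MvPolynomial τ' (MvPolynomial β R)) :
    ev z x (rename f p) = ev z (fun t => x (f t)) p :=
  eval₂Hom_rename _ _ _ _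

lemma ev_map {D : Type} [CommRing D] [Algebra R D] (g : C →ₐ[R] D) (z : β → C) (x : τ → C)
    (p : MvPolynomial τ (MvPolynomial β R)) :
    ev (fun b => g (z b)) (fun t => g (x t)) p = g (ev z x p) := by
  have h : ev (fun b => g (z b)) (fun t => g (x t)) = (g : C →+* D).comp (ev (R := R) z x) := by
    apply MvPolynomial.ringHom_ext
    · intro b
      rw [ev_C, RingHom.comp_apply, ev_C, aeval_map]
      rfl
    · intro t
      rw [ev_X, RingHom.comp_apply, ev_X]
      rfl
  rw [h]
  rfl

end ev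

section dec

variable {B : Type} [CommRing B] {N : ℕ}

lemma finSucc_rename (c : MvPolynomial (Fin N) B) :
    finSuccEquiv B N (rename Fin.succ c) = Polynomial.C c := by
  have h : ((finSuccEquiv B N : MvPolynomial (Fin (N + 1)) B →ₐ[B] _)).comp (rename Fin.succ) =
      IsScalarTower.toAlgHom B (MvPolynomial (Fin N) B) (Polynomial (MvPolynomial (Fin N) B)) := by
    apply MvPolynomial.algHom_ext
    intro i
    rw [AlgHom.comp_apply, rename_X]
    exact finSuccEquiv_X_succ
  exact congrArg (fun f : MvPolynomial (Fin N) B →ₐ[B] _ => f c) h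

lemma dec_sum (p : MvPolynomial (Fin (N + 1)) B) {d : ℕ} (h : p.totalDegree ≤ d) :
    p = ∑ i ∈ Finset.range (d + 1), rename Fin.succ ((finSuccEquiv B N p).coeff i) * X 0 ^ i := by
  apply (finSuccEquiv B N).injective
  rw [map_sum]
  have h1 : (finSuccEquiv B N p).natDegree < d + 1 := by
    rw [natDegree_finSuccEquiv]
    exact Nat.lt_succ_of_le ((degreeOf_le_totalDegree p 0).trans h)
  refine ((finSuccEquiv B N p).as_sum_range_C_mul_X_pow' h1).trans ?_
  apply Finset.sum_congr rfl
  intro i _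
  rw [map_mul, map_pow, finSucc_rename, finSuccEquiv_X_zero]

lemma dec_deg (p : MvPolynomial (Fin (N + 1)) B) {d : ℕ} (h : p.totalDegree ≤ d) (i : ℕ) :
    ((finSuccEquiv B N p).coeff i).totalDegree ≤ d - i := by
  by_cases h0 : (finSuccEquiv B N p).coeff i = 0
  · rw [h0, totalDegree_zero]
    exact Nat.zero_le _
  · have h1 := totalDegree_coeff_finSuccEquiv_add_le p i h0
    omega

lemma eq_C_of_deg {τ : Type} (p : MvPolynomial τ B) (h : p.totalDegree ≤ 0) :
    ∃ b, p = C b := ⟨p.coeff 0, totalDegree_eq_zero_iff_eq_C.mp (Nat.le_zero.mp h)⟩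

/-- linear polynomials -/
lemma dec1 (p : MvPolynomial (Fin (N + 1)) B) (h : p.totalDegree ≤ 1) :
    ∃ (a : B) (q : MvPolynomial (Fin N) B), q.totalDegree ≤ 1 ∧
      p = C a * X 0 + rename Fin.succ q := by
  obtain ⟨a, ha⟩ := eq_C_of_deg _ (dec_deg p h 1)
  refine ⟨a, (finSuccEquiv B N p).coeff 0, dec_deg p h 0, ?_⟩
  have h1 := dec_sum p h
  rw [Finset.sum_range_succ, Finset.sum_range_one, ha, rename_C, pow_one, pow_zero, mul_one] at h1
  exact h1.trans (add_comm _ _)

/-- quadratic polynomials -/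
lemma dec2 (p : MvPolynomial (Fin (N + 1)) B) (h : p.totalDegree ≤ 2) :
    ∃ (a : B) (m q : MvPolynomial (Fin N) B), m.totalDegree ≤ 1 ∧ q.totalDegree ≤ 2 ∧
      p = C a * X 0 ^ 2 + X 0 * rename Fin.succ m + rename Fin.succ q := by
  obtain ⟨a, ha⟩ := eq_C_of_deg _ (dec_deg p h 2)
  refine ⟨a, (finSuccEquiv B N p).coeff 1, (finSuccEquiv B N p).coeff 0, dec_deg p h 1,
    dec_deg p h 0, ?_⟩
  have h1 := dec_sum p h
  rw [Finset.sum_range_succ, Finset.sum_range_succ, Finset.sum_range_one, ha, rename_C, pow_one,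
    pow_zero, mul_one] at h1
  refine h1.trans ?_
  ring

lemma deg_mul {τ : Type} {p q : MvPolynomial τ B} {a b : ℕ} (hp : p.totalDegree ≤ a)
    (hq : q.totalDegree ≤ b) : (p * q).totalDegree ≤ a + b :=
  (totalDegree_mul _ _).trans (add_le_add hp hq)

lemma deg_add {τ : Type} {p q : MvPolynomial τ B} {a : ℕ} (hp : p.totalDegree ≤ a)
    (hq : q.totalDegree ≤ a) : (p + q).totalDegree ≤ a :=
  (totalDegree_add _ _).trans (max_le hp hq)

lemma deg_sub {τ : Type} {p q : MvPolynomial τ B} {a : ℕ} (hp : p.totalDegree ≤ a)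
    (hq : q.totalDegree ≤ a) : (p - q).totalDegree ≤ a :=
  (totalDegree_sub _ _).trans (max_le hp hq)

lemma deg_C_mul {τ : Type} {p : MvPolynomial τ B} {a : ℕ} (b : B) (hp : p.totalDegree ≤ a) :
    (C b * p).totalDegree ≤ a := by
  have h := deg_mul (p := C b) (q := p) (a := 0) (b := a) (by rw [totalDegree_C]) hp
  rwa [zero_add] at h

end dec

end Pool.Agent.L5helper70.QF
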