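import Pool.Agent.L5helper70.QF.Elim2

/-!
# Families of quadrics over affine spaces and the hypersurfaces `∑ y_j q_j(x) = 1`
-/

set_option autoImplicit false
set_option linter.unusedVariables false

open CategoryTheory AlgebraicGeometry MvPolynomial Pool.Agent.Y116.UV Pool.Agent.Z125.UN

namespace Pool.Agent.L5helper70.QF

variable {R : Type} [CommRing R]

/-- the double coverings `s ^ 2 = f(z_1, …, z_n)` have the property -/
def DC (P : Sch R → Prop) (n : ℕ) : Prop := ∀ f : MvPolynomial (Fin n) R,
  Pr P (fun C _ _ v => v (Sum.inr ()) ^ 2 = aeval (fun s => v (Sum.inl s)) f :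
    Cond R (Fin n ⊕ Unit))

/-- the families of quadrics over the affine space of dimension `n` have the property -/
def QFam (P : Sch R → Prop) (n : ℕ) : Prop :=
  ∀ (N : ℕ) (Q : MvPolynomial (Fin N) (MvPolynomial (Fin n) R)), Q.totalDegree ≤ 2 →
    Pr P (fun C _ _ v => ev (fun b => v (Sum.inl b)) (fun j => v (Sum.inr j)) Q = 0 :
      Cond R (Fin n ⊕ Fin N))

/-- the hypersurfaces `∑ y_j q_j(x) = 1` with `m` quadratic polynomials have the property -/
def HY (P : Sch R → Prop) (m : ℕ) : Prop :=
  ∀ (N : ℕ) (q : Fin m → MvPolynomial (Fin N) R), (∀ j, (q j).totalDegree ≤ 2) →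
    Pr P (fun C _ _ v => ∑ l, aeval (fun s => v (Sum.inl s)) (q l) * v (Sum.inr l) = 1 :
      Cond R (Fin N ⊕ Fin m))

lemma rp_sumOne (R : Type) [CommRing R] {N m : ℕ} (q : Fin m → MvPolynomial (Fin N) R) :
    Rp (fun C _ _ v => ∑ l, aeval (fun s => v (Sum.inl s)) (q l) * v (Sum.inr l) = 1 :
      Cond R (Fin N ⊕ Fin m)) := by
  refine ((rp_true R (Fin N ⊕ Fin m)).cl (∑ l, rename Sum.inl (q l) * X (Sum.inr l) - 1)).congr ?_
  intro C _ _ v
  simp only [map_sub, map_sum, map_mul, map_one, aeval_X, aeval_rename, Function.comp_def,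
    sub_eq_zero, true_and]

section

variable {P : Sch R → Prop} {sep : Prop} (hP : Bnd sep P)

include hP

/-- The polynomial `q_0 + ∑ y_j q_(j + 1)` with coefficients in the polynomial ring in the `y_j`. -/
noncomputable def pencil {N m : ℕ} (q : Fin (m + 1) → MvPolynomial (Fin N) R) :
    MvPolynomial (Fin N) (MvPolynomial (Fin m) R) :=
  map (MvPolynomial.C : R →+* MvPolynomial (Fin m) R) (q 0) +
    ∑ j : Fin m, MvPolynomial.C (X j) * map (MvPolynomial.C : R →+* MvPolynomial (Fin m) R)
      (q j.succ)

omit hP in
lemma ev_mapC {C : Type} [CommRing C] [Algebra R C] {β τ : Type} (z : β → C) (x : τ → C)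
    (p : MvPolynomial τ R) :
    ev z x (map (MvPolynomial.C : R →+* MvPolynomial β R) p) = aeval x p := by
  have h : (ev (R := R) z x).comp (map (MvPolynomial.C : R →+* MvPolynomial β R)) =
      (aeval x : MvPolynomial τ R →ₐ[R] C).toRingHom := by
    apply MvPolynomial.ringHom_ext
    · intro r
      rw [RingHom.comp_apply, map_C, ev_C]
      change _ = aeval x (MvPolynomial.C r)
      rw [algHom_C, algHom_C]
    · intro t
      rw [RingHom.comp_apply, map_X, ev_X]
      change _ = aeval x (X t)
      rw [aeval_X]
  exact congrArg (fun f : MvPolynomial τ R →+* C => f p) h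

omit hP in
lemma ev_pencil {N m : ℕ} (q : Fin (m + 1) → MvPolynomial (Fin N) R) {C : Type} [CommRing C]
    [Algebra R C] (z : Fin m → C) (x : Fin N → C) :
    ev z x (pencil q) = aeval x (q 0) + ∑ j : Fin m, z j * aeval x (q j.succ) := by
  rw [pencil, map_add, ev_mapC, map_sum]
  congr 1
  apply Finset.sum_congr rfl
  intro j _
  rw [map_mul, ev_C, aeval_X, ev_mapC]

omit hP in
lemma deg_mapC {τ β : Type} (p : MvPolynomial τ R) {d : ℕ} (h : p.totalDegree ≤ d) :
    (map (MvPolynomial.C : R →+* MvPolynomial β R) p).totalDegree ≤ d :=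
  (Finset.sup_mono (support_map_subset _ _)).trans h

omit hP in
lemma deg_pencil {N m : ℕ} (q : Fin (m + 1) → MvPolynomial (Fin N) R)
    (hq : ∀ j, (q j).totalDegree ≤ 2) : (pencil q).totalDegree ≤ 2 := by
  refine deg_add (deg_mapC _ (hq 0)) ?_
  refine totalDegree_finsetSum_le ?_
  intro j _
  exact deg_C_mul _ (deg_mapC _ (hq _))

theorem hy_of : ∀ {m : ℕ}, (∀ i < m, QFam P i) → HY P m
  | 0, _, N, q, _ => by
    refine Pr.empty hP (rp_sumOne R q) ?_
    intro C _ _ v hv
    rw [Finset.univ_eq_empty, Finset.sum_empty] at hv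
    exact subsingleton_of_zero_eq_one hv
  | m + 1, h, N, q, hq => by
    have ih := hy_of (m := m) fun i hi => h i (by omega)
    refine Pr.split hP (X (Sum.inr 0)) (rp_sumOne R q) ?_ ?_
    · refine (ih N (fun j => q j.succ) fun j => hq _).push (Sum.elim (fun s => X (Sum.inl s))
        (Fin.cons 0 fun j => X (Sum.inr j))) ?_ ?_ ?_
      · intro C _ _ v hv
        rw [Fin.sum_univ_succ]
        simp only [Sum.elim_inl, Sum.elim_inr, Fin.cons_zero, Fin.cons_succ, aeval_X, map_zero,
          mul_zero, zero_add]
        exact ⟨hv, trivial⟩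
      · intro C _ _ v w _ _ h
        funext s
        rcases s with s | j
        · simpa only [Sum.elim_inl, aeval_X] using h (Sum.inl s)
        · simpa only [Sum.elim_inr, Fin.cons_succ, aeval_X] using h (Sum.inr j.succ)
      · intro C _ _ v hv
        have h0 := hv.2
        rw [aeval_X] at h0
        have h1 := hv.1
        rw [Fin.sum_univ_succ, h0, mul_zero, zero_add] at h1
        refine ⟨Sum.elim (fun s => v (Sum.inl s)) fun j => v (Sum.inr j.succ), h1, ?_⟩
        rintro (s | j)
        · simp only [Sum.elim_inl, aeval_X]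
        · refine Fin.cases ?_ (fun j => ?_) j
          · simp only [Sum.elim_inr, Fin.cons_zero, map_zero]
            exact h0.symm
          · simp only [Sum.elim_inr, Fin.cons_succ, aeval_X]
    · -- the complement of the family of quadrics
      have h1 : Pr P (fun C _ _ v => True ∧ IsUnit (aeval v (gp Sum.inl Sum.inr (pencil q))) :
          Cond R (Fin m ⊕ Fin N)) := by
        refine (pr_true hP).opn hP (gp Sum.inl Sum.inr (pencil q)) ?_
        refine (h m (by omega) N (pencil q) (deg_pencil q hq)).congr ?_
        intro C _ _ v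
        rw [aeval_gp, true_and]
      -- `y_0 Q(y', x) = 1`
      have h2 : Pr P (fun C _ _ v => True ∧ aeval v (X (Sum.inr ()) *
          rename Sum.inl (gp Sum.inl Sum.inr (pencil q)) - 1 :
            MvPolynomial ((Fin m ⊕ Fin N) ⊕ Unit) R) = 0 : Cond R ((Fin m ⊕ Fin N) ⊕ Unit)) := by
        refine h1.pull hP ((rp_true R _).cl _) (fun s => X (Sum.inl s)) ?_ ?_ ?_
        · intro C _ _ v hv
          have h3 := hv.2
          rw [map_sub, map_mul, aeval_X, aeval_rename, map_one, sub_eq_zero] at h3
          refine ⟨trivial, ?_⟩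
          simp only [aeval_X]
          exact IsUnit.of_mul_eq_one_right _ h3
        · intro C _ _ v w hv hw h
          have h3 := hv.2
          have h4 := hw.2
          rw [map_sub, map_mul, aeval_X, aeval_rename, map_one, sub_eq_zero] at h3 h4
          have e0 : v ∘ Sum.inl = w ∘ Sum.inl := by
            funext s
            have h5 := h s
            rw [aeval_X, aeval_X] at h5
            exact h5
          rw [← e0] at h4
          have h5 : IsUnit (aeval (v ∘ Sum.inl) (gp Sum.inl Sum.inr (pencil q))) :=
            IsUnit.of_mul_eq_one_right _ h3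
          funext s
          rcases s with s | ⟨⟩
          · exact congrFun e0 s
          · exact h5.mul_right_cancel (h3.trans h4.symm)
        · intro C _ _ v hv
          obtain ⟨y, hy⟩ := hv.2.exists_left_inv
          refine ⟨Sum.elim v fun _ => y, ⟨trivial, ?_⟩, ?_⟩
          · rw [map_sub, map_mul, aeval_X, aeval_rename, map_one, sub_eq_zero, Sum.elim_inr,
              Sum.elim_comp_inl]
            exact hy
          · intro s
            simp only [aeval_X, Sum.elim_inl]
      refine h2.push (Sum.elim (fun s => X (Sum.inl (Sum.inr s)))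
        (Fin.cons (X (Sum.inr ())) fun j => X (Sum.inr ()) * X (Sum.inl (Sum.inl j)))) ?_ ?_ ?_
      · intro C _ _ v hv
        have h3 := hv.2
        rw [map_sub, map_mul, aeval_X, aeval_rename, map_one, sub_eq_zero, aeval_gp,
          ev_pencil] at h3
        rw [Fin.sum_univ_succ]
        simp only [Sum.elim_inl, Sum.elim_inr, Fin.cons_zero, Fin.cons_succ, aeval_X, map_mul]
        refine ⟨?_, IsUnit.of_mul_eq_one _ h3⟩
        rw [← h3, mul_add, Finset.mul_sum]
        congr 1
        · exact mul_comm _ _
        · apply Finset.sum_congr rfl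
          intro j _
          simp only [Function.comp_apply]
          ring
      · intro C _ _ v w hv hw h
        have h3 := hv.2
        rw [map_sub, map_mul, aeval_X, aeval_rename, map_one, sub_eq_zero] at h3
        have e0 : v (Sum.inr ()) = w (Sum.inr ()) := by
          simpa only [Sum.elim_inr, Fin.cons_zero, aeval_X] using h (Sum.inr 0)
        funext s
        rcases s with (j | s) | ⟨⟩
        · have h4 := h (Sum.inr j.succ)
          simp only [Sum.elim_inr, Fin.cons_succ, map_mul, aeval_X] at h4
          rw [← e0] at h4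
          exact (IsUnit.of_mul_eq_one _ h3).mul_left_cancel h4
        · simpa only [Sum.elim_inl, aeval_X] using h (Sum.inl s)
        · exact e0
      · intro C _ _ v hv
        have hu := hv.2
        rw [aeval_X] at hu
        obtain ⟨y, hy⟩ := hu.exists_right_inv
        have h3 := hv.1
        rw [Fin.sum_univ_succ] at h3
        refine ⟨Sum.elim (Sum.elim (fun j => v (Sum.inr j.succ) * y) fun s => v (Sum.inl s))
          fun _ => v (Sum.inr 0), ⟨trivial, ?_⟩, ?_⟩
        · rw [map_sub, map_mul, aeval_X, aeval_rename, map_one, sub_eq_zero, aeval_gp, ev_pencil]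
          simp only [Sum.elim_inr, Function.comp_apply, Sum.elim_inl]
          rw [← h3, mul_add, Finset.mul_sum]
          congr 1
          · exact mul_comm _ _
          · apply Finset.sum_congr rfl
            intro j _
            linear_combination v (Sum.inr j.succ) * aeval (fun s => v (Sum.inl s)) (q j.succ) * hy
        · rintro (s | j)
          · simp only [Sum.elim_inl, Sum.elim_inr, aeval_X]
          · refine Fin.cases ?_ (fun j => ?_) j
            · simp only [Sum.elim_inr, Fin.cons_zero, aeval_X]
            · simp only [Sum.elim_inl, Sum.elim_inr, Fin.cons_succ, map_mul, aeval_X]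
              linear_combination v (Sum.inr j.succ) * hy

/-- double coverings of affine spaces of smaller dimension -/
lemma dc_mono {m n : ℕ} (hmn : m ≤ n) (h : DC P n) : DC P m := by
  obtain ⟨d, rfl⟩ := Nat.exists_eq_add_of_le hmn
  intro f
  have h1 := h (rename (Fin.castAdd d) f)
  have hr : Rp (fun C _ _ v => v (Sum.inr ()) ^ 2 = aeval (fun s => v (Sum.inl s)) f :
      Cond R (Fin m ⊕ Unit)) := ((rp_true R (Fin m)).sqrt f).congr fun C _ _ v => by
    rw [true_and]
  refine Pr.unfree hP (τ := Fin d) hr ?_
  refine h1.push (Sum.elim (Sum.elim (fun s => X (Sum.inl (Fin.castAdd d s)))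
    fun _ => X (Sum.inr ())) fun j => X (Sum.inl (Fin.natAdd m j))) ?_ ?_ ?_
  · intro C _ _ v hv
    rw [aeval_rename] at hv
    simp only [Sum.elim_inl, Sum.elim_inr, aeval_X]
    exact hv
  · intro C _ _ v w _ _ h
    funext s
    rcases s with s | ⟨⟩
    · refine Fin.addCases (fun i => ?_) (fun j => ?_) s
      · simpa only [Sum.elim_inl, aeval_X] using h (Sum.inl (Sum.inl i))
      · simpa only [Sum.elim_inr, aeval_X] using h (Sum.inr j)
    · simpa only [Sum.elim_inl, Sum.elim_inr, aeval_X] using h (Sum.inl (Sum.inr ()))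
  · intro C _ _ v hv
    refine ⟨Sum.elim (Fin.addCases (fun i => v (Sum.inl (Sum.inl i))) fun j => v (Sum.inr j))
      fun _ => v (Sum.inl (Sum.inr ())), ?_, ?_⟩
    · rw [aeval_rename]
      simp only [Sum.elim_inl, Sum.elim_inr, Function.comp_def, Fin.addCases_left]
      exact hv
    · rintro ((i | ⟨⟩) | j)
      · simp only [Sum.elim_inl, aeval_X, Fin.addCases_left]
      · simp only [Sum.elim_inl, Sum.elim_inr, aeval_X]
      · simp only [Sum.elim_inl, Sum.elim_inr, aeval_X, Fin.addCases_right]

end

end Pool.Agent.L5helper70.QF
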