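import Pool.Agent.L5helper70.QF.Cubic

/-!
# Motives of double coverings
-/

set_option autoImplicit false
set_option linter.unusedVariables false

open CategoryTheory MonoidalCategory AlgebraicGeometry MvPolynomial Pool.Agent.TH137.DG
  Pool.Agent.Y116.UV Pool.Agent.Z125.UN Limits Pretriangulated

namespace Pool.Agent.L5helper70.QF

universe v u

section smooth

variable {R : Type} [CommRing R]

/-- The affine bundle `∑ f_l w_l = 1` is smooth. -/
theorem smooth_jou {m : ℕ} (f : Fin m → R) : Algebra.Smooth R (Jou f) where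
  formallySmooth := by
    apply Algebra.FormallySmooth.of_comp_surjective
    intro B _ _ I hI g
    have hsur : Function.Surjective (Ideal.Quotient.mkₐ R I) := Ideal.Quotient.mkₐ_surjective R I
    choose v hv using fun s => hsur (g (Ideal.Quotient.mk _ (X s)))
    have h1 : (Ideal.Quotient.mkₐ R I).comp (aeval v) =
        g.comp (Ideal.Quotient.mkₐ R (Ideal.span {∑ l, C (f l) * X l - 1})) := by
      apply MvPolynomial.algHom_ext
      intro s
      change Ideal.Quotient.mkₐ R I (aeval v (X s)) = _
      rw [aeval_X]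
      exact hv s
    have hval : ∀ w : Fin m → B, aeval w (∑ l, C (f l) * X l : MvPolynomial (Fin m) R) =
        ∑ l, algebraMap R B (f l) * w l := by
      intro w
      simp only [map_sum, map_mul, aeval_X, algHom_C]
    have h2 : Ideal.Quotient.mkₐ R I (∑ l, algebraMap R B (f l) * v l - 1) = 0 := by
      have h3 := congrArg (fun h : MvPolynomial (Fin m) R →ₐ[R] B ⧸ I =>
        h (∑ l, C (f l) * X l - 1)) h1
      change Ideal.Quotient.mkₐ R I (aeval v (∑ l, C (f l) * X l - 1)) =
        g (Ideal.Quotient.mk _ (∑ l, C (f l) * X l - 1)) at h3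
      rw [Ideal.Quotient.eq_zero_iff_mem.mpr (Ideal.mem_span_singleton_self _), map_zero, map_sub,
        map_one, hval] at h3
      exact h3
    have h4 : ∑ l, algebraMap R B (f l) * v l - 1 ∈ I := Ideal.Quotient.eq_zero_iff_mem.mp h2
    let d : B := ∑ l, algebraMap R B (f l) * v l - 1
    have h5 : d * d = 0 := by
      have : d * d ∈ I ^ 2 := by
        rw [pow_two]
        exact Ideal.mul_mem_mul h4 h4
      rw [hI] at this
      exact this
    let w : Fin m → B := fun i => (1 - d) * v i
    have h6 : aeval w (∑ l, C (f l) * X l - 1 : MvPolynomial (Fin m) R) = 0 := by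
      rw [map_sub, hval, map_one]
      have h7 : ∑ l, algebraMap R B (f l) * w l = (1 - d) * ∑ l, algebraMap R B (f l) * v l := by
        rw [Finset.mul_sum]
        apply Finset.sum_congr rfl
        intro i _
        change _ * ((1 - d) * v i) = _
        ring
      have h8 : ∑ l, algebraMap R B (f l) * v l = 1 + d := by
        change _ = 1 + (_ - 1)
        ring
      rw [h7, h8]
      linear_combination -h5
    refine ⟨Ideal.Quotient.liftₐ _ (aeval w) ?_, ?_⟩
    · intro p hp
      have h9 : Ideal.span {∑ l, C (f l) * X l - 1} ≤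
          RingHom.ker (aeval w : MvPolynomial (Fin m) R →ₐ[R] B) := by
        rw [Ideal.span_le, Set.singleton_subset_iff]
        exact h6
      exact h9 hp
    · have hd : Ideal.Quotient.mkₐ R I d = 0 := h2
      apply Ideal.Quotient.algHom_ext
      apply MvPolynomial.algHom_ext
      intro i
      change Ideal.Quotient.mkₐ R I (aeval w (X i)) = g (Ideal.Quotient.mk _ (X i))
      rw [aeval_X]
      change Ideal.Quotient.mkₐ R I ((1 - d) * v i) = _
      rw [map_mul, map_sub, hd, map_one, sub_zero, one_mul]
      exact hv _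
  finitePresentation :=
    Algebra.FinitePresentation.quotient ⟨{∑ l, C (f l) * X l - 1}, by rw [Finset.coe_singleton]⟩

/-- The double covering `w ^ 2 = u` is smooth if `2` and `u` are invertible. -/
theorem smooth_sq (h2 : IsUnit (2 : R)) {u : R} (hu : IsUnit u) : Algebra.Smooth R (Sq R u) where
  formallySmooth := by
    apply Algebra.FormallySmooth.of_comp_surjective
    intro B _ _ I hI g
    have hsur : Function.Surjective (Ideal.Quotient.mkₐ R I) := Ideal.Quotient.mkₐ_surjective R I
    obtain ⟨w0, hw0⟩ := hsur (g (AdjoinRoot.root _))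
    have hroot : (AdjoinRoot.root (Polynomial.X ^ 2 - Polynomial.C u : Polynomial R)) ^ 2 =
        algebraMap R _ u := by
      have h := AdjoinRoot.eval₂_root (Polynomial.X ^ 2 - Polynomial.C u : Polynomial R)
      rw [Polynomial.eval₂_sub, Polynomial.eval₂_pow, Polynomial.eval₂_X, Polynomial.eval₂_C,
        sub_eq_zero] at h
      exact h
    have h3 : Ideal.Quotient.mkₐ R I (w0 ^ 2 - algebraMap R B u) = 0 := by
      rw [map_sub, map_pow, hw0, ← map_pow, hroot, AlgHom.commutes, AlgHom.commutes, sub_self]
    have h4 : w0 ^ 2 - algebraMap R B u ∈ I := Ideal.Quotient.eq_zero_iff_mem.mp h3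
    let d : B := w0 ^ 2 - algebraMap R B u
    have h5 : d * d = 0 := by
      have : d * d ∈ I ^ 2 := by
        rw [pow_two]
        exact Ideal.mul_mem_mul h4 h4
      rw [hI] at this
      exact this
    obtain ⟨y, hy⟩ := (h2.mul hu).exists_right_inv
    have hy' : 2 * algebraMap R B u * algebraMap R B y = 1 := by
      have h6 := congrArg (algebraMap R B) hy
      rw [map_mul, map_mul, map_ofNat, map_one] at h6
      exact h6
    -- the corrected root
    let w : B := w0 - d * w0 * algebraMap R B y
    have h6 : w ^ 2 = algebraMap R B u := by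
      have h7 : w0 ^ 2 = algebraMap R B u + d := by
        change _ = _ + (w0 ^ 2 - algebraMap R B u)
        ring
      change (w0 - d * w0 * algebraMap R B y) ^ 2 = _
      have h8 : (w0 - d * w0 * algebraMap R B y) ^ 2 =
          w0 ^ 2 * (1 - d * algebraMap R B y) ^ 2 := by ring
      rw [h8, h7]
      linear_combination (-d) * hy' + (algebraMap R B u * algebraMap R B y ^ 2 -
        2 * algebraMap R B y + d * algebraMap R B y ^ 2) * h5
    refine ⟨AdjoinRoot.liftAlgHom _ (Algebra.ofId R B) w ?_, ?_⟩
    · rw [Polynomial.eval₂_sub, Polynomial.eval₂_pow, Polynomial.eval₂_X, Polynomial.eval₂_C, h6]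
      exact sub_self _
    · apply AdjoinRoot.algHom_ext'
      · ext
      · have hd : Ideal.Quotient.mkₐ R I d = 0 := h3
        rw [AlgHom.comp_apply, AdjoinRoot.liftAlgHom_root]
        change Ideal.Quotient.mkₐ R I (w0 - d * w0 * algebraMap R B y) = _
        rw [map_sub, map_mul, map_mul, hd, zero_mul, zero_mul, sub_zero, hw0]
  finitePresentation := by
    have h : Algebra.FinitePresentation R (Polynomial R ⧸
        Ideal.span {(Polynomial.X ^ 2 - Polynomial.C u : Polynomial R)}) :=
      Algebra.FinitePresentation.quotient ⟨{_}, by rw [Finset.coe_singleton]⟩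
    exact h

end smooth

section

/-- The double covering `w ^ 2 = u` of `Spec A`. -/
noncomputable abbrev sqs (k A : Type) [Field k] [CommRing A] [Algebra k A] (u : A) : Sch k :=
  aff k (Sq A u)

/-- The covering `w ^ 2 = u`, `t ^ 2 = v` of `Spec A`. -/
noncomputable abbrev bisqs (k A : Type) [Field k] [CommRing A] [Algebra k A] (u v : A) : Sch k :=
  aff k (Sq (Sq A u) (AdjoinRoot.of _ v))

/-- `Z` is a direct summand of `X`. -/
def Summand {C : Type u} [Category.{v} C] (Z X : C) : Prop :=
  ∃ (s : Z ⟶ X) (r : X ⟶ Z), s ≫ r = 𝟙 _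

/-- `Z` is a direct summand of `X₁ ⊕ X₂ ⊕ X₃`. -/
def Summand3 {C : Type u} [Category.{v} C] [Preadditive C] (Z X₁ X₂ X₃ : C) : Prop :=
  ∃ (s₁ : Z ⟶ X₁) (r₁ : X₁ ⟶ Z) (s₂ : Z ⟶ X₂) (r₂ : X₂ ⟶ Z) (s₃ : Z ⟶ X₃) (r₃ : X₃ ⟶ Z),
    s₁ ≫ r₁ + s₂ ≫ r₂ + s₃ ≫ r₃ = 𝟙 _

variable {k : Type} [Field k] {C : Type u} [Category.{v} C]

/-- Transfers for double coverings `Y = {w ^ 2 = u} → X = Spec A` with `u` invertible (étale if `2` is
invertible): `Mc X` is a direct summand of `Mc Y`, because the composition of the pull-back and the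
push-forward is the multiplication by `2`. -/
structure HasDoubleCovers (D : Motives k C) : Prop where
  double : ∀ (A : Type) [CommRing A] [Algebra k A] [Algebra.FiniteType k A] (u : A), IsUnit u →
    Summand (D.Mc (aff k A)) (D.Mc (sqs k A u))

/-- Transfers for double coverings, and for biquadratic coverings: for the covering
`Z = {w ^ 2 = u, t ^ 2 = v}` of `X = Spec A`, `u` and `v` invertible, `Mc Z` is a direct summand of the
sum of the motives with compact support of the three intermediate coverings `w ^ 2 = u`, `w ^ 2 = v`,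
`w ^ 2 = u v` (since `2 = N₁ + N₂ + N₃ - N` for the norm elements of the subgroups of order two and
of the group `ℤ/2 × ℤ/2`). -/
structure HasSquareRoots [Preadditive C] (D : Motives k C) : Prop extends HasDoubleCovers D where
  biquadratic : ∀ (A : Type) [CommRing A] [Algebra k A] [Algebra.FiniteType k A] (u v : A),
    IsUnit u → IsUnit v →
    Summand3 (D.Mc (bisqs k A u v)) (D.Mc (sqs k A u)) (D.Mc (sqs k A v)) (D.Mc (sqs k A (u * v)))

variable [MonoidalCategory C]
  [SymmetricCategory C] [Preadditive C] [Linear ℚ C] [Limits.HasZeroObject C] [HasShift C ℤ]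
  [∀ n : ℤ, (shiftFunctor C n).Additive] [Pretriangulated C]

variable {D : Motives k C}

lemma sf_biprod (hD : IsMotives D) {A B : C} (hA : IsSchurFinite A) (hB : IsSchurFinite B) :
    IsSchurFinite (A ⊞ B) :=
  hD.cone _ (inv_rot_of_distTriang _ (binaryBiproductTriangle_distinguished A B))
    (hD.shift _ (-1) hB) hA

omit [Limits.HasZeroObject C] [HasShift C ℤ] [∀ n : ℤ, (shiftFunctor C n).Additive]
  [Pretriangulated C] in
theorem dbl1_sf (hS : HasDoubleCovers D) : Dbl1 fun X : Sch k => IsSchurFinite (D.Mc X) where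
  double A _ _ _ u hu h := by
    obtain ⟨s, r, hs⟩ := hS.double A u hu
    exact sf_retract s r hs h

theorem dbl_sf (hD : IsMotives D) (hS : HasSquareRoots D) :
    Dbl fun X : Sch k => IsSchurFinite (D.Mc X) where
  toDbl1 := dbl1_sf hS.toHasDoubleCovers
  biquadratic A _ _ _ u v hu hv h1 h2 h3 := by
    obtain ⟨a₁, b₁, a₂, b₂, a₃, b₃, h⟩ := hS.biquadratic A u v hu hv
    refine sf_retract (biprod.lift (biprod.lift a₁ a₂) a₃) (biprod.desc (biprod.desc b₁ b₂) b₃) ?_
      (sf_biprod hD (sf_biprod hD h1 h2) h3)
    rw [biprod.lift_desc, biprod.lift_desc]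
    exact h

instance smooth_mv {A σ : Type} [CommRing A] [Finite σ] : Algebra.Smooth A (MvPolynomial σ A) where
  formallySmooth := inferInstance
  finitePresentation := inferInstance

/-- for smooth algebras the two motives are Schur-finite at the same time -/
lemma sf_dual (hD : IsMotives D) {A : Type} [CommRing A] [Algebra k A] [Algebra.Smooth k A] :
    IsSchurFinite (D.M (aff k A)) ↔ IsSchurFinite (D.Mc (aff k A)) := by
  have i0 : Algebra.FiniteType k A := inferInstance
  exact hD.duality _ (ft_aff True) (smooth_aff inferInstance)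

lemma dimLe_of [PerfectField k] (hD : IsMotives D) {n : ℕ}
    (h : ∀ X : Sch k, FT True X → Smooth X.hom → topologicalKrullDim X.left ≤ n →
      IsSchurFinite (D.M X)) : DimLe (fun X : Sch k => IsSchurFinite (D.Mc X)) n := by
  intro A _ _ _ hA
  refine dim_smooth (bnd_sf hD) n (fun X hX hs hn => (hD.duality X hX hs).mp (h X hX hs hn)) _
    (ft_aff True) ?_
  rw [topDim_aff]
  exact hA

end

end Pool.Agent.L5helper70.QF
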