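import Pool.Agent.L5helper70.QF.Ev

/-!
# Quadratic equations with coefficients in a base

The base is a locally closed subscheme of an affine space; the class `K` of bases is closed under
passing to closed and to principal open subschemes, and the double coverings of the bases by square
roots of units have the property `P`. Then the zero sets of quadratic polynomials over the bases have
the property `P`.
-/

set_option autoImplicit false
set_option linter.unusedVariables false

open CategoryTheory AlgebraicGeometry MvPolynomial Pool.Agent.Y116.UV Pool.Agent.Z125.UN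

namespace Pool.Agent.L5helper70.QF

variable {R : Type} [CommRing R]

/-- `p` is invertible on the base -/
def UnitOn {β : Type} (Ψ : Cond R β) (p : MvPolynomial β R) : Prop :=
  ∀ (C : Type) [CommRing C] [Algebra R C] (v : β → C), Ψ C v → IsUnit (aeval v p)

/-- A class of bases. -/
structure BaseClass {β : Type} (P : Sch R → Prop) (K : Cond R β → Prop) : Prop where
  rp : ∀ {Ψ : Cond R β}, K Ψ → Rp Ψ
  congr : ∀ {Ψ Ψ' : Cond R β}, K Ψ → (∀ (C : Type) [CommRing C] [Algebra R C] (v : β → C),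
    Ψ C v ↔ Ψ' C v) → K Ψ'
  cls : ∀ {Ψ : Cond R β}, K Ψ → ∀ {κ : Type} (e : κ → MvPolynomial β R),
    K fun C _ _ v => Ψ C v ∧ ∀ k, aeval v (e k) = 0
  op : ∀ {Ψ : Cond R β}, K Ψ → ∀ (e : MvPolynomial β R), K fun C _ _ v => Ψ C v ∧ IsUnit (aeval v e)
  dg : ∀ {Ψ : Cond R β}, K Ψ → ∀ {r : ℕ} (a : Fin r → MvPolynomial β R), (∀ i, UnitOn Ψ (a i)) →
    ∀ (c : MvPolynomial β R), Pr P (Dg Ψ a c)

section

variable {β : Type} {P : Sch R → Prop} {K : Cond R β → Prop}

lemma BaseClass.cl (hK : BaseClass P K) {Ψ : Cond R β} (h : K Ψ) (e : MvPolynomial β R) :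
    K fun C _ _ v => Ψ C v ∧ aeval v e = 0 :=
  hK.congr (hK.cls h fun _ : Unit => e) fun C _ _ v =>
    and_congr_right fun _ => ⟨fun h => h (), fun h _ => h⟩

variable {sep : Prop} (hP : Bnd sep P)

include hP

/-- diagonal equations over the bases -/
lemma dg_split {Ψ : Cond R β} (hr : Rp Ψ) {r : ℕ} (a : Fin r → MvPolynomial β R)
    (c : MvPolynomial β R)
    (h0 : Pr P (Dg (fun C _ _ v => Ψ C v ∧ aeval v c = 0 : Cond R β) a c))
    (h1 : Pr P (Dg (fun C _ _ v => Ψ C v ∧ IsUnit (aeval v c) : Cond R β) a c)) :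
    Pr P (Dg Ψ a c) := by
  refine Pr.split hP (rename Sum.inl c) (rp_dg hr a c) ?_ ?_
  · refine h0.congr ?_
    intro C _ _ v
    rw [aeval_rename]
    constructor
    · rintro ⟨⟨h1, h2⟩, h3⟩
      exact ⟨⟨h1, h3⟩, h2⟩
    · rintro ⟨⟨h1, h3⟩, h2⟩
      exact ⟨⟨h1, h2⟩, h3⟩
  · refine h1.congr ?_
    intro C _ _ v
    rw [aeval_rename]
    constructor
    · rintro ⟨⟨h1, h2⟩, h3⟩
      exact ⟨⟨h1, h3⟩, h2⟩
    · rintro ⟨⟨h1, h3⟩, h2⟩
      exact ⟨⟨h1, h2⟩, h3⟩

/-- A class of bases from the double coverings. -/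
theorem baseClass_of_root (hQ : Dbl P) (h2 : IsUnit (2 : R))
    (hrp : ∀ {Ψ : Cond R β}, K Ψ → Rp Ψ)
    (hcongr : ∀ {Ψ Ψ' : Cond R β}, K Ψ → (∀ (C : Type) [CommRing C] [Algebra R C] (v : β → C),
      Ψ C v ↔ Ψ' C v) → K Ψ')
    (hcls : ∀ {Ψ : Cond R β}, K Ψ → ∀ {κ : Type} (e : κ → MvPolynomial β R),
      K fun C _ _ v => Ψ C v ∧ ∀ k, aeval v (e k) = 0)
    (hop : ∀ {Ψ : Cond R β}, K Ψ → ∀ (e : MvPolynomial β R),
      K fun C _ _ v => Ψ C v ∧ IsUnit (aeval v e))
    (hroot : ∀ {Ψ : Cond R β}, K Ψ → ∀ (u : MvPolynomial β R), UnitOn Ψ u → Pr P (Rt Ψ u)) :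
    BaseClass P K where
  rp := hrp
  congr := hcongr
  cls := hcls
  op := hop
  dg {Ψ} h {r} a ha c := by
    have hbs : ∀ {Ψ : Cond R β}, K Ψ → Bs P Ψ {p | UnitOn Ψ p} := fun {Ψ} h =>
      { unit := fun p hp => hp
        mul := fun p hp q hq C _ _ v hv => by
          rw [map_mul]
          exact (hp C v hv).mul (hq C v hv)
        neg := fun p hp C _ _ v hv => by
          rw [map_neg]
          exact (hp C v hv).neg
        base := Pr.double hP hQ.toDbl1 (hrp h) 1 (fun C _ _ v _ => by rw [map_one]; exact isUnit_one)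
          (hroot h 1 (fun C _ _ v _ => by rw [map_one]; exact isUnit_one))
        root := fun p hp => hroot h p hp }
    have hcl : K fun C _ _ v => Ψ C v ∧ aeval v c = 0 :=
      hcongr (hcls h fun _ : Unit => c) fun C _ _ v =>
        and_congr_right fun _ => ⟨fun h => h (), fun h _ => h⟩
    exact dg_split hP (hrp h) a c
      (dg_all hP hQ.toDbl1 h2 (bs_class hP hQ) (hbs hcl) a (fun i C _ _ v hv => ha i C v hv.1) c
        (Or.inl fun C _ _ v hv => hv.2))
      (dg_all hP hQ.toDbl1 h2 (bs_class hP hQ) (hbs (hop h c)) a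
        (fun i C _ _ v hv => ha i C v hv.1) c (Or.inr fun C _ _ v hv => hv.2))

end

section

variable {β : Type}

/-- A quadratic equation `∑ a_i t_i ^ 2 + Q(x) = 0` and linear equations `L_j(x) = 0` over a base. -/
def Qs (Ψ : Cond R β) {r N : ℕ} (a : Fin r → MvPolynomial β R)
    (Q : MvPolynomial (Fin N) (MvPolynomial β R)) {ι : Type}
    (L : ι → MvPolynomial (Fin N) (MvPolynomial β R)) : Cond R ((β ⊕ Fin r) ⊕ Fin N) :=
  fun C _ _ v => Ψ C (fun b => v (Sum.inl (Sum.inl b))) ∧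
    (∑ i, aeval (fun b => v (Sum.inl (Sum.inl b))) (a i) * v (Sum.inl (Sum.inr i)) ^ 2 +
      ev (fun b => v (Sum.inl (Sum.inl b))) (fun j => v (Sum.inr j)) Q = 0 ∧
      ∀ j, ev (fun b => v (Sum.inl (Sum.inl b))) (fun j => v (Sum.inr j)) (L j) = 0)

/-- a polynomial with coefficients in a polynomial ring as a polynomial -/
noncomputable def gp {σ N : Type} (f : β → σ) (g : N → σ)
    (p : MvPolynomial N (MvPolynomial β R)) : MvPolynomial σ R :=
  ev (fun b => X (f b)) (fun j => X (g j)) p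

lemma aeval_gp {σ N : Type} (f : β → σ) (g : N → σ) (p : MvPolynomial N (MvPolynomial β R))
    {C : Type} [CommRing C] [Algebra R C] (v : σ → C) :
    aeval v (gp f g p) = ev (fun b => v (f b)) (fun j => v (g j)) p := by
  rw [gp, ← ev_map]
  simp only [aeval_X]

lemma rp_qs {Ψ : Cond R β} (h : Rp Ψ) {r N : ℕ} (a : Fin r → MvPolynomial β R)
    (Q : MvPolynomial (Fin N) (MvPolynomial β R)) {ι : Type}
    (L : ι → MvPolynomial (Fin N) (MvPolynomial β R)) : Rp (Qs Ψ a Q L) := by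
  refine ((((h.free (Fin r)).free (Fin N)).cl (∑ i, rename (fun b => Sum.inl (Sum.inl b)) (a i) *
    X (Sum.inl (Sum.inr i)) ^ 2 + gp (fun b => Sum.inl (Sum.inl b)) (fun j => Sum.inr j) Q)).cls
    (fun j => gp (fun b => Sum.inl (Sum.inl b)) (fun j => Sum.inr j) (L j))).congr ?_
  intro C _ _ v
  simp only [Qs, map_add, map_sum, map_mul, map_pow, aeval_X, aeval_rename, Function.comp_def,
    aeval_gp, and_assoc]

end

end Pool.Agent.L5helper70.QF
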