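import Pool.Agent.Z125.UN.MotUni
import Pool.Agent.Z125.UN.Red

/-!
# Rings that represent systems of conditions on points

A condition `Φ` on the points with coordinates `σ` in `R`-algebras; the `R`-algebra `A` with the point
`x` represents it, if `x` is the universal point that satisfies `Φ`.
-/

set_option autoImplicit false
set_option linter.unusedVariables false

open MvPolynomial Pool.Agent.Y116.UV Pool.Agent.Z125.UN

namespace Pool.Agent.L5helper70.QF

/-- A condition on the points with the coordinates `σ` in `R`-algebras. -/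
abbrev Cond (R : Type) [CommRing R] (σ : Type) : Type 1 :=
  ∀ (C : Type) [CommRing C] [Algebra R C], (σ → C) → Prop

/-- The ring `A[w] / (w ^ 2 - u)`. -/
abbrev Sq (A : Type) [CommRing A] (u : A) : Type :=
  AdjoinRoot (Polynomial.X ^ 2 - Polynomial.C u : Polynomial A)

variable {R : Type} [CommRing R]

/-- `x` is the universal point with the property `Φ`. -/
structure Repr {σ : Type} (A : Type) [CommRing A] [Algebra R A] (x : σ → A) (Φ : Cond R σ) :
    Prop where
  map : ∀ (C : Type) [CommRing C] [Algebra R C] (f : A →ₐ[R] C), Φ C fun s => f (x s)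
  lift : ∀ (C : Type) [CommRing C] [Algebra R C] (v : σ → C), Φ C v →
    ∃ f : A →ₐ[R] C, ∀ s, f (x s) = v s
  uniq : ∀ (C : Type) [CommRing C] [Algebra R C] (f g : A →ₐ[R] C), (∀ s, f (x s) = g (x s)) → f = g

section

variable {σ : Type} {A : Type} [CommRing A] [Algebra R A] {x : σ → A} {Φ : Cond R σ}

lemma aeval_map {C : Type} [CommRing C] [Algebra R C] (f : A →ₐ[R] C) (x : σ → A)
    (p : MvPolynomial σ R) : aeval (fun s => f (x s)) p = f (aeval x p) := by
  have h : aeval (fun s => f (x s)) = f.comp (aeval x) := by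
    apply MvPolynomial.algHom_ext
    intro s
    rw [aeval_X, AlgHom.comp_apply, aeval_X]
  rw [h]
  rfl

lemma Repr.gen (h : Repr A x Φ) : Φ A x := h.map A (AlgHom.id R A)

lemma Repr.congr (h : Repr A x Φ) {Φ' : Cond R σ}
    (hi : ∀ (C : Type) [CommRing C] [Algebra R C] (v : σ → C), Φ C v ↔ Φ' C v) : Repr A x Φ' where
  map C _ _ f := (hi C _).mp (h.map C f)
  lift C _ _ v hv := h.lift C v ((hi C v).mpr hv)
  uniq C _ _ f g hfg := h.uniq C f g hfg

lemma repr_true : Repr (MvPolynomial σ R) X (fun _ _ _ _ => True : Cond R σ) where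
  map _ _ _ _ := trivial
  lift C _ _ v _ := ⟨aeval v, fun s => aeval_X _ _⟩
  uniq C _ _ f g h := MvPolynomial.algHom_ext h

lemma Repr.closed (h : Repr A x Φ) {κ : Type} (e : κ → MvPolynomial σ R) :
    Repr (A ⧸ Ideal.span (Set.range fun k => aeval x (e k)))
      (fun s => Ideal.Quotient.mk (Ideal.span (Set.range fun k => aeval x (e k))) (x s))
      (fun C _ _ v => Φ C v ∧ ∀ k, aeval v (e k) = 0 : Cond R σ) where
  map C _ _ f := by
    let q := Ideal.Quotient.mkₐ R (Ideal.span (Set.range fun k => aeval x (e k)))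
    refine ⟨h.map C (f.comp q), fun k => ?_⟩
    have h1 := aeval_map (f.comp q) x (e k)
    refine h1.trans ?_
    have h2 : q (aeval x (e k)) = 0 :=
      Ideal.Quotient.eq_zero_iff_mem.mpr (Ideal.subset_span ⟨k, rfl⟩)
    rw [AlgHom.comp_apply, h2, map_zero]
  lift C _ _ v hv := by
    obtain ⟨f, hf⟩ := h.lift C v hv.1
    refine ⟨Ideal.Quotient.liftₐ _ f ?_, fun s => hf s⟩
    intro a ha
    have h1 : Ideal.span (Set.range fun k => aeval x (e k)) ≤ RingHom.ker f := by
      rw [Ideal.span_le]
      rintro _ ⟨k, rfl⟩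
      change f (aeval x (e k)) = 0
      rw [← aeval_map, ← hv.2 k]
      congr 1
      congr 1
      funext s
      exact hf s
    exact h1 ha
  uniq C _ _ f g hfg := by
    apply Ideal.Quotient.algHom_ext
    exact h.uniq C _ _ hfg

lemma Repr.closed1 (h : Repr A x Φ) (e : MvPolynomial σ R) :
    Repr (A ⧸ Ideal.span {aeval x e})
      (fun s => Ideal.Quotient.mk (Ideal.span {aeval x e}) (x s))
      (fun C _ _ v => Φ C v ∧ aeval v e = 0 : Cond R σ) := by
  have h1 := h.closed (fun _ : Unit => e)
  have h2 : (Set.range fun _ : Unit => aeval x e) = {aeval x e} := Set.range_const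
  rw [h2] at h1
  exact h1.congr fun C _ _ v => and_congr_right fun _ => ⟨fun h => h (), fun h _ => h⟩

lemma Repr.opened (h : Repr A x Φ) (e : MvPolynomial σ R) :
    Repr (Localization.Away (aeval x e))
      (fun s => algebraMap A (Localization.Away (aeval x e)) (x s))
      (fun C _ _ v => Φ C v ∧ IsUnit (aeval v e) : Cond R σ) where
  map C _ _ f := by
    let q := IsScalarTower.toAlgHom R A (Localization.Away (aeval x e))
    refine ⟨h.map C (f.comp q), ?_⟩
    have h1 := aeval_map (f.comp q) x e
    have h2 : aeval (fun s => f (algebraMap A (Localization.Away (aeval x e)) (x s))) e =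
        f (algebraMap A (Localization.Away (aeval x e)) (aeval x e)) := h1
    rw [h2]
    exact (IsLocalization.Away.algebraMap_isUnit (aeval x e)).map f
  lift C _ _ v hv := by
    obtain ⟨f, hf⟩ := h.lift C v hv.1
    have h1 : aeval v e = f (aeval x e) := by
      rw [← aeval_map]
      congr 1
      congr 1
      funext s
      exact (hf s).symm
    refine ⟨IsLocalization.liftAlgHom (M := Submonoid.powers (aeval x e)) (f := f) ?_, ?_⟩
    · rintro ⟨_, n, rfl⟩
      rw [map_pow, ← h1]
      exact hv.2.pow n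
    · intro s
      rw [IsLocalization.liftAlgHom_apply, IsLocalization.lift_eq]
      exact hf s
  uniq C _ _ f g hfg := by
    apply IsLocalization.algHom_ext (Submonoid.powers (aeval x e))
    exact h.uniq C _ _ hfg

lemma Repr.poly (h : Repr A x Φ) (τ : Type) :
    Repr (MvPolynomial τ A) (Sum.elim (fun s => MvPolynomial.C (x s)) X : σ ⊕ τ → _)
      (fun C _ _ v => Φ C fun s => v (Sum.inl s) : Cond R (σ ⊕ τ)) where
  map C _ _ f := h.map C (f.comp (IsScalarTower.toAlgHom R A (MvPolynomial τ A)))
  lift C _ _ v hv := by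
    obtain ⟨f, hf⟩ := h.lift C _ hv
    refine ⟨aevalTower f fun t => v (Sum.inr t), ?_⟩
    rintro (s | t)
    · rw [Sum.elim_inl, aevalTower_C]
      exact hf s
    · rw [Sum.elim_inr, aevalTower_X]
  uniq C _ _ f g hfg := by
    apply MvPolynomial.algHom_ext'
    · exact h.uniq C _ _ fun s => hfg (Sum.inl s)
    · intro t
      exact hfg (Sum.inr t)

lemma Repr.sqrt (h : Repr A x Φ) (u : MvPolynomial σ R) :
    Repr (Sq A (aeval x u))
      (Sum.elim (fun s => AdjoinRoot.of _ (x s)) (fun _ => AdjoinRoot.root _) : σ ⊕ Unit → _)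
      (fun C _ _ v => Φ C (fun s => v (Sum.inl s)) ∧
        v (Sum.inr ()) ^ 2 = aeval (fun s => v (Sum.inl s)) u : Cond R (σ ⊕ Unit)) where
  map C _ _ f := by
    refine ⟨h.map C (f.comp (IsScalarTower.toAlgHom R A _)), ?_⟩
    have h1 := aeval_map (f.comp (IsScalarTower.toAlgHom R A (Sq A (aeval x u)))) x u
    refine Eq.trans ?_ h1.symm
    change f (AdjoinRoot.root _) ^ 2 = f (AdjoinRoot.of _ (aeval x u))
    rw [← map_pow]
    congr 1
    have h2 := AdjoinRoot.eval₂_root (Polynomial.X ^ 2 - Polynomial.C (aeval x u) : Polynomial A)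
    rw [Polynomial.eval₂_sub, Polynomial.eval₂_pow, Polynomial.eval₂_X, Polynomial.eval₂_C,
      sub_eq_zero] at h2
    exact h2
  lift C _ _ v hv := by
    obtain ⟨f, hf⟩ := h.lift C _ hv.1
    have h1 : aeval (fun s => v (Sum.inl s)) u = f (aeval x u) := by
      rw [← aeval_map]
      congr 1
      congr 1
      funext s
      exact (hf s).symm
    refine ⟨AdjoinRoot.liftAlgHom _ f (v (Sum.inr ())) ?_, ?_⟩
    · rw [Polynomial.eval₂_sub, Polynomial.eval₂_pow, Polynomial.eval₂_X, Polynomial.eval₂_C,
        sub_eq_zero, hv.2, h1]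
      rfl
    · rintro (s | t)
      · rw [Sum.elim_inl, AdjoinRoot.liftAlgHom_of]
        exact hf s
      · rw [Sum.elim_inr, AdjoinRoot.liftAlgHom_root]
  uniq C _ _ f g hfg := by
    apply AdjoinRoot.algHom_ext'
    · exact h.uniq C _ _ fun s => hfg (Sum.inl s)
    · exact hfg (Sum.inr ())

lemma Repr.laurent (h : Repr A x Φ) :
    Repr (LaurentPolynomial A)
      (Sum.elim (fun s => LaurentPolynomial.C (x s)) (fun _ => LaurentPolynomial.T 1) :
        σ ⊕ Unit → _)
      (fun C _ _ v => Φ C (fun s => v (Sum.inl s)) ∧ IsUnit (v (Sum.inr ())) :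
        Cond R (σ ⊕ Unit)) where
  map C _ _ f := by
    refine ⟨h.map C (f.comp (IsScalarTower.toAlgHom R A _)), ?_⟩
    exact (LaurentPolynomial.isUnit_T 1).map f
  lift C _ _ v hv := by
    obtain ⟨f, hf⟩ := h.lift C _ hv.1
    refine ⟨{ LaurentPolynomial.eval₂ f.toRingHom hv.2.unit with
      commutes' := ?_ }, ?_⟩
    · intro r
      change LaurentPolynomial.eval₂ f.toRingHom hv.2.unit (LaurentPolynomial.C (algebraMap R A r)) =
        _
      rw [LaurentPolynomial.eval₂_C]
      exact f.commutes r
    · rintro (s | t)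
      · change LaurentPolynomial.eval₂ f.toRingHom hv.2.unit (LaurentPolynomial.C (x s)) = _
        rw [LaurentPolynomial.eval₂_C]
        exact hf s
      · change LaurentPolynomial.eval₂ f.toRingHom hv.2.unit (LaurentPolynomial.T 1) = _
        rw [LaurentPolynomial.eval₂_T, zpow_one]
        rfl
  uniq C _ _ f g hfg := by
    have h1 : (f : LaurentPolynomial A →+* C) = g := by
      apply laurent_hom_ext
      · intro a
        have h2 := h.uniq C (f.comp (IsScalarTower.toAlgHom R A _))
          (g.comp (IsScalarTower.toAlgHom R A _)) fun s => hfg (Sum.inl s)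
        exact congrArg (fun k : A →ₐ[R] C => k a) h2
      · exact hfg (Sum.inr ())
    apply AlgHom.ext
    intro y
    exact congrArg (fun k : LaurentPolynomial A →+* C => k y) h1

variable {σ' : Type} {A' : Type} [CommRing A'] [Algebra R A'] {x' : σ' → A'} {Φ' : Cond R σ'}

/-- The ring is determined by the points; it is enough to have a polynomial bijection between the
points. -/
theorem Repr.equiv (h : Repr A x Φ) (h' : Repr A' x' Φ') (φ : σ' → MvPolynomial σ R)
    (hm : ∀ (C : Type) [CommRing C] [Algebra R C] (v : σ → C), Φ C v →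
      Φ' C fun s => aeval v (φ s))
    (hi : ∀ (C : Type) [CommRing C] [Algebra R C] (v w : σ → C), Φ C v → Φ C w →
      (∀ s, aeval v (φ s) = aeval w (φ s)) → v = w)
    (hs : ∀ (C : Type) [CommRing C] [Algebra R C] (v' : σ' → C), Φ' C v' →
      ∃ v : σ → C, Φ C v ∧ ∀ s, aeval v (φ s) = v' s) : Nonempty (A ≃ₐ[R] A') := by
  obtain ⟨F, hF⟩ := h'.lift A _ (hm A x h.gen)
  obtain ⟨v, hv, hvx⟩ := hs A' x' h'.gen
  obtain ⟨G, hG⟩ := h.lift A' v hv
  have h1 : G.comp F = AlgHom.id R A' := by
    apply h'.uniq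
    intro s
    rw [AlgHom.comp_apply, hF, ← aeval_map]
    have : (fun s => G (x s)) = v := funext hG
    rw [this, hvx]
    rfl
  have h2 : F.comp G = AlgHom.id R A := by
    apply h.uniq
    intro s
    refine congrFun (hi A (fun s => F.comp G (x s)) x (h.map A _) h.gen ?_) s
    intro t
    rw [aeval_map, AlgHom.comp_apply]
    have h3 : G (aeval x (φ t)) = x' t := by
      rw [← aeval_map]
      have : (fun s => G (x s)) = v := funext hG
      rw [this, hvx]
    rw [h3, hF]
  exact ⟨AlgEquiv.ofAlgHom G F h1 h2⟩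

end

end Pool.Agent.L5helper70.QF
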