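import Pool.Agent.L5helper70.QF.Repr
import Pool.Agent.Z125.UN.Dim2

/-!
# Rules for properties of the schemes of points that satisfy a condition
-/

set_option autoImplicit false
set_option linter.unusedVariables false

open CategoryTheory AlgebraicGeometry MvPolynomial Pool.Agent.Y116.UV Pool.Agent.Z125.UN

namespace Pool.Agent.L5helper70.QF

variable {R : Type} [CommRing R]

/-- The condition is represented by an algebra of finite type. -/
def Rp {σ : Type} (Φ : Cond R σ) : Prop :=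
  ∃ (A : Type) (_ : CommRing A) (_ : Algebra R A) (_ : Algebra.FiniteType R A) (x : σ → A),
    Repr A x Φ

/-- The scheme that represents the condition has the property `P`. -/
def Pr (P : Sch R → Prop) {σ : Type} (Φ : Cond R σ) : Prop :=
  ∃ (A : Type) (_ : CommRing A) (_ : Algebra R A) (_ : Algebra.FiniteType R A) (x : σ → A),
    Repr A x Φ ∧ P (aff R A)

section

variable {σ : Type} {Φ Φ' : Cond R σ}

lemma Pr.rp {P : Sch R → Prop} (h : Pr P Φ) : Rp Φ := by
  obtain ⟨A, i1, i2, i3, x, h1, -⟩ := h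
  exact ⟨A, i1, i2, i3, x, h1⟩

lemma Pr.congr {P : Sch R → Prop} (h : Pr P Φ)
    (hi : ∀ (C : Type) [CommRing C] [Algebra R C] (v : σ → C), Φ C v ↔ Φ' C v) : Pr P Φ' := by
  obtain ⟨A, i1, i2, i3, x, h1, h2⟩ := h
  exact ⟨A, i1, i2, i3, x, h1.congr hi, h2⟩

lemma Rp.congr (h : Rp Φ)
    (hi : ∀ (C : Type) [CommRing C] [Algebra R C] (v : σ → C), Φ C v ↔ Φ' C v) : Rp Φ' := by
  obtain ⟨A, i1, i2, i3, x, h1⟩ := h
  exact ⟨A, i1, i2, i3, x, h1.congr hi⟩

lemma rp_true (R : Type) [CommRing R] (σ : Type) [Finite σ] :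
    Rp (fun _ _ _ _ => True : Cond R σ) :=
  ⟨MvPolynomial σ R, inferInstance, inferInstance, inferInstance, X, repr_true⟩

lemma Rp.cl (h : Rp Φ) (e : MvPolynomial σ R) :
    Rp (fun C _ _ v => Φ C v ∧ aeval v e = 0 : Cond R σ) := by
  obtain ⟨A, _, _, _, x, h1⟩ := h
  exact ⟨_, inferInstance, inferInstance, inferInstance, _, h1.closed1 e⟩

lemma Rp.cls (h : Rp Φ) {κ : Type} (e : κ → MvPolynomial σ R) :
    Rp (fun C _ _ v => Φ C v ∧ ∀ k, aeval v (e k) = 0 : Cond R σ) := by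
  obtain ⟨A, _, _, _, x, h1⟩ := h
  exact ⟨_, inferInstance, inferInstance, inferInstance, _, h1.closed e⟩

lemma Rp.op (h : Rp Φ) (e : MvPolynomial σ R) :
    Rp (fun C _ _ v => Φ C v ∧ IsUnit (aeval v e) : Cond R σ) := by
  obtain ⟨A, _, _, _, x, h1⟩ := h
  have : Algebra.FiniteType R (Localization.Away (aeval x e)) :=
    Algebra.FiniteType.trans (S := A) inferInstance inferInstance
  exact ⟨_, inferInstance, inferInstance, inferInstance, _, h1.opened e⟩

lemma Rp.free (h : Rp Φ) (τ : Type) [Finite τ] :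
    Rp (fun C _ _ v => Φ C fun s => v (Sum.inl s) : Cond R (σ ⊕ τ)) := by
  obtain ⟨A, _, _, _, x, h1⟩ := h
  have : Algebra.FiniteType R (MvPolynomial τ A) :=
    Algebra.FiniteType.trans (S := A) inferInstance inferInstance
  exact ⟨_, inferInstance, inferInstance, inferInstance, _, h1.poly τ⟩

lemma ft_sq {A : Type} [CommRing A] [Algebra R A] [Algebra.FiniteType R A] (u : A) :
    Algebra.FiniteType R (Sq A u) := by
  have h1 : Algebra.FiniteType R (Polynomial A) :=
    Algebra.FiniteType.trans (S := A) inferInstance inferInstance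
  have h2 : Function.Surjective (AdjoinRoot.mkₐ (R := A)
      (Polynomial.X ^ 2 - Polynomial.C u : Polynomial A)) := AdjoinRoot.mk_surjective
  exact Algebra.FiniteType.of_surjective ((AdjoinRoot.mkₐ (R := A)
    (Polynomial.X ^ 2 - Polynomial.C u : Polynomial A)).restrictScalars R) h2

lemma Rp.sqrt (h : Rp Φ) (u : MvPolynomial σ R) :
    Rp (fun C _ _ v => Φ C (fun s => v (Sum.inl s)) ∧
        v (Sum.inr ()) ^ 2 = aeval (fun s => v (Sum.inl s)) u : Cond R (σ ⊕ Unit)) := by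
  obtain ⟨A, _, _, _, x, h1⟩ := h
  exact ⟨_, inferInstance, inferInstance, ft_sq _, _, h1.sqrt u⟩

end

section

variable {σ : Type} {Φ : Cond R σ} {sep : Prop} {P : Sch R → Prop} (hP : Bnd sep P)

include hP

lemma pr_of_equiv {A A' : Type} [CommRing A] [Algebra R A] [Algebra.FiniteType R A] [CommRing A']
    [Algebra R A'] (e : Nonempty (A ≃ₐ[R] A')) (h : P (aff R A)) : P (aff R A') :=
  e.elim fun e => iso_alg hP.toUni e h

/-- The property does not depend on the ring that represents the condition. -/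
lemma pr_iff {A : Type} [CommRing A] [Algebra R A] [Algebra.FiniteType R A] {x : σ → A}
    (h : Repr A x Φ) : Pr P Φ ↔ P (aff R A) := by
  constructor
  · rintro ⟨A', _, _, _, x', h1, h2⟩
    refine pr_of_equiv hP (h1.equiv h X ?_ ?_ ?_) h2
    · intro C _ _ v hv
      simpa only [aeval_X] using hv
    · intro C _ _ v w _ _ h
      funext s
      simpa only [aeval_X] using h s
    · intro C _ _ v hv
      exact ⟨v, hv, fun s => aeval_X _ _⟩
  · intro h2
    exact ⟨A, inferInstance, inferInstance, inferInstance, x, h, h2⟩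

lemma pr_true [Finite σ] : Pr P (fun _ _ _ _ => True : Cond R σ) := by
  rw [pr_iff hP repr_true]
  have := Fintype.ofFinite σ
  exact iso_alg hP.toUni (renameEquiv R (Fintype.equivFin σ).symm) (hP.space _)

variable {σ' : Type} {Φ' : Cond R σ'}

omit hP in
/-- transport along a polynomial bijection -/
lemma Repr.push {A : Type} [CommRing A] [Algebra R A] {x : σ → A} (h : Repr A x Φ)
    (φ : σ' → MvPolynomial σ R)
    (hm : ∀ (C : Type) [CommRing C] [Algebra R C] (v : σ → C), Φ C v →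
      Φ' C fun s => aeval v (φ s))
    (hi : ∀ (C : Type) [CommRing C] [Algebra R C] (v w : σ → C), Φ C v → Φ C w →
      (∀ s, aeval v (φ s) = aeval w (φ s)) → v = w)
    (hs : ∀ (C : Type) [CommRing C] [Algebra R C] (v' : σ' → C), Φ' C v' →
      ∃ v : σ → C, Φ C v ∧ ∀ s, aeval v (φ s) = v' s) :
    Repr A (fun s => aeval x (φ s)) Φ' where
  map C _ _ f := by
    have h1 := hm C _ (h.map C f)
    simpa only [aeval_map] using h1
  lift C _ _ v' hv' := by
    obtain ⟨v, hv, hv2⟩ := hs C v' hv'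
    obtain ⟨f, hf⟩ := h.lift C v hv
    refine ⟨f, fun s => ?_⟩
    rw [← aeval_map, ← hv2 s]
    congr 1
    congr 1
    funext s
    exact hf s
  uniq C _ _ f g hfg := by
    apply h.uniq
    intro s
    refine congrFun (hi C (fun s => f (x s)) (fun s => g (x s)) (h.map C f) (h.map C g) ?_) s
    intro t
    rw [aeval_map, aeval_map]
    exact hfg t

omit hP in
lemma Pr.push (h : Pr P Φ) (φ : σ' → MvPolynomial σ R)
    (hm : ∀ (C : Type) [CommRing C] [Algebra R C] (v : σ → C), Φ C v →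
      Φ' C fun s => aeval v (φ s))
    (hi : ∀ (C : Type) [CommRing C] [Algebra R C] (v w : σ → C), Φ C v → Φ C w →
      (∀ s, aeval v (φ s) = aeval w (φ s)) → v = w)
    (hs : ∀ (C : Type) [CommRing C] [Algebra R C] (v' : σ' → C), Φ' C v' →
      ∃ v : σ → C, Φ C v ∧ ∀ s, aeval v (φ s) = v' s) : Pr P Φ' := by
  obtain ⟨A, i1, i2, i3, x, h1, h2⟩ := h
  exact ⟨A, i1, i2, i3, _, h1.push φ hm hi hs, h2⟩

omit hP in
lemma Rp.push (h : Rp Φ) (φ : σ' → MvPolynomial σ R)
    (hm : ∀ (C : Type) [CommRing C] [Algebra R C] (v : σ → C), Φ C v →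
      Φ' C fun s => aeval v (φ s))
    (hi : ∀ (C : Type) [CommRing C] [Algebra R C] (v w : σ → C), Φ C v → Φ C w →
      (∀ s, aeval v (φ s) = aeval w (φ s)) → v = w)
    (hs : ∀ (C : Type) [CommRing C] [Algebra R C] (v' : σ' → C), Φ' C v' →
      ∃ v : σ → C, Φ C v ∧ ∀ s, aeval v (φ s) = v' s) : Rp Φ' := by
  obtain ⟨A, i1, i2, i3, x, h1⟩ := h
  exact ⟨A, i1, i2, i3, _, h1.push φ hm hi hs⟩

lemma Pr.pull (h' : Pr P Φ') (h : Rp Φ) (φ : σ' → MvPolynomial σ R)
    (hm : ∀ (C : Type) [CommRing C] [Algebra R C] (v : σ → C), Φ C v →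
      Φ' C fun s => aeval v (φ s))
    (hi : ∀ (C : Type) [CommRing C] [Algebra R C] (v w : σ → C), Φ C v → Φ C w →
      (∀ s, aeval v (φ s) = aeval w (φ s)) → v = w)
    (hs : ∀ (C : Type) [CommRing C] [Algebra R C] (v' : σ' → C), Φ' C v' →
      ∃ v : σ → C, Φ C v ∧ ∀ s, aeval v (φ s) = v' s) : Pr P Φ := by
  obtain ⟨A, i1, i2, i3, x, h1⟩ := h
  obtain ⟨A', _, _, _, x', h3, h4⟩ := h'
  obtain ⟨e⟩ := h1.equiv h3 φ hm hi hs
  exact ⟨A, i1, i2, i3, x, h1, iso_alg hP.toUni e.symm h4⟩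

lemma Pr.split (e : MvPolynomial σ R) (hr : Rp Φ)
    (h0 : Pr P (fun C _ _ v => Φ C v ∧ aeval v e = 0 : Cond R σ))
    (h1 : Pr P (fun C _ _ v => Φ C v ∧ IsUnit (aeval v e) : Cond R σ)) : Pr P Φ := by
  obtain ⟨A, _, _, _, x, h⟩ := hr
  have : Algebra.FiniteType R (Localization.Away (aeval x e)) :=
    Algebra.FiniteType.trans (S := A) inferInstance inferInstance
  rw [pr_iff hP (h.closed1 e)] at h0
  rw [pr_iff hP (h.opened e)] at h1
  rw [pr_iff hP h]
  exact ring_total hP _ h0 h1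

lemma Pr.opn (e : MvPolynomial σ R) (h : Pr P Φ)
    (h0 : Pr P (fun C _ _ v => Φ C v ∧ aeval v e = 0 : Cond R σ)) :
    Pr P (fun C _ _ v => Φ C v ∧ IsUnit (aeval v e) : Cond R σ) := by
  obtain ⟨A, _, _, _, x, h, hA⟩ := h
  have : Algebra.FiniteType R (Localization.Away (aeval x e)) :=
    Algebra.FiniteType.trans (S := A) inferInstance inferInstance
  rw [pr_iff hP (h.closed1 e)] at h0
  rw [pr_iff hP (h.opened e)]
  exact ring_open hP _ h0 hA

lemma Pr.clo (e : MvPolynomial σ R) (h : Pr P Φ)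
    (h1 : Pr P (fun C _ _ v => Φ C v ∧ IsUnit (aeval v e) : Cond R σ)) :
    Pr P (fun C _ _ v => Φ C v ∧ aeval v e = 0 : Cond R σ) := by
  obtain ⟨A, _, _, _, x, h, hA⟩ := h
  have : Algebra.FiniteType R (Localization.Away (aeval x e)) :=
    Algebra.FiniteType.trans (S := A) inferInstance inferInstance
  rw [pr_iff hP (h.opened e)] at h1
  rw [pr_iff hP (h.closed1 e)]
  exact hP.closed _ _ (ft_aff sep) (triple_away _) hA h1

lemma Pr.empty (hr : Rp Φ)
    (h : ∀ (C : Type) [CommRing C] [Algebra R C] (v : σ → C), Φ C v → Subsingleton C) :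
    Pr P Φ := by
  obtain ⟨A, _, _, _, x, h1⟩ := hr
  rw [pr_iff hP h1]
  exact p_empty hP A (h A x h1.gen)

lemma Pr.free (h : Pr P Φ) (τ : Type) [Finite τ] :
    Pr P (fun C _ _ v => Φ C fun s => v (Sum.inl s) : Cond R (σ ⊕ τ)) := by
  obtain ⟨A, _, _, _, x, h1, h2⟩ := h
  have := Fintype.ofFinite τ
  have h3 : Algebra.FiniteType R (MvPolynomial τ A) :=
    Algebra.FiniteType.trans (S := A) inferInstance inferInstance
  exact ⟨_, inferInstance, inferInstance, h3, _, h1.poly τ, p_poly hP τ h2⟩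

lemma p_unpoly_fin {A : Type} [CommRing A] [Algebra R A] [Algebra.FiniteType R A] (n : ℕ)
    (h : P (aff R (MvPolynomial (Fin n) A))) : P (aff R A) := by
  have h1 : IsOpenImmersion (𝟙 (aff R A) : aff R A ⟶ aff R A).left :=
    inferInstanceAs (IsOpenImmersion (𝟙 (aff R A).left))
  have h2 : Set.range (𝟙 (aff R A) : aff R A ⟶ aff R A).left =
      {x : PrimeSpectrum A | ∃ l, f1 A n l ∉ x.asIdeal} := by
    have h1 : Set.range (𝟙 (aff R A) : aff R A ⟶ aff R A).left = Set.univ := Set.range_id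
    have h2 : {x : PrimeSpectrum A | ∃ l, f1 A n l ∉ x.asIdeal} = Set.univ := by
      rw [Set.eq_univ_iff_forall]
      intro x
      exact ⟨0, fun h => x.isPrime.ne_top ((Ideal.eq_top_iff_one _).mpr h)⟩
    exact h1.trans h2.symm
  refine hP.jouanolou A (n + 1) (f1 A n) (aff R A) (𝟙 _) h1 h2 ?_
  have : Algebra.FiniteType R (MvPolynomial (Fin n) A) :=
    Algebra.FiniteType.trans (S := A) inferInstance inferInstance
  exact iso_alg hP.toUni ((jouOne A n).symm.restrictScalars R) h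

lemma Pr.unfree {τ : Type} [Finite τ] (hr : Rp Φ)
    (h : Pr P (fun C _ _ v => Φ C fun s => v (Sum.inl s) : Cond R (σ ⊕ τ))) : Pr P Φ := by
  obtain ⟨A, _, _, _, x, h1⟩ := hr
  have := Fintype.ofFinite τ
  have h3 : Algebra.FiniteType R (MvPolynomial τ A) :=
    Algebra.FiniteType.trans (S := A) inferInstance inferInstance
  rw [pr_iff hP (h1.poly τ)] at h
  rw [pr_iff hP h1]
  exact p_unpoly_fin hP _
    (iso_alg hP.toUni ((renameEquiv A (Fintype.equivFin τ)).restrictScalars R) h)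

lemma Pr.torus (hr : Rp Φ)
    (h : Pr P (fun C _ _ v => Φ C (fun s => v (Sum.inl s)) ∧ IsUnit (v (Sum.inr ())) :
      Cond R (σ ⊕ Unit))) : Pr P Φ := by
  obtain ⟨A, _, _, _, x, h1⟩ := hr
  have := ft_laurent (R := R) A
  rw [pr_iff hP h1.laurent] at h
  rw [pr_iff hP h1]
  exact hP.torus A h

omit hP in
lemma aeval_jou {A : Type} [CommRing A] [Algebra R A] (x : σ → A) {m : ℕ}
    (e : Fin m → MvPolynomial σ R) :
    aeval (Sum.elim (fun s => MvPolynomial.C (x s)) X : σ ⊕ Fin m → MvPolynomial (Fin m) A)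
      (∑ l, rename Sum.inl (e l) * X (Sum.inr l) - 1) =
        ∑ l, MvPolynomial.C (aeval x (e l)) * X l - 1 := by
  rw [map_sub, map_sum, map_one]
  congr 1
  apply Finset.sum_congr rfl
  intro l _
  rw [map_mul, aeval_X, aeval_rename, Sum.elim_inr]
  congr 1
  have h := aeval_map (IsScalarTower.toAlgHom R A (MvPolynomial (Fin m) A)) x (e l)
  exact h

omit hP in
lemma Repr.jou {A : Type} [CommRing A] [Algebra R A] {x : σ → A} (h : Repr A x Φ) {m : ℕ}
    (e : Fin m → MvPolynomial σ R) :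
    Repr (Jou fun l => aeval x (e l)) (Sum.elim
        (fun s => Ideal.Quotient.mk _ (MvPolynomial.C (x s))) (fun l => Ideal.Quotient.mk _ (X l)) :
          σ ⊕ Fin m → _)
      (fun C _ _ v => Φ C (fun s => v (Sum.inl s)) ∧
        ∑ l, aeval (fun s => v (Sum.inl s)) (e l) * v (Sum.inr l) = 1 : Cond R (σ ⊕ Fin m)) := by
  have h1 := (h.poly (Fin m)).closed1 (∑ l, rename Sum.inl (e l) * X (Sum.inr l) - 1)
  rw [aeval_jou] at h1
  have h2 := h1.congr (Φ' := (fun C _ _ v => Φ C (fun s => v (Sum.inl s)) ∧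
        ∑ l, aeval (fun s => v (Sum.inl s)) (e l) * v (Sum.inr l) = 1 : Cond R (σ ⊕ Fin m))) (by
    intro C _ _ v
    refine and_congr_right fun _ => ?_
    rw [map_sub, map_sum, map_one, sub_eq_zero]
    have h3 : ∀ l, aeval v (rename Sum.inl (e l) * X (Sum.inr l)) =
        aeval (fun s => v (Sum.inl s)) (e l) * v (Sum.inr l) := by
      intro l
      rw [map_mul, aeval_X, aeval_rename]
      rfl
    simp only [h3])
  convert h2 using 1
  funext s
  rcases s with s | s <;> rfl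

omit hP in
lemma ft_jou {A : Type} [CommRing A] [Algebra R A] [Algebra.FiniteType R A] {m : ℕ} (f : Fin m → A) :
    Algebra.FiniteType R (Jou f) :=
  Algebra.FiniteType.trans (S := A) inferInstance inferInstance

/-- from the closed subscheme to the affine bundle over the complement -/
lemma jou_of {A : Type} [CommRing A] [Algebra R A] [Algebra.FiniteType R A] {m : ℕ} (f : Fin m → A)
    (hA : P (aff R A)) (hZ : P (aff R (A ⧸ Ideal.span (Set.range f)))) : P (aff R (Jou f)) := by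
  refine hP.bundle A m f (opn (aff R A) (neOpen R f)) (opnMap (aff R A) (neOpen R f)) inferInstance
    (range_opnMap _ _) (hP.opened (affMap (Ideal.Quotient.mkₐ R (Ideal.span (Set.range f))))
    (opnMap (aff R A) (neOpen R f)) (ft_aff sep) ⟨closed_affMap _ (Ideal.Quotient.mkₐ_surjective R _),
      inferInstance, ?_⟩ hZ hA)
  rw [range_affMap _ (Ideal.Quotient.mkₐ_surjective R _), range_opnMap]
  ext x
  change (∀ a, Ideal.Quotient.mk (Ideal.span (Set.range f)) a = 0 → a ∈ x.asIdeal) ↔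
    ¬ ∃ l, f l ∉ x.asIdeal
  push Not
  constructor
  · intro h l
    exact h (f l) (Ideal.Quotient.eq_zero_iff_mem.mpr (Ideal.subset_span ⟨l, rfl⟩))
  · intro h a ha
    rw [Ideal.Quotient.eq_zero_iff_mem] at ha
    refine (Ideal.span_le.mpr ?_ : Ideal.span (Set.range f) ≤ x.asIdeal) ha
    rintro _ ⟨l, rfl⟩
    exact h l

lemma Pr.jou {m : ℕ} (e : Fin m → MvPolynomial σ R) (h : Pr P Φ)
    (h0 : Pr P (fun C _ _ v => Φ C v ∧ ∀ l, aeval v (e l) = 0 : Cond R σ)) :
    Pr P (fun C _ _ v => Φ C (fun s => v (Sum.inl s)) ∧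
        ∑ l, aeval (fun s => v (Sum.inl s)) (e l) * v (Sum.inr l) = 1 : Cond R (σ ⊕ Fin m)) := by
  obtain ⟨A, _, _, _, x, h, hA⟩ := h
  have := ft_jou (R := R) fun l => aeval x (e l)
  rw [pr_iff hP (h.closed e)] at h0
  rw [pr_iff hP (h.jou e)]
  exact jou_of hP _ hA h0

lemma Pr.unjou {m : ℕ} (e : Fin m → MvPolynomial σ R) (h : Pr P Φ)
    (h1 : Pr P (fun C _ _ v => Φ C (fun s => v (Sum.inl s)) ∧
        ∑ l, aeval (fun s => v (Sum.inl s)) (e l) * v (Sum.inr l) = 1 : Cond R (σ ⊕ Fin m))) :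
    Pr P (fun C _ _ v => Φ C v ∧ ∀ l, aeval v (e l) = 0 : Cond R σ) := by
  obtain ⟨A, _, _, _, x, h, hA⟩ := h
  have := ft_jou (R := R) fun l => aeval x (e l)
  rw [pr_iff hP (h.jou e)] at h1
  rw [pr_iff hP (h.closed e)]
  exact of_jou hP.toUni _ hA h1

end

/-- Descent along the double coverings `w ^ 2 = u` for units `u`. -/
structure Dbl1 {R : Type} [CommRing R] (P : Sch R → Prop) : Prop where
  double : ∀ (A : Type) [CommRing A] [Algebra R A] [Algebra.FiniteType R A] (u : A), IsUnit u →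
    P (aff R (Sq A u)) → P (aff R A)

/-- Descent along the double coverings `w ^ 2 = u` for units `u`, and from the three quotients of a
biquadratic covering to the covering. -/
structure Dbl {R : Type} [CommRing R] (P : Sch R → Prop) : Prop extends Dbl1 P where
  biquadratic : ∀ (A : Type) [CommRing A] [Algebra R A] [Algebra.FiniteType R A] (u v : A),
    IsUnit u → IsUnit v → P (aff R (Sq A u)) → P (aff R (Sq A v)) → P (aff R (Sq A (u * v))) →
    P (aff R (Sq (Sq A u) (AdjoinRoot.of _ v)))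

section

variable {σ : Type} {Φ : Cond R σ} {sep : Prop} {P : Sch R → Prop} (hP : Bnd sep P)

include hP

lemma Pr.double (hQ : Dbl1 P) (hr : Rp Φ) (u : MvPolynomial σ R)
    (hu : ∀ (C : Type) [CommRing C] [Algebra R C] (v : σ → C), Φ C v → IsUnit (aeval v u))
    (h : Pr P (fun C _ _ v => Φ C (fun s => v (Sum.inl s)) ∧
        v (Sum.inr ()) ^ 2 = aeval (fun s => v (Sum.inl s)) u : Cond R (σ ⊕ Unit))) : Pr P Φ := by
  obtain ⟨A, _, _, _, x, h1⟩ := hr
  have := ft_sq (R := R) (aeval x u)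
  rw [pr_iff hP (h1.sqrt u)] at h
  rw [pr_iff hP h1]
  exact hQ.double A _ (hu A x h1.gen) h

lemma Pr.biquadratic (hQ : Dbl P) (hr : Rp Φ) (u w : MvPolynomial σ R)
    (hu : ∀ (C : Type) [CommRing C] [Algebra R C] (v : σ → C), Φ C v → IsUnit (aeval v u))
    (hw : ∀ (C : Type) [CommRing C] [Algebra R C] (v : σ → C), Φ C v → IsUnit (aeval v w))
    (h1 : Pr P (fun C _ _ v => Φ C (fun s => v (Sum.inl s)) ∧
        v (Sum.inr ()) ^ 2 = aeval (fun s => v (Sum.inl s)) u : Cond R (σ ⊕ Unit)))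
    (h2 : Pr P (fun C _ _ v => Φ C (fun s => v (Sum.inl s)) ∧
        v (Sum.inr ()) ^ 2 = aeval (fun s => v (Sum.inl s)) w : Cond R (σ ⊕ Unit)))
    (h3 : Pr P (fun C _ _ v => Φ C (fun s => v (Sum.inl s)) ∧
        v (Sum.inr ()) ^ 2 = aeval (fun s => v (Sum.inl s)) (u * w) : Cond R (σ ⊕ Unit))) :
    Pr P (fun C _ _ v => (Φ C (fun s => v (Sum.inl (Sum.inl s))) ∧
        v (Sum.inl (Sum.inr ())) ^ 2 = aeval (fun s => v (Sum.inl (Sum.inl s))) u) ∧
        v (Sum.inr ()) ^ 2 = aeval (fun s => v (Sum.inl (Sum.inl s))) w :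
          Cond R ((σ ⊕ Unit) ⊕ Unit)) := by
  obtain ⟨A, _, _, _, x, h⟩ := hr
  have i1 := ft_sq (R := R) (aeval x u)
  have i2 := ft_sq (R := R) (aeval x w)
  have i3 := ft_sq (R := R) (aeval x (u * w))
  rw [pr_iff hP (h.sqrt u)] at h1
  rw [pr_iff hP (h.sqrt w)] at h2
  rw [pr_iff hP (h.sqrt (u * w))] at h3
  have h4 := (h.sqrt u).sqrt (rename Sum.inl w)
  have h5 : aeval (Sum.elim (fun s => AdjoinRoot.of _ (x s)) (fun _ => AdjoinRoot.root _) :
      σ ⊕ Unit → Sq A (aeval x u)) (rename Sum.inl w) = AdjoinRoot.of _ (aeval x w) := by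
    rw [aeval_rename]
    exact aeval_map (IsScalarTower.toAlgHom R A (Sq A (aeval x u))) x w
  have h6 : P (aff R (Sq (Sq A (aeval x u)) (AdjoinRoot.of _ (aeval x w)))) := by
    rw [map_mul] at h3
    exact hQ.biquadratic A _ _ (hu A x h.gen) (hw A x h.gen) h1 h2 h3
  rw [← h5] at h6
  refine ⟨_, inferInstance, inferInstance, ft_sq (R := R) _, _, h4.congr ?_, h6⟩
  intro C _ _ v
  refine and_congr_right fun _ => ?_
  rw [aeval_rename]
  rfl

end

end Pool.Agent.L5helper70.QF
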