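import Pool.Agent.L5helper70.QF.Diag

/-!
# Diagonal quadratic equations: splitting off a hyperbolic plane
-/

set_option autoImplicit false
set_option linter.unusedVariables false

open CategoryTheory AlgebraicGeometry MvPolynomial Pool.Agent.Y116.UV Pool.Agent.Z125.UN

namespace Pool.Agent.L5helper70.QF

variable {R : Type} [CommRing R]

section

variable {γ : Type}

/-- `t_0 t_1 + a_0 (∑ b_i t_(i + 2) ^ 2 + c) = 0` -/
def Hy (Θ : Cond R γ) (a0 : MvPolynomial γ R) {r : ℕ} (b : Fin r → MvPolynomial γ R)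
    (c : MvPolynomial γ R) : Cond R (γ ⊕ Fin (r + 2)) := fun C _ _ v =>
      Θ C (fun s => v (Sum.inl s)) ∧
      v (Sum.inr 0) * v (Sum.inr 1) + aeval (fun s => v (Sum.inl s)) a0 *
        (∑ i : Fin r, aeval (fun s => v (Sum.inl s)) (b i) * v (Sum.inr i.succ.succ) ^ 2 +
        aeval (fun s => v (Sum.inl s)) c) = 0

lemma rp_hy {Θ : Cond R γ} (h : Rp Θ) (a0 : MvPolynomial γ R) {r : ℕ}
    (b : Fin r → MvPolynomial γ R) (c : MvPolynomial γ R) : Rp (Hy Θ a0 b c) := by
  refine ((h.free (Fin (r + 2))).cl (X (Sum.inr 0) * X (Sum.inr 1) + rename Sum.inl a0 *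
    (∑ i, rename Sum.inl (b i) * X (Sum.inr i.succ.succ) ^ 2 +
    rename Sum.inl c))).congr ?_
  intro C _ _ v
  simp only [Hy, map_add, map_sum, map_mul, map_pow, aeval_X, aeval_rename, Function.comp_def]

end

section

variable {γ : Type} {Θ : Cond R γ} {sep : Prop} {P : Sch R → Prop} (hP : Bnd sep P)

include hP

lemma pr_hy (a0 : MvPolynomial γ R) {r : ℕ} (b : Fin r → MvPolynomial γ R)
    (c : MvPolynomial γ R)
    (ha : ∀ (C : Type) [CommRing C] [Algebra R C] (v : γ → C), Θ C v → IsUnit (aeval v a0))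
    (h : Pr P Θ) (hd : Pr P (Dg Θ b c)) : Pr P (Hy Θ a0 b c) := by
  refine Pr.split hP (X (Sum.inr 0)) (rp_hy h.rp a0 b c) ?_ ?_
  · refine (hd.free hP Unit).push (Sum.elim (fun s => X (Sum.inl (Sum.inl s)))
      (Fin.cons 0 (Fin.cons (X (Sum.inr ())) fun i => X (Sum.inl (Sum.inr i))))) ?_ ?_ ?_
    · intro C _ _ v hv
      have h1 := hv.2
      simp only [Hy, Sum.elim_inl, Sum.elim_inr, aeval_X, Fin.cons_zero, Fin.cons_succ, map_zero]
      refine ⟨⟨hv.1, ?_⟩, trivial⟩
      rw [h1]
      ring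
    · intro C _ _ v w _ _ h
      funext s
      rcases s with (s | i) | ⟨⟩
      · simpa only [Sum.elim_inl, aeval_X] using h (Sum.inl s)
      · simpa only [Sum.elim_inr, aeval_X, Fin.cons_succ] using h (Sum.inr i.succ.succ)
      · simpa only [Sum.elim_inr, aeval_X, Fin.cons_succ, Fin.cons_zero] using
          h (Sum.inr (Fin.succ 0))
    · intro C _ _ v hv
      have h0 := hv.2
      rw [aeval_X] at h0
      refine ⟨Sum.elim (Sum.elim (fun s => v (Sum.inl s)) fun i => v (Sum.inr i.succ.succ))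
        fun _ => v (Sum.inr 1), ⟨hv.1.1, ?_⟩, ?_⟩
      · have h1 := hv.1.2
        rw [h0, zero_mul, zero_add] at h1
        have h2 := (ha C _ hv.1.1).mul_left_cancel (h1.trans (mul_zero _).symm)
        simpa only [Sum.elim_inl, Sum.elim_inr] using h2
      · rintro (s | i)
        · simp only [Sum.elim_inl, aeval_X]
        · simp only [Sum.elim_inr]
          refine Fin.cases ?_ (fun i => ?_) i
          · rw [Fin.cons_zero, map_zero]
            exact h0.symm
          · rw [Fin.cons_succ]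
            refine Fin.cases ?_ (fun i => ?_) i
            · rw [Fin.cons_zero, aeval_X]
              rfl
            · rw [Fin.cons_succ, aeval_X]
              rfl
  · refine ((h.unit hP).free hP (Fin r)).pull hP ((rp_hy h.rp a0 b c).op _)
      (Sum.elim (Sum.elim (fun s => X (Sum.inl s)) fun _ => X (Sum.inr 0))
        fun i => X (Sum.inr i.succ.succ)) ?_ ?_ ?_
    · intro C _ _ v hv
      have h1 := hv.2
      rw [aeval_X] at h1
      simp only [Sum.elim_inl, Sum.elim_inr, aeval_X]
      exact ⟨hv.1.1, h1⟩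
    · intro C _ _ v w hv hw h
      have h0 : (fun s => v (Sum.inl s)) = fun s => w (Sum.inl s) := by
        funext s
        simpa only [Sum.elim_inl, aeval_X] using h (Sum.inl (Sum.inl s))
      have h1 : v (Sum.inr 0) = w (Sum.inr 0) := by
        simpa only [Sum.elim_inl, Sum.elim_inr, aeval_X] using h (Sum.inl (Sum.inr ()))
      have h2 : ∀ i : Fin r, v (Sum.inr i.succ.succ) = w (Sum.inr i.succ.succ) := by
        intro i
        simpa only [Sum.elim_inr, aeval_X] using h (Sum.inr i)
      have h3 : v (Sum.inr 1) = w (Sum.inr 1) := by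
        have h4 := hv.1.2
        have h5 := hw.1.2
        rw [← h0, ← h1] at h5
        simp only [← h2] at h5
        have h6 := hv.2
        rw [aeval_X] at h6
        refine h6.mul_left_cancel ?_
        linear_combination h4 - h5
      funext s
      rcases s with s | i
      · exact congrFun h0 s
      · refine Fin.cases h1 (fun i => ?_) i
        refine Fin.cases h3 (fun i => ?_) i
        exact h2 i
    · intro C _ _ v hv
      obtain ⟨y, hy⟩ := hv.2.exists_right_inv
      refine ⟨Sum.elim (fun s => v (Sum.inl (Sum.inl s))) (Fin.cons (v (Sum.inl (Sum.inr ())))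
        (Fin.cons (-(aeval (fun s => v (Sum.inl (Sum.inl s))) a0 *
        (∑ i : Fin r, aeval (fun s => v (Sum.inl (Sum.inl s))) (b i) * v (Sum.inr i) ^ 2 +
        aeval (fun s => v (Sum.inl (Sum.inl s))) c)) * y) fun i => v (Sum.inr i))), ⟨⟨hv.1, ?_⟩, ?_⟩,
        ?_⟩
      · simp only [Sum.elim_inl, Sum.elim_inr, Fin.cons_zero, Fin.cons_succ]
        have h1 : ((1 : Fin (r + 2))) = Fin.succ 0 := rfl
        rw [h1, Fin.cons_succ, Fin.cons_zero]
        linear_combination (-(aeval (fun s => v (Sum.inl (Sum.inl s))) a0 *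
        (∑ i : Fin r, aeval (fun s => v (Sum.inl (Sum.inl s))) (b i) * v (Sum.inr i) ^ 2 +
        aeval (fun s => v (Sum.inl (Sum.inl s))) c))) * hy
      · rw [aeval_X, Sum.elim_inr, Fin.cons_zero]
        exact hv.2
      · rintro ((s | ⟨⟩) | i)
        · simp only [Sum.elim_inl, aeval_X]
        · simp only [Sum.elim_inl, Sum.elim_inr, aeval_X, Fin.cons_zero]
        · simp only [Sum.elim_inr, aeval_X, Fin.cons_succ]

variable (hQ : Dbl1 P)

include hQ

lemma dg_step (h2 : IsUnit (2 : R)) {r : ℕ} (a : Fin (r + 2) → MvPolynomial γ R)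
    (c : MvPolynomial γ R) (hr : Rp Θ)
    (ha0 : ∀ (C : Type) [CommRing C] [Algebra R C] (v : γ → C), Θ C v → IsUnit (aeval v (a 0)))
    (ha1 : ∀ (C : Type) [CommRing C] [Algebra R C] (v : γ → C), Θ C v → IsUnit (aeval v (a 1)))
    (h : Pr P (Rt Θ (-(a 0 * a 1))))
    (hd : Pr P (Dg (Rt Θ (-(a 0 * a 1))) (fun i : Fin r => rename Sum.inl (a i.succ.succ))
      (rename Sum.inl c))) : Pr P (Dg Θ a c) := by
  refine Pr.double hP hQ (rp_dg hr a c) (rename Sum.inl (-(a 0 * a 1))) ?_ ?_
  · intro C _ _ v hv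
    rw [aeval_rename]
    have h3 := (ha0 C _ hv.1).mul (ha1 C _ hv.1)
    rw [map_neg, map_mul]
    exact h3.neg
  have h1 := pr_hy hP (rename Sum.inl (a 0)) (fun i : Fin r => rename Sum.inl (a i.succ.succ))
    (rename Sum.inl c) (Θ := Rt Θ (-(a 0 * a 1))) (by
      intro C _ _ v hv
      rw [aeval_rename]
      exact ha0 C _ hv.1) h hd
  refine h1.pull hP ((rp_dg hr a c).sqrt _) (Sum.elim (Sum.elim (fun s => X (Sum.inl (Sum.inl s)))
    fun _ => X (Sum.inr ())) (Fin.cons (rename (fun s => Sum.inl (Sum.inl s)) (a 0) *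
      X (Sum.inl (Sum.inr 0)) - X (Sum.inr ()) * X (Sum.inl (Sum.inr 1)))
      (Fin.cons (rename (fun s => Sum.inl (Sum.inl s)) (a 0) *
      X (Sum.inl (Sum.inr 0)) + X (Sum.inr ()) * X (Sum.inl (Sum.inr 1)))
      fun i => X (Sum.inl (Sum.inr i.succ.succ))))) ?_ ?_ ?_
  · intro C _ _ v hv
    have h3 := hv.1.2
    have h4 := hv.2
    rw [Fin.sum_univ_succ, Fin.sum_univ_succ] at h3
    rw [aeval_rename, map_neg, map_mul] at h4
    have e1 : ((1 : Fin (r + 2))) = Fin.succ 0 := rfl
    simp only [Hy, Rt, Sum.elim_inl, Sum.elim_inr, aeval_X, Fin.cons_zero, Fin.cons_succ, map_sub,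
      map_mul, aeval_rename, Function.comp_def, map_neg] at h4 ⊢
    refine ⟨⟨hv.1.1, h4⟩, ?_⟩
    rw [e1, Fin.cons_succ, Fin.cons_zero]
    rw [e1] at h4
    simp only [map_add, map_mul, aeval_rename, aeval_X, Function.comp_def]
    linear_combination (aeval (fun s => v (Sum.inl (Sum.inl s))) (a 0)) * h3 -
      (v (Sum.inl (Sum.inr (Fin.succ 0)))) ^ 2 * h4
  · intro C _ _ v w hv hw h
    have h0 : (fun s => v (Sum.inl (Sum.inl s))) = fun s => w (Sum.inl (Sum.inl s)) := by
      funext s
      simpa only [Sum.elim_inl, aeval_X] using h (Sum.inl (Sum.inl s))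
    have hs : v (Sum.inr ()) = w (Sum.inr ()) := by
      simpa only [Sum.elim_inl, Sum.elim_inr, aeval_X] using h (Sum.inl (Sum.inr ()))
    have hU := h (Sum.inr 0)
    have hV := h (Sum.inr (Fin.succ 0))
    simp only [Sum.elim_inr, Fin.cons_zero, Fin.cons_succ, map_sub, map_add, map_mul, aeval_rename,
      aeval_X, Function.comp_def] at hU hV
    rw [← h0, ← hs] at hU hV
    have hu0 := ha0 C _ hv.1.1
    have hu1 := ha1 C _ hv.1.1
    have hus : IsUnit (v (Sum.inr ())) := by
      have h5 := hv.2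
      have h6 : IsUnit (v (Sum.inr ()) ^ 2) := by
        rw [h5, aeval_rename, map_neg, map_mul]
        exact (hu0.mul hu1).neg
      exact (isUnit_pow_iff two_ne_zero).mp h6
    have hu2 : IsUnit (2 : C) := by
      have h5 := h2.map (algebraMap R C)
      rwa [map_ofNat] at h5
    have ht0 : v (Sum.inl (Sum.inr 0)) = w (Sum.inl (Sum.inr 0)) := by
      refine (hu2.mul hu0).mul_left_cancel ?_
      linear_combination hU + hV
    have ht1 : v (Sum.inl (Sum.inr 1)) = w (Sum.inl (Sum.inr 1)) := by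
      refine (hu2.mul hus).mul_left_cancel ?_
      linear_combination hV - hU
    funext s
    rcases s with (s | i) | ⟨⟩
    · exact congrFun h0 s
    · refine Fin.cases ht0 (fun i => ?_) i
      refine Fin.cases ht1 (fun i => ?_) i
      simpa only [Sum.elim_inr, aeval_X, Fin.cons_succ] using h (Sum.inr i.succ.succ)
    · exact hs
  · intro C _ _ v hv
    have hu0 := ha0 C _ hv.1.1
    have hu1 := ha1 C _ hv.1.1
    have hroot := hv.1.2
    have hus : IsUnit (v (Sum.inl (Sum.inr ()))) := by
      have h6 : IsUnit (v (Sum.inl (Sum.inr ())) ^ 2) := by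
        rw [hroot, map_neg, map_mul]
        exact (hu0.mul hu1).neg
      exact (isUnit_pow_iff two_ne_zero).mp h6
    have hu2 : IsUnit (2 : C) := by
      have h5 := h2.map (algebraMap R C)
      rwa [map_ofNat] at h5
    obtain ⟨y, hy⟩ := (hu2.mul hu0).exists_right_inv
    obtain ⟨z, hz⟩ := (hu2.mul hus).exists_right_inv
    have heq := hv.2
    simp only [aeval_rename, Function.comp_def] at heq
    rw [map_neg, map_mul] at hroot
    set A0 := aeval (fun s => v (Sum.inl (Sum.inl s))) (a 0) with hA0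
    set A1 := aeval (fun s => v (Sum.inl (Sum.inl s))) (a 1) with hA1
    set T0 := (v (Sum.inr 0) + v (Sum.inr 1)) * y with hT0
    set T1 := (v (Sum.inr 1) - v (Sum.inr 0)) * z with hT1
    have e3 : A0 * T0 - v (Sum.inl (Sum.inr ())) * T1 = v (Sum.inr 0) := by
      refine hu2.mul_left_cancel ?_
      rw [hT0, hT1]
      linear_combination (v (Sum.inr 0) + v (Sum.inr 1)) * hy - (v (Sum.inr 1) - v (Sum.inr 0)) * hz
    have e4 : A0 * T0 + v (Sum.inl (Sum.inr ())) * T1 = v (Sum.inr 1) := by
      refine hu2.mul_left_cancel ?_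
      rw [hT0, hT1]
      linear_combination (v (Sum.inr 0) + v (Sum.inr 1)) * hy + (v (Sum.inr 1) - v (Sum.inr 0)) * hz
    refine ⟨Sum.elim (Sum.elim (fun s => v (Sum.inl (Sum.inl s)))
      (Fin.cons T0 (Fin.cons T1 fun i => v (Sum.inr i.succ.succ))))
      fun _ => v (Sum.inl (Sum.inr ())), ⟨⟨hv.1.1, ?_⟩, ?_⟩, ?_⟩
    · rw [Fin.sum_univ_succ, Fin.sum_univ_succ]
      simp only [Sum.elim_inl, Sum.elim_inr, Fin.cons_zero, Fin.cons_succ]
      have e1 : (Fin.succ 0 : Fin (r + 2)) = 1 := rfl
      rw [e1]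
      refine hu0.mul_left_cancel ?_
      rw [mul_zero]
      rw [← e3, ← e4] at heq
      linear_combination heq + T1 ^ 2 * hroot
    · simp only [Sum.elim_inl, Sum.elim_inr, aeval_rename, Function.comp_def, map_neg, map_mul]
      exact hroot
    · rintro ((s | ⟨⟩) | i)
      · simp only [Sum.elim_inl, aeval_X]
      · simp only [Sum.elim_inl, Sum.elim_inr, aeval_X]
      · simp only [Sum.elim_inr]
        have e1 : (1 : Fin (r + 2)) = Fin.succ 0 := rfl
        refine Fin.cases ?_ (fun i => ?_) i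
        · rw [Fin.cons_zero]
          simp only [map_sub, map_mul, aeval_rename, aeval_X, Function.comp_def, Sum.elim_inl,
            Sum.elim_inr, Fin.cons_zero, e1, Fin.cons_succ]
          exact e3
        · rw [Fin.cons_succ]
          refine Fin.cases ?_ (fun i => ?_) i
          · rw [Fin.cons_zero]
            simp only [map_add, map_mul, aeval_rename, aeval_X, Function.comp_def, Sum.elim_inl,
              Sum.elim_inr, Fin.cons_zero, e1, Fin.cons_succ]
            exact e4
          · rw [Fin.cons_succ, aeval_X]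
            simp only [Sum.elim_inl, Sum.elim_inr, Fin.cons_succ]

end

end Pool.Agent.L5helper70.QF
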