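import Pool.Agent.L5helper70.QF.Base

/-!
# Affine-linear equations in additional variables
-/

set_option autoImplicit false
set_option linter.unusedVariables false

open CategoryTheory AlgebraicGeometry MvPolynomial Pool.Agent.Y116.UV Pool.Agent.Z125.UN

namespace Pool.Agent.L5helper70.QF

variable {R : Type} [CommRing R] {P : Sch R → Prop} {sep : Prop}

/-- change of the index set -/
lemma Pr.reindex {σ σ' : Type} {Φ : Cond R σ} (h : Pr P Φ) (e : σ ≃ σ') :
    Pr P (fun C _ _ v => Φ C fun s => v (e s) : Cond R σ') := by
  refine h.push (fun s => X (e.symm s)) ?_ ?_ ?_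
  · intro C _ _ v hv
    simp only [aeval_X, Equiv.symm_apply_apply]
    exact hv
  · intro C _ _ v w _ _ h
    funext s
    have h1 := h (e s)
    simpa only [aeval_X, Equiv.symm_apply_apply] using h1
  · intro C _ _ v hv
    refine ⟨fun s => v (e s), hv, fun s => ?_⟩
    rw [aeval_X, Equiv.apply_symm_apply]

section

variable (hP : Bnd sep P)

include hP

lemma Pr.unjou' {σ : Type} {Φ : Cond R σ} {ι : Type} [Fintype ι] (e : ι → MvPolynomial σ R)
    (h : Pr P Φ)
    (h1 : Pr P (fun C _ _ v => Φ C (fun s => v (Sum.inl s)) ∧
        ∑ l, aeval (fun s => v (Sum.inl s)) (e l) * v (Sum.inr l) = 1 : Cond R (σ ⊕ ι))) :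
    Pr P (fun C _ _ v => Φ C v ∧ ∀ l, aeval v (e l) = 0 : Cond R σ) := by
  let g := (Fintype.equivFin ι)
  have h2 := (h1.reindex ((Equiv.refl σ).sumCongr g)).congr (Φ' := (fun C _ _ v =>
    Φ C (fun s => v (Sum.inl s)) ∧
        ∑ l, aeval (fun s => v (Sum.inl s)) (e (g.symm l)) * v (Sum.inr l) = 1 :
          Cond R (σ ⊕ Fin (Fintype.card ι)))) (by
    intro C _ _ v
    refine and_congr_right fun _ => ?_
    rw [← g.symm.sum_comp (fun l => aeval _ (e l) * _)]
    simp only [Equiv.sumCongr_apply, Sum.map_inl, Sum.map_inr, Equiv.apply_symm_apply,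
      Equiv.refl_apply])
  refine (h.unjou hP (fun l => e (g.symm l)) h2).congr ?_
  intro C _ _ v
  refine and_congr_right fun _ => ?_
  constructor
  · intro h l
    have := h (g l)
    rwa [Equiv.symm_apply_apply] at this
  · intro h l
    exact h _

/-- If the torsor `H + ∑ E_i v_i = 1` has the property, then the part `E = 0`, `H = 1` has the
property. -/
theorem tors {σ : Type} [Finite σ] {ι : Type} [Fintype ι] [DecidableEq ι] (H : MvPolynomial σ R)
    (E : ι → MvPolynomial σ R)
    (h0 : ∀ T : Finset ι, Pr P (fun C _ _ v => ∀ i ∈ T, aeval v (E i) = 0 : Cond R σ))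
    (h1 : Pr P (fun C _ _ v => aeval (fun s => v (Sum.inl s)) H +
      ∑ i, aeval (fun s => v (Sum.inl s)) (E i) * v (Sum.inr i) = 1 : Cond R (σ ⊕ ι))) :
    Pr P (fun C _ _ v => aeval v H = 1 ∧ ∀ i, aeval v (E i) = 0 : Cond R σ) := by
  have key : ∀ T : Finset ι, Pr P (fun C _ _ v => (aeval (fun s => v (Sum.inl s)) H +
      ∑ i, aeval (fun s => v (Sum.inl s)) (E i) * v (Sum.inr i) = 1) ∧
      ∀ i ∈ T, aeval (fun s => v (Sum.inl s)) (E i) = 0 : Cond R (σ ⊕ ι)) := by
    intro T
    induction T using Finset.induction_on with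
    | empty =>
      refine h1.congr ?_
      intro C _ _ v
      exact ⟨fun h => ⟨h, fun i hi => absurd hi (Finset.notMem_empty i)⟩, fun h => h.1⟩
    | insert j T hj ih =>
      -- the part where `E j` is invertible
      have h2 : Pr P (fun C _ _ v => (∀ i ∈ T, aeval v (E i) = 0) ∧ IsUnit (aeval v (E j)) :
          Cond R σ) := by
        refine (h0 T).opn hP (E j) ((h0 (insert j T)).congr ?_)
        intro C _ _ v
        rw [Finset.forall_mem_insert]
        exact and_comm
      have h3 : Pr P (fun C _ _ v => ((aeval (fun s => v (Sum.inl s)) H +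
          ∑ i, aeval (fun s => v (Sum.inl s)) (E i) * v (Sum.inr i) = 1) ∧
          ∀ i ∈ T, aeval (fun s => v (Sum.inl s)) (E i) = 0) ∧
            IsUnit (aeval v (rename Sum.inl (E j))) : Cond R (σ ⊕ ι)) := by
        refine (h2.free hP {i : ι // i ≠ j}).pull hP (ih.rp.op _)
          (Sum.elim (fun s => X (Sum.inl s)) fun i => X (Sum.inr i.1)) ?_ ?_ ?_
        · intro C _ _ v hv
          have h4 := hv.2
          rw [aeval_rename] at h4
          simp only [Sum.elim_inl, aeval_X]
          exact ⟨hv.1.2, h4⟩
        · intro C _ _ v w hv hw h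
          have e0 : (fun s => v (Sum.inl s)) = fun s => w (Sum.inl s) := by
            funext s
            simpa only [Sum.elim_inl, aeval_X] using h (Sum.inl s)
          have e1 : ∀ i, i ≠ j → v (Sum.inr i) = w (Sum.inr i) := by
            intro i hi
            simpa only [Sum.elim_inr, aeval_X] using h (Sum.inr ⟨i, hi⟩)
          have hu := hv.2
          rw [aeval_rename] at hu
          have e2 : v (Sum.inr j) = w (Sum.inr j) := by
            have h4 := hv.1.1
            have h5 := hw.1.1
            rw [← e0] at h5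
            rw [← Finset.add_sum_erase _ _ (Finset.mem_univ j)] at h4 h5
            have h6 : ∑ i ∈ Finset.univ.erase j, aeval (fun s => v (Sum.inl s)) (E i) *
                v (Sum.inr i) = ∑ i ∈ Finset.univ.erase j, aeval (fun s => v (Sum.inl s)) (E i) *
                w (Sum.inr i) := by
              apply Finset.sum_congr rfl
              intro i hi
              rw [e1 i (Finset.ne_of_mem_erase hi)]
            rw [h6] at h4
            refine hu.mul_left_cancel ?_
            change aeval (fun s => v (Sum.inl s)) (E j) * _ =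
              aeval (fun s => v (Sum.inl s)) (E j) * _
            linear_combination h4 - h5
          funext s
          rcases s with s | i
          · exact congrFun e0 s
          · by_cases hi : i = j
            · rw [hi]
              exact e2
            · exact e1 i hi
        · intro C _ _ v hv
          obtain ⟨y, hy⟩ := hv.2.exists_right_inv
          let w0 : ι → C := fun i => if hi : i = j then 0 else v (Sum.inr ⟨i, hi⟩)
          let c : C := (1 - aeval (fun s => v (Sum.inl s)) H -
            ∑ i ∈ Finset.univ.erase j, aeval (fun s => v (Sum.inl s)) (E i) * w0 i) * y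
          let w : ι → C := fun i => if i = j then c else w0 i
          have hw1 : ∀ i, i ≠ j → w i = w0 i := fun i hi => if_neg hi
          have hw2 : w j = c := if_pos rfl
          refine ⟨Sum.elim (fun s => v (Sum.inl s)) w, ⟨⟨?_, hv.1⟩, ?_⟩, ?_⟩
          · simp only [Sum.elim_inl, Sum.elim_inr]
            rw [← Finset.add_sum_erase _ _ (Finset.mem_univ j)]
            have h6 : ∑ i ∈ Finset.univ.erase j, aeval (fun s => v (Sum.inl s)) (E i) * w i =
                ∑ i ∈ Finset.univ.erase j, aeval (fun s => v (Sum.inl s)) (E i) * w0 i := by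
              apply Finset.sum_congr rfl
              intro i hi
              rw [hw1 i (Finset.ne_of_mem_erase hi)]
            rw [h6, hw2]
            linear_combination (1 - aeval (fun s => v (Sum.inl s)) H -
              ∑ i ∈ Finset.univ.erase j, aeval (fun s => v (Sum.inl s)) (E i) * w0 i) * hy
          · rw [aeval_rename]
            exact hv.2
          · rintro (s | i)
            · simp only [Sum.elim_inl, aeval_X]
            · simp only [Sum.elim_inr, aeval_X]
              rw [hw1 i.1 i.2]
              exact dif_neg i.2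
      refine (ih.clo hP (rename Sum.inl (E j)) h3).congr ?_
      intro C _ _ v
      rw [aeval_rename, Finset.forall_mem_insert]
      constructor
      · rintro ⟨⟨h4, h5⟩, h6⟩
        exact ⟨h4, h6, h5⟩
      · rintro ⟨h4, h6, h5⟩
        exact ⟨⟨h4, h5⟩, h6⟩
  have h2 := (key Finset.univ).congr (Φ' := (fun C _ _ v =>
    aeval (fun s => v (Sum.inl s)) H = 1 ∧ ∀ i, aeval (fun s => v (Sum.inl s)) (E i) = 0 :
      Cond R (σ ⊕ ι))) (by
    intro C _ _ v
    constructor
    · rintro ⟨h4, h5⟩
      have h6 : ∀ i, aeval (fun s => v (Sum.inl s)) (E i) = 0 := fun i => h5 i (Finset.mem_univ i)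
      refine ⟨?_, h6⟩
      simpa only [h6, zero_mul, Finset.sum_const_zero, add_zero] using h4
    · rintro ⟨h4, h5⟩
      refine ⟨?_, fun i _ => h5 i⟩
      simpa only [h5, zero_mul, Finset.sum_const_zero, add_zero] using h4)
  have hr : Rp (fun C _ _ v => aeval v H = 1 ∧ ∀ i, aeval v (E i) = 0 : Cond R σ) := by
    refine (((rp_true R σ).cl (H - 1)).cls E).congr ?_
    intro C _ _ v
    rw [map_sub, map_one, sub_eq_zero, true_and]
  exact Pr.unfree hP (τ := ι) hr h2

end

end Pool.Agent.L5helper70.QF
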